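import Mathlib

/-!
# MP_16ff77_co, k = 6: definitions

Orders are relations `Rel X = X → X → Prop`.  `cnt O S` is the number of patterns which a SET
`O` of relations induces on a finite set `S` (`ideal` families: all sign functions; the passage to
small families is done in `Sch.lean`).
A `Side` is a set of points together with bit strings (a tree), integer coordinates `pt`,
node values `nd` (which lie strictly between the two coordinate values which they separate),
and tuples of integer polynomials.
-/

set_option autoImplicit false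

namespace Pool.Agent.H14.SX

open Finset

/-- relations -/
abbrev Rel (X : Type) := X → X → Prop

/-- strict total orders -/
structure STO {X : Type} (r : Rel X) : Prop where
  irr : ∀ x, ¬ r x x
  trans : ∀ x y z, r x y → r y z → r x z
  tot : ∀ x y, x ≠ y → r x y ∨ r y x

/-- the pattern (ordering) which `r` induces on `S` -/
def pat {X : Type} (r : Rel X) (S : Finset X) : Set (X × X) :=
  {p | p.1 ∈ S ∧ p.2 ∈ S ∧ r p.1 p.2}

/-- number of patterns which the set `O` of relations induces on `S` -/
noncomputable def cnt {X : Type} (O : Set (Rel X)) (S : Finset X) : ℕ :=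
  ((fun r => pat r S) '' O).ncard

/-- first coordinate first, then a fibre order depending on the first coordinate -/
def xf {X Y : Type} (r : Rel X) (s : X → Rel Y) : Rel (X × Y) :=
  fun a b => r a.1 b.1 ∨ (a.1 = b.1 ∧ s a.1 a.2 b.2)

/-- second coordinate first, then a fibre order depending on the second coordinate -/
def yf {X Y : Type} (s : Rel Y) (r : Y → Rel X) : Rel (X × Y) :=
  fun a b => s a.2 b.2 ∨ (a.2 = b.2 ∧ r a.2 a.1 b.1)

/-- swapping the coordinates -/
def sw {X Y : Type} (r : Rel (Y × X)) : Rel (X × Y) := fun a b => r a.swap b.swap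

/-- `q` is the first bit at which the strings of `x` and `y` differ -/
def Dif {X : Type} (z : X → ℕ → Bool) (x y : X) (q : ℕ) : Prop :=
  (∀ i < q, z x i = z y i) ∧ z x q ≠ z y q

/-- tree order: at the first different bit `q`, the smaller one is the one whose bit,
flipped by `φ _ q`, is `false` -/
def tr {X : Type} (z : X → ℕ → Bool) (φ : X → ℕ → Bool) : Rel X :=
  fun x y => ∃ q, Dif z x y q ∧ xor (z x q) (φ x q) = false

/-- Points with a tree, coordinates, node values and polynomials. -/
structure Side (d : ℕ) (H V : ℤ) (X : Type) where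
  M : ℕ
  bit : X → ℕ → Bool
  bit_inj : Function.Injective bit
  bit_out : ∀ x q, M ≤ q → bit x q = false
  E : ℕ
  co : ℕ → ℕ
  co_lt : ∀ q, q < M → co q < E
  pt : ℕ → X → ℤ
  nd : X → ℕ → ℤ
  nd_pre : ∀ x y q, (∀ i < q, bit x i = bit y i) → nd x q = nd y q
  nd_bd : ∀ x q, |nd x q| ≤ H
  btw : ∀ x y q, (∀ i < q, bit x i = bit y i) → bit x q = false → bit y q = true →
    pt (co q) x < nd x q ∧ nd x q < pt (co q) y
  m : ℕ
  pol : X → ℕ → Polynomial ℤ
  pol_inj : Function.Injective pol
  pol_out : ∀ x i, m ≤ i → pol x i = 0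
  pol_deg : ∀ x i, (pol x i).natDegree ≤ d
  pol_bd : ∀ x i s, |s| ≤ H → |(pol x i).eval s| ≤ V

variable {d : ℕ} {H V : ℤ} {X Y : Type}

/-- level sign order: the sign depends on the bit position only -/
def lev (A : Side d H V X) (e : ℕ → Bool) : Rel X := tr A.bit (fun _ q => e q)

/-- labelled tree order: the sign depends on the bit position and on the value of the
polynomial `P` at the node -/
def lab (A : Side d H V X) (P : Polynomial ℤ) (g : ℕ → ℤ → Bool) : Rel X :=
  tr A.bit (fun x q => g q (P.eval (A.nd x q)))

/-- an injective code of integer polynomials (only used to break ties) -/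
noncomputable def code (p : Polynomial ℤ) : ℕ :=
  Encodable.encode ((List.range (p.natDegree + 1)).map p.coeff)

lemma code_inj : Function.Injective code := by
  intro p q h
  have h1 : (List.range (p.natDegree + 1)).map p.coeff =
      (List.range (q.natDegree + 1)).map q.coeff := Encodable.encode_injective h
  have h2 : p.natDegree = q.natDegree := by
    have := congrArg List.length h1
    simpa using this
  ext i
  by_cases hi : i < p.natDegree + 1
  · have h3 := congrArg (fun l => l[i]?) h1
    rw [← h2] at h3
    simpa [hi] using h3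
  · rw [Polynomial.coeff_eq_zero_of_natDegree_lt (by omega),
      Polynomial.coeff_eq_zero_of_natDegree_lt (by omega)]

/-- compare two polynomials by the `r`-th derivative at `s`, ties by the code or by the
reversed code -/
def pcmp (s : ℤ) (r : ℕ) (t : Bool) (p p' : Polynomial ℤ) : Prop :=
  (Polynomial.derivative^[r] p).eval s < (Polynomial.derivative^[r] p').eval s ∨
  ((Polynomial.derivative^[r] p).eval s = (Polynomial.derivative^[r] p').eval s ∧
    (if t then code p < code p' else code p' < code p))

/-- derivative order: at the first different polynomial, `pcmp` (reversed if `σ = false`) -/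
def po (B : Side d H V Y) (s : ℤ) (r : ℕ) (t σ : Bool) : Rel Y := fun y y' =>
  ∃ i, (∀ j < i, B.pol y j = B.pol y' j) ∧ B.pol y i ≠ B.pol y' i ∧
    (if σ then pcmp s r t (B.pol y i) (B.pol y' i) else pcmp s r t (B.pol y' i) (B.pol y i))

/-- `B` first (level signs), then `A` by the tree order labelled by the `i`-th polynomial -/
def DL (A : Side d H V X) (B : Side d H V Y) (i : ℕ) : Set (Rel (X × Y)) :=
  {ρ | ∃ (e : ℕ → Bool) (g : ℕ → ℤ → Bool), ρ = yf (lev B e) (fun y => lab A (B.pol y i) g)}

/-- `A` first (level signs), then `B` by the `r`-th derivative at the `c`-th coordinate -/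
def DO (A : Side d H V X) (B : Side d H V Y) (c r : ℕ) (t : Bool) : Set (Rel (X × Y)) :=
  {ρ | ∃ (e : ℕ → Bool) (σ : Bool), ρ = xf (lev A e) (fun x => po B (A.pt c x) r t σ)}

/-- `A` first, then `B`, level signs -/
def DN (A : Side d H V X) (B : Side d H V Y) : Set (Rel (X × Y)) :=
  {ρ | ∃ e e' : ℕ → Bool, ρ = xf (lev A e) (fun _ => lev B e')}

/-- the design families -/
def DD (A : Side d H V X) (B : Side d H V Y) : Set (Rel (X × Y)) :=
  {ρ | (∃ i < B.m, ρ ∈ DL A B i) ∨ (∃ c < A.E, ∃ r ≤ d, ∃ t, ρ ∈ DO A B c r t) ∨ ρ ∈ DN A B}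

/-- rank orders: all orders on at most eight points are restrictions of rank orders -/
def rk (B : Side d H V Y) (f : Y → Fin 8) : Rel Y :=
  fun y y' => f y < f y' ∨ (f y = f y' ∧ lev B (fun _ => false) y y')

/-- product of two sides -/
def Side.prod (A : Side d H V X) (B : Side d H V Y) : Side d H V (X × Y) where
  M := A.M + B.M
  bit x q := if q < A.M then A.bit x.1 q else B.bit x.2 (q - A.M)
  bit_inj := by
    intro x y h
    have h1 : A.bit x.1 = A.bit y.1 := by
      funext q
      by_cases hq : q < A.M
      · have := congrFun h q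
        simpa [hq] using this
      · rw [A.bit_out _ _ (not_lt.mp hq), A.bit_out _ _ (not_lt.mp hq)]
    have h2 : B.bit x.2 = B.bit y.2 := by
      funext q
      have := congrFun h (q + A.M)
      simpa using this
    exact Prod.ext (A.bit_inj h1) (B.bit_inj h2)
  bit_out := by
    intro x q hq
    rw [if_neg (by omega)]
    exact B.bit_out _ _ (by omega)
  E := A.E + B.E
  co q := if q < A.M then A.co q else A.E + B.co (q - A.M)
  co_lt := by
    intro q hq
    by_cases h : q < A.M
    · rw [if_pos h]
      have := A.co_lt q h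
      omega
    · rw [if_neg h]
      have := B.co_lt (q - A.M) (by omega)
      omega
  pt c x := if c < A.E then A.pt c x.1 else B.pt (c - A.E) x.2
  nd x q := if q < A.M then A.nd x.1 q else B.nd x.2 (q - A.M)
  nd_pre := by
    intro x y q h
    by_cases hq : q < A.M
    · simp only [hq, if_true]
      apply A.nd_pre
      intro i hi
      have := h i hi
      simpa [hi.trans hq] using this
    · simp only [hq, if_false]
      apply B.nd_pre
      intro i hi
      have := h (i + A.M) (by omega)
      simpa using this
  nd_bd := by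
    intro x q
    by_cases hq : q < A.M
    · simp only [hq, if_true]; exact A.nd_bd _ _
    · simp only [hq, if_false]; exact B.nd_bd _ _
  btw := by
    intro x y q h hx hy
    by_cases hq : q < A.M
    · simp only [hq, if_true] at hx hy ⊢
      have hc := A.co_lt q hq
      simp only [hc, if_true]
      apply A.btw _ _ _ _ hx hy
      intro i hi
      have := h i hi
      simpa [hi.trans hq] using this
    · simp only [hq, if_false] at hx hy ⊢
      have hc : ¬ (A.E + B.co (q - A.M) < A.E) := by omega
      simp only [hc, if_false, Nat.add_sub_cancel_left]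
      apply B.btw _ _ _ _ hx hy
      intro i hi
      have := h (i + A.M) (by omega)
      simpa using this
  m := A.m + B.m
  pol x i := if i < A.m then A.pol x.1 i else B.pol x.2 (i - A.m)
  pol_inj := by
    intro x y h
    have h1 : A.pol x.1 = A.pol y.1 := by
      funext q
      by_cases hq : q < A.m
      · have := congrFun h q
        simpa [hq] using this
      · rw [A.pol_out _ _ (not_lt.mp hq), A.pol_out _ _ (not_lt.mp hq)]
    have h2 : B.pol x.2 = B.pol y.2 := by
      funext q
      have := congrFun h (q + A.m)
      simpa using this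
    exact Prod.ext (A.pol_inj h1) (B.pol_inj h2)
  pol_out := by
    intro x q hq
    rw [if_neg (by omega)]
    exact B.pol_out _ _ (by omega)
  pol_deg := by
    intro x i
    by_cases hq : i < A.m
    · simp only [hq, if_true]; exact A.pol_deg _ _
    · simp only [hq, if_false]; exact B.pol_deg _ _
  pol_bd := by
    intro x i s hs
    by_cases hq : i < A.m
    · simp only [hq, if_true]; exact A.pol_bd _ _ _ hs
    · simp only [hq, if_false]; exact B.pol_bd _ _ _ hs

/-- random block orders, extended by one block -/
def RdS (B : Side d H V Y) (Rd : Set (Rel X)) : Set (Rel (X × Y)) :=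
  {ρ | ∃ r ∈ Rd, ∃ f : Y → Fin 8, ρ = xf r (fun _ => rk B f)}

/-- all families, extended by one block -/
def TotS (A : Side d H V X) (B : Side d H V Y) (Rd Tot : Set (Rel X)) : Set (Rel (X × Y)) :=
  {ρ | (∃ o ∈ Tot, ∃ e : ℕ → Bool, ρ = xf o (fun _ => lev B e)) ∨ ρ ∈ DD A B ∨
    (∃ σ ∈ DD B A, ρ = sw σ) ∨ ρ ∈ RdS B Rd}

/-- the invariants of the induction -/
structure Good (A : Side d H V X) (Rd Tot : Set (Rel X)) : Prop where
  sto : ∀ r ∈ Tot, STO r
  Rsub : Rd ⊆ Tot
  Lsub : ∀ e : ℕ → Bool, lev A e ∈ Tot
  P : ∀ S : Finset X, S.card ≤ 6 → 2 ^ (S.card - 1) ≤ cnt Tot S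
  Q : ∀ S : Finset X, S.card = 4 → 16 ≤ cnt Rd S + cnt Tot S
  R4 : ∀ S : Finset X, S.card = 4 → 4 ≤ cnt Rd S
  R3 : ∀ S : Finset X, S.card = 3 → 4 ≤ cnt Rd S
  R2 : ∀ S : Finset X, S.card = 2 → 2 ≤ cnt Rd S
  R1 : Rd.Nonempty

/-- `{a, b}` lies completely on one side of `{c, e}` -/
def UC {X : Type} (r : Rel X) (a b c e : X) : Prop :=
  (r a c ∧ r a e ∧ r b c ∧ r b e) ∨ (r c a ∧ r e a ∧ r c b ∧ r e b)

/-- rectangle `a = (p,v), b = (p,v'), c = (p',v), e = (p',v')`: first coordinate first, locked -/
def UL {X : Type} (r : Rel X) (a b c e : X) : Prop := UC r a b c e ∧ (r a b ↔ r c e)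

/-- second coordinate first, locked -/
def VL {X : Type} (r : Rel X) (a b c e : X) : Prop := UC r a c b e ∧ (r a c ↔ r b e)

/-- unlocked -/
def NL {X : Type} (r : Rel X) (a b c e : X) : Prop :=
  (UC r a b c e ∧ ¬ (r a b ↔ r c e)) ∨ (UC r a c b e ∧ ¬ (r a c ↔ r b e))

end Pool.Agent.H14.SX
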