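import Mathlib
import Pool.Agent.H14.SX.Defs

/-!
# The block side

Points: bit strings `y : Fin M → Bool`, `M = (d+1) * g * L`, extended by `false` to `ℕ`
(`bitN`).
* coordinate of the bit `q`: `co q = q / L` (there are `E = (d+1) * g` coordinates);
  `pt c y = 2 * cval`, `cval L y c = ∑_{i < L} bit (c*L+i) * 2^(L-1-i)` (most significant first);
* node: with `l = q % L`, `nd y q = 2 * (pval + 2^(L-1-l)) - 1`, where
  `pval = ∑_{i < l} bit ((q/L)*L + i) * 2^(L-1-i)` is the part of the coordinate value read before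
  the bit `q`.
* `nd_pre`: `pval` only uses bits with positions `< q`.  `nd_bd`: `0 ≤ pval ≤ 2^L - 2^(L-l)`, so
  `1 ≤ nd y q ≤ 2^(L+1)` (`l < L`).
* `btw`: if `x, y` agree below `q` (same `pval`), bit `q` of `x` is `false` and of `y` is `true`
  (hence `q < M`), then `cval x c = pval + (bits after l) ≤ pval + (2^(L-1-l) - 1)` and
  `cval y c ≥ pval + 2^(L-1-l)`, so `pt x ≤ nd - 1 < nd < nd + 1 ≤ pt y`.  (Split
  `range L = range l ∪ {l} ∪ rest`; `∑_{i < k} 2^i = 2^k - 1`.)
* polynomial: `m = 1`, `pol y 0 = ∑_{j ≤ d} C (coef j) * X^j`, `coef j = ∑_{i < g*L}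
  bit (j*(g*L) + i) * 2^i` (a number below `2^(g*L)` in binary), `pol y i = 0` for `i > 0`.
  Injective: the coefficients determine the binary digits (e.g. `Nat.testBit` of
  `∑_{i<n} bit i * 2^i`, or induction on the number of digits), and
  `(d+1) * (g*L) = M`.  Degree `≤ d`.  `|P(s)| ≤ ∑_{j ≤ d} 2^(g*L) * |s|^j ≤
  (d+1) * 2^(g*L) * (2^(L+1))^d` for `|s| ≤ 2^(L+1)`.
The statement only asserts existence; define the data inside the proof or by auxiliary
definitions before it.
-/

set_option autoImplicit false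

namespace Pool.Agent.H14.SX

namespace Blk

/-- the bit string, extended by `false` -/
def bitN {M : ℕ} (y : Fin M → Bool) (q : ℕ) : Bool := if h : q < M then y ⟨q, h⟩ else false

theorem bitN_of_lt {M : ℕ} (y : Fin M → Bool) {q : ℕ} (h : q < M) : bitN y q = y ⟨q, h⟩ :=
  dif_pos h

theorem bitN_out {M : ℕ} (y : Fin M → Bool) {q : ℕ} (h : M ≤ q) : bitN y q = false :=
  dif_neg (by omega)

theorem bitN_inj {M : ℕ} : Function.Injective (bitN : (Fin M → Bool) → ℕ → Bool) := by
  intro x y h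
  funext i
  have h1 := congrFun h i.1
  rw [bitN_of_lt x i.2, bitN_of_lt y i.2] at h1
  exact h1

/-- the part of the coordinate `c` which is read by the first `n` bits -/
def cv (L : ℕ) (z : ℕ → Bool) (c n : ℕ) : ℕ :=
  ∑ i ∈ Finset.range n, if z (c * L + i) then 2 ^ (L - 1 - i) else 0

theorem cv_succ (L : ℕ) (z : ℕ → Bool) (c n : ℕ) :
    cv L z c (n + 1) = cv L z c n + if z (c * L + n) then 2 ^ (L - 1 - n) else 0 :=
  Finset.sum_range_succ _ _

theorem cv_mono (L : ℕ) (z : ℕ → Bool) (c : ℕ) {n m : ℕ} (h : n ≤ m) :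
    cv L z c n ≤ cv L z c m := by
  induction m, h using Nat.le_induction with
  | base => exact le_refl _
  | succ m _ ih =>
    rw [cv_succ]
    exact ih.trans (Nat.le_add_right _ _)

theorem cv_up (L : ℕ) (z : ℕ → Bool) (c : ℕ) {n m : ℕ} (h : n ≤ m) (hm : m ≤ L) :
    cv L z c m + 2 ^ (L - m) ≤ cv L z c n + 2 ^ (L - n) := by
  induction m, h using Nat.le_induction with
  | base => exact le_refl _
  | succ m _ ih =>
    have h1 := ih (by omega)
    have h2 : L - m = (L - (m + 1)) + 1 := by omega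
    have h3 : L - 1 - m = L - (m + 1) := by omega
    rw [h2, pow_succ] at h1
    rw [cv_succ, h3]
    have h4 : (if z (c * L + m) then 2 ^ (L - (m + 1)) else 0) ≤ 2 ^ (L - (m + 1)) := by
      split_ifs
      · exact le_refl _
      · exact Nat.zero_le _
    omega

theorem cv_congr (L : ℕ) (z z' : ℕ → Bool) (c n : ℕ) (h : ∀ i < n, z (c * L + i) = z' (c * L + i)) :
    cv L z c n = cv L z' c n := by
  unfold cv
  refine Finset.sum_congr rfl fun i hi => ?_
  rw [h i (Finset.mem_range.1 hi)]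

/-- the node value -/
def ndv (L : ℕ) (z : ℕ → Bool) (q : ℕ) : ℤ :=
  2 * ((cv L z (q / L) (q % L) + 2 ^ (L - 1 - q % L) : ℕ) : ℤ) - 1

theorem blk_div (L q i : ℕ) (hi : i < q % L) : q / L * L + i < q := by
  have h := Nat.div_add_mod q L
  rw [mul_comm] at h
  omega

theorem ndv_pre (L : ℕ) (z z' : ℕ → Bool) (q : ℕ) (h : ∀ i < q, z i = z' i) :
    ndv L z q = ndv L z' q := by
  unfold ndv
  rw [cv_congr L z z' (q / L) (q % L) fun i hi => h _ (blk_div L q i hi)]

theorem ndv_bd (L : ℕ) (hL : 1 ≤ L) (z : ℕ → Bool) (q : ℕ) : |ndv L z q| ≤ 2 ^ (L + 1) := by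
  have hl : q % L < L := Nat.mod_lt _ hL
  have h1 := cv_up L z (q / L) (Nat.zero_le (q % L)) hl.le
  have h0 : cv L z (q / L) 0 = 0 := Finset.sum_range_zero _
  rw [h0, zero_add, Nat.sub_zero] at h1
  have h2 : 2 ^ (L - 1 - q % L) ≤ 2 ^ (L - q % L) := Nat.pow_le_pow_right (by norm_num) (by omega)
  have h3 : 1 ≤ 2 ^ (L - 1 - q % L) := Nat.one_le_two_pow
  have h4 : cv L z (q / L) (q % L) + 2 ^ (L - 1 - q % L) ≤ 2 ^ L := by omega
  have h5 : 1 ≤ cv L z (q / L) (q % L) + 2 ^ (L - 1 - q % L) := by omega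
  have h4' : ((cv L z (q / L) (q % L) + 2 ^ (L - 1 - q % L) : ℕ) : ℤ) ≤ 2 ^ L := by
    exact_mod_cast h4
  have h5' : (1 : ℤ) ≤ ((cv L z (q / L) (q % L) + 2 ^ (L - 1 - q % L) : ℕ) : ℤ) := by
    exact_mod_cast h5
  unfold ndv
  rw [abs_le, pow_succ]
  constructor
  · have : (0 : ℤ) < 2 ^ L := by positivity
    linarith
  · linarith

theorem ndv_btw (L : ℕ) (hL : 1 ≤ L) (z z' : ℕ → Bool) (q : ℕ) (h : ∀ i < q, z i = z' i)
    (hz : z q = false) (hz' : z' q = true) :
    2 * ((cv L z (q / L) L : ℕ) : ℤ) < ndv L z q ∧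
      ndv L z q < 2 * ((cv L z' (q / L) L : ℕ) : ℤ) := by
  have hl : q % L < L := Nat.mod_lt _ hL
  have hq : q / L * L + q % L = q := by
    have h1 := Nat.div_add_mod q L
    rw [mul_comm] at h1
    exact h1
  have e1 : cv L z (q / L) (q % L + 1) = cv L z (q / L) (q % L) := by
    rw [cv_succ, hq, hz]
    simp
  have e2 : cv L z' (q / L) (q % L + 1) = cv L z' (q / L) (q % L) + 2 ^ (L - 1 - q % L) := by
    rw [cv_succ, hq, hz']
    simp
  have e3 : cv L z' (q / L) (q % L) = cv L z (q / L) (q % L) :=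
    (cv_congr L z z' (q / L) (q % L) fun i hi => h _ (blk_div L q i hi)).symm
  have h1 := cv_up L z (q / L) (n := q % L + 1) (m := L) hl le_rfl
  have h2 := cv_mono L z' (q / L) (n := q % L + 1) (m := L) hl
  have h3 : L - (q % L + 1) = L - 1 - q % L := by omega
  rw [e1, h3, Nat.sub_self, pow_zero] at h1
  rw [e2, e3] at h2
  have h1' : ((cv L z (q / L) L : ℕ) : ℤ) + 1 ≤
      ((cv L z (q / L) (q % L) + 2 ^ (L - 1 - q % L) : ℕ) : ℤ) := by exact_mod_cast h1
  have h2' : ((cv L z (q / L) (q % L) + 2 ^ (L - 1 - q % L) : ℕ) : ℤ) ≤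
      ((cv L z' (q / L) L : ℕ) : ℤ) := by exact_mod_cast h2
  unfold ndv
  constructor
  · linarith
  · linarith

/-- the coefficient with the binary digits of the block `j` -/
def cf (n : ℕ) (z : ℕ → Bool) (j : ℕ) : ℕ := Nat.ofBits (fun i : Fin n => z (j * n + i))

theorem cf_inj (n : ℕ) (z z' : ℕ → Bool) (j : ℕ) (h : cf n z j = cf n z' j) (i : ℕ) (hi : i < n) :
    z (j * n + i) = z' (j * n + i) := by
  have h1 := Nat.testBit_ofBits_lt (fun i : Fin n => z (j * n + i)) i hi
  have h2 := Nat.testBit_ofBits_lt (fun i : Fin n => z' (j * n + i)) i hi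
  unfold cf at h
  rw [h, h2] at h1
  exact h1.symm

open Polynomial in
/-- the polynomial -/
noncomputable def pl (d n : ℕ) (z : ℕ → Bool) : Polynomial ℤ :=
  ∑ j ∈ Finset.range (d + 1), Polynomial.C ((cf n z j : ℕ) : ℤ) * Polynomial.X ^ j

theorem pl_coeff (d n : ℕ) (z : ℕ → Bool) (j : ℕ) (hj : j < d + 1) :
    (pl d n z).coeff j = ((cf n z j : ℕ) : ℤ) := by
  unfold pl
  rw [Polynomial.finset_sum_coeff, Finset.sum_eq_single j]
  · rw [Polynomial.coeff_C_mul_X_pow, if_pos rfl]
  · intro i _ hij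
    rw [Polynomial.coeff_C_mul_X_pow, if_neg (Ne.symm hij)]
  · intro h
    exact absurd (Finset.mem_range.2 hj) h

theorem pl_deg (d n : ℕ) (z : ℕ → Bool) : (pl d n z).natDegree ≤ d := by
  unfold pl
  refine Polynomial.natDegree_sum_le_of_forall_le _ _ fun j hj => ?_
  refine (Polynomial.natDegree_C_mul_X_pow_le _ _).trans ?_
  have := Finset.mem_range.1 hj
  omega

theorem pl_bd (d n L : ℕ) (z : ℕ → Bool) (s : ℤ) (hs : |s| ≤ 2 ^ (L + 1)) :
    |(pl d n z).eval s| ≤ (d + 1) * 2 ^ n * 2 ^ ((L + 1) * d) := by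
  unfold pl
  rw [Polynomial.eval_finset_sum]
  refine (Finset.abs_sum_le_sum_abs _ _).trans ?_
  have h1 : ∀ j ∈ Finset.range (d + 1),
      |(Polynomial.C ((cf n z j : ℕ) : ℤ) * Polynomial.X ^ j).eval s| ≤
        2 ^ n * 2 ^ ((L + 1) * d) := by
    intro j hj
    have hj' : j ≤ d := by
      have := Finset.mem_range.1 hj
      omega
    rw [Polynomial.eval_mul, Polynomial.eval_C, Polynomial.eval_pow, Polynomial.eval_X, abs_mul,
      abs_pow]
    have h2 : |((cf n z j : ℕ) : ℤ)| ≤ 2 ^ n := by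
      rw [abs_of_nonneg (Int.natCast_nonneg _)]
      have h3 := (Nat.ofBits_lt_two_pow (fun i : Fin n => z (j * n + i))).le
      unfold cf
      exact_mod_cast h3
    have h4 : |s| ^ j ≤ 2 ^ ((L + 1) * d) := by
      calc |s| ^ j ≤ (2 ^ (L + 1)) ^ j := pow_le_pow_left₀ (abs_nonneg _) hs _
        _ = 2 ^ ((L + 1) * j) := (pow_mul _ _ _).symm
        _ ≤ 2 ^ ((L + 1) * d) :=
          pow_le_pow_right₀ (by norm_num) (Nat.mul_le_mul_left _ hj')
    exact mul_le_mul h2 h4 (by positivity) (by positivity)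
  refine (Finset.sum_le_sum h1).trans ?_
  rw [Finset.sum_const, Finset.card_range, nsmul_eq_mul]
  push_cast
  rw [mul_assoc]

end Blk

open Blk in
theorem exists_block (d g L : ℕ) (hL : 1 ≤ L) :
    ∃ B : Side d (2 ^ (L + 1)) ((d + 1) * 2 ^ (g * L) * 2 ^ ((L + 1) * d))
      (Fin ((d + 1) * g * L) → Bool),
      B.M = (d + 1) * g * L ∧ B.E = (d + 1) * g ∧ B.m = 1 := by
  refine ⟨{ M := (d + 1) * g * L
            bit := bitN
            bit_inj := bitN_inj
            bit_out := fun x q h => bitN_out x h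
            E := (d + 1) * g
            co := fun q => q / L
            co_lt := fun q hq => (Nat.div_lt_iff_lt_mul (by omega)).2 hq
            pt := fun c y => 2 * ((cv L (bitN y) c L : ℕ) : ℤ)
            nd := fun y q => ndv L (bitN y) q
            nd_pre := fun x y q h => ndv_pre L _ _ q h
            nd_bd := fun x q => ndv_bd L hL _ q
            btw := ?_
            m := 1
            pol := fun y i => if i = 0 then pl d (g * L) (bitN y) else 0
            pol_inj := ?_
            pol_out := ?_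
            pol_deg := ?_
            pol_bd := ?_ }, rfl, rfl, rfl⟩
  · intro x y q h hx hy
    have h1 := ndv_btw L hL (bitN x) (bitN y) q h hx hy
    exact h1
  · intro x y h
    have h0 : pl d (g * L) (bitN x) = pl d (g * L) (bitN y) := by
      have h1 := congrFun h 0
      simpa using h1
    apply bitN_inj
    funext q
    by_cases hq : q < (d + 1) * g * L
    · rw [mul_assoc] at hq
      have hpos : 0 < g * L := by
        rcases Nat.eq_zero_or_pos (g * L) with h2 | h2
        · rw [h2, mul_zero] at hq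
          omega
        · exact h2
      have hj : q / (g * L) < d + 1 := (Nat.div_lt_iff_lt_mul hpos).2 hq
      have hc : cf (g * L) (bitN x) (q / (g * L)) = cf (g * L) (bitN y) (q / (g * L)) := by
        have h2 := pl_coeff d (g * L) (bitN x) _ hj
        rw [h0, pl_coeff d (g * L) (bitN y) _ hj] at h2
        exact_mod_cast h2.symm
      have h3 := cf_inj _ _ _ _ hc (q % (g * L)) (Nat.mod_lt _ hpos)
      have h4 : q / (g * L) * (g * L) + q % (g * L) = q := by
        have h5 := Nat.div_add_mod q (g * L)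
        rw [mul_comm] at h5
        exact h5
      rw [h4] at h3
      exact h3
    · rw [bitN_out x (by omega), bitN_out y (by omega)]
  · intro x i hi
    show (if i = 0 then pl d (g * L) (bitN x) else 0) = 0
    rw [if_neg (by omega)]
  · intro x i
    show (if i = 0 then pl d (g * L) (bitN x) else 0).natDegree ≤ d
    split_ifs
    · exact pl_deg _ _ _
    · simp
  · intro x i s hs
    show |(if i = 0 then pl d (g * L) (bitN x) else 0).eval s| ≤ _
    split_ifs
    · exact pl_bd _ _ _ _ _ hs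
    · rw [Polynomial.eval_zero, abs_zero]
      positivity

end Pool.Agent.H14.SX
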