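import Mathlib
import Pool.Agent.H14.SX.Defs

/-!
# Counting patterns: basics

All easy.  `pat r S` determines `r x y` for `x, y ∈ S` and conversely; the set of patterns is a
subset of the power set of the finite set `S ×ˢ S`, hence finite.
* `le_cnt`: the patterns of `f i` are pairwise different elements of the set of patterns.
* `exists_of_le_cnt`: choose `m` elements of the set of patterns and representatives.
* `cnt_add`: the two sets of patterns are disjoint subsets.
* `two_pow_le_cnt`: from `le_cnt` with `ι = Fin m → Bool`.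
* `cnt_xf`: a relation `xf o (G i)` determines `o` on `A` (for `x ≠ x'` it is `o x x'`, because
  the second alternative needs `x = x'`; for `x = x'` both are false by irreflexivity) and the
  fibre pattern of `G i` (as `o x x` is false).
-/

set_option autoImplicit false

namespace Pool.Agent.H14.SX

open Finset

variable {X Y : Type}

lemma pat_eq_iff {r r' : Rel X} {S : Finset X} :
    pat r S = pat r' S ↔ ∀ x ∈ S, ∀ y ∈ S, (r x y ↔ r' x y) := by
  constructor
  · intro h x hx y hy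
    have h1 := Set.ext_iff.1 h (x, y)
    constructor
    · intro h2
      exact (h1.1 ⟨hx, hy, h2⟩).2.2
    · intro h2
      exact (h1.2 ⟨hx, hy, h2⟩).2.2
  · intro h
    ext ⟨x, y⟩
    constructor
    · rintro ⟨hx, hy, h2⟩
      exact ⟨hx, hy, (h x hx y hy).1 h2⟩
    · rintro ⟨hx, hy, h2⟩
      exact ⟨hx, hy, (h x hx y hy).2 h2⟩

lemma cnt_finite (O : Set (Rel X)) (S : Finset X) : ((fun r => pat r S) '' O).Finite := by
  classical
  refine (Set.Finite.powerset (S ×ˢ S).finite_toSet).subset ?_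
  rintro _ ⟨r, -, rfl⟩ ⟨x, y⟩ ⟨hx, hy, -⟩
  exact Finset.mem_coe.2 (Finset.mem_product.2 ⟨hx, hy⟩)

lemma le_cnt {ι : Type*} [Fintype ι] {O : Set (Rel X)} {S : Finset X} (f : ι → Rel X)
    (hf : ∀ i, f i ∈ O) (h : ∀ i j, (∀ x ∈ S, ∀ y ∈ S, (f i x y ↔ f j x y)) → i = j) :
    Fintype.card ι ≤ cnt O S := by
  have hinj : Function.Injective (fun i => pat (f i) S) := fun i j hij =>
    h i j (pat_eq_iff.1 hij)
  have h1 : (Set.range (fun i => pat (f i) S)).ncard = Fintype.card ι := by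
    rw [← Nat.card_coe_set_eq, Nat.card_range_of_injective hinj, Nat.card_eq_fintype_card]
  rw [← h1]
  refine Set.ncard_le_ncard ?_ (cnt_finite O S)
  rintro _ ⟨i, rfl⟩
  exact ⟨f i, hf i, rfl⟩

lemma exists_of_le_cnt {O : Set (Rel X)} {S : Finset X} {m : ℕ} (h : m ≤ cnt O S) :
    ∃ f : Fin m → Rel X, (∀ i, f i ∈ O) ∧
      ∀ i j, (∀ x ∈ S, ∀ y ∈ S, (f i x y ↔ f j x y)) → i = j := by
  classical
  haveI := (cnt_finite O S).fintype
  have h1 : Fintype.card (Fin m) ≤ Fintype.card ↥((fun r => pat r S) '' O) := by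
    rw [Fintype.card_fin, ← Nat.card_eq_fintype_card, Nat.card_coe_set_eq]
    exact h
  obtain ⟨e⟩ := Function.Embedding.nonempty_of_card_le h1
  have h2 : ∀ i, ∃ r ∈ O, pat r S = (e i).1 := fun i => (e i).2
  choose f hf hf2 using h2
  refine ⟨f, hf, fun i j hij => ?_⟩
  apply e.injective
  apply Subtype.ext
  rw [← hf2 i, ← hf2 j]
  exact pat_eq_iff.2 hij

lemma cnt_mono {O O' : Set (Rel X)} {S : Finset X} (h : O ⊆ O') : cnt O S ≤ cnt O' S := by
  exact Set.ncard_le_ncard (Set.image_mono h) (cnt_finite O' S)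

lemma cnt_mono_set {O : Set (Rel X)} {S S' : Finset X} (h : S ⊆ S') : cnt O S ≤ cnt O S' := by
  obtain ⟨f, hf, hf2⟩ := exists_of_le_cnt (le_refl (cnt O S))
  have h1 := le_cnt (S := S') f hf fun i j hij =>
    hf2 i j fun x hx y hy => hij x (h hx) y (h hy)
  rwa [Fintype.card_fin] at h1

lemma cnt_add {O1 O2 O : Set (Rel X)} {S : Finset X} (h1 : O1 ⊆ O) (h2 : O2 ⊆ O)
    (hd : ∀ r1 ∈ O1, ∀ r2 ∈ O2, ¬ ∀ x ∈ S, ∀ y ∈ S, (r1 x y ↔ r2 x y)) :
    cnt O1 S + cnt O2 S ≤ cnt O S := by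
  have hdis : Disjoint ((fun r => pat r S) '' O1) ((fun r => pat r S) '' O2) := by
    rw [Set.disjoint_left]
    rintro _ ⟨r1, hr1, rfl⟩ ⟨r2, hr2, he⟩
    exact hd r1 hr1 r2 hr2 (pat_eq_iff.1 he.symm)
  unfold cnt
  rw [← Set.ncard_union_eq hdis (cnt_finite O1 S) (cnt_finite O2 S)]
  exact Set.ncard_le_ncard (Set.union_subset (Set.image_mono h1) (Set.image_mono h2))
    (cnt_finite O S)

lemma two_pow_le_cnt {O : Set (Rel X)} {S : Finset X} {m : ℕ} (a b : Fin m → X)
    (ha : ∀ i, a i ∈ S) (hb : ∀ i, b i ∈ S)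
    (H : ∀ β : Fin m → Bool, ∃ r ∈ O, ∀ i, (r (a i) (b i) ↔ β i = true)) :
    2 ^ m ≤ cnt O S := by
  choose f hf hf2 using H
  have h1 := le_cnt (S := S) f hf fun β β' h => by
    funext i
    have h2 := h (a i) (ha i) (b i) (hb i)
    rw [hf2 β i, hf2 β' i] at h2
    exact Bool.eq_iff_iff.2 h2
  have h3 : Fintype.card (Fin m → Bool) = 2 ^ m := by simp
  rwa [h3] at h1

/-- Product lemma for `xf`. -/
lemma cnt_xf {ι : Type*} [Fintype ι] {O : Set (Rel X)} {O' : Set (Rel (X × Y))}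
    {S : Finset (X × Y)} {A : Finset X} (G : ι → X → Rel Y)
    (hirr : ∀ o ∈ O, ∀ x, ¬ o x x) (hO : ∀ o ∈ O, ∀ i, xf o (G i) ∈ O')
    (hA : ∀ x ∈ A, ∃ y, (x, y) ∈ S)
    (hG : ∀ i j, (∀ x y y', (x, y) ∈ S → (x, y') ∈ S → (G i x y y' ↔ G j x y y')) → i = j) :
    cnt O A * Fintype.card ι ≤ cnt O' S := by
  obtain ⟨f, hf, hf2⟩ := exists_of_le_cnt (le_refl (cnt O A))
  have h1 := le_cnt (S := S) (fun p : Fin (cnt O A) × ι => xf (f p.1) (G p.2))
    (fun p => hO _ (hf p.1) p.2) ?_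
  · rwa [Fintype.card_prod, Fintype.card_fin] at h1
  · rintro ⟨i, k⟩ ⟨j, l⟩ h
    have h2 : i = j := by
      refine hf2 i j fun x hx x' hx' => ?_
      obtain ⟨y, hy⟩ := hA x hx
      obtain ⟨y', hy'⟩ := hA x' hx'
      by_cases hxx : x = x'
      · subst hxx
        exact iff_of_false (hirr _ (hf i) x) (hirr _ (hf j) x)
      · have h3 := h (x, y) hy (x', y') hy'
        have h4 : ∀ (o : Rel X) (g : X → Rel Y), xf o g (x, y) (x', y') ↔ o x x' := by
          intro o g
          constructor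
          · rintro (h5 | ⟨h5, -⟩)
            · exact h5
            · exact absurd h5 hxx
          · exact Or.inl
        rwa [h4, h4] at h3
    have h3 : k = l := by
      refine hG k l fun x y y' hy hy' => ?_
      have h4 := h (x, y) hy (x, y') hy'
      have h5 : ∀ o ∈ O, ∀ g : X → Rel Y, (xf o g (x, y) (x, y') ↔ g x y y') := by
        intro o ho g
        constructor
        · rintro (h6 | ⟨-, h6⟩)
          · exact absurd h6 (hirr o ho x)
          · exact h6
        · exact fun h6 => Or.inr ⟨rfl, h6⟩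
      rwa [h5 _ (hf i), h5 _ (hf j)] at h4
    rw [h2, h3]

/-- a restriction along an injective map -/
lemma cnt_comap {O : Set (Rel X)} {O' : Set (Rel Y)} {S : Finset X} {S' : Finset Y} (φ : X → Y)
    (hS : ∀ x ∈ S, φ x ∈ S') (hO : ∀ o ∈ O, ∃ o' ∈ O', ∀ x ∈ S, ∀ y ∈ S, (o' (φ x) (φ y) ↔ o x y)) :
    cnt O S ≤ cnt O' S' := by
  obtain ⟨f, hf, hf2⟩ := exists_of_le_cnt (le_refl (cnt O S))
  choose g hg hg2 using hO
  have h1 := le_cnt (S := S') (fun i => g (f i) (hf i)) (fun i => hg _ _) fun i j hij => by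
    refine hf2 i j fun x hx y hy => ?_
    rw [← hg2 (f i) (hf i) x hx y hy, ← hg2 (f j) (hf j) x hx y hy]
    exact hij _ (hS x hx) _ (hS y hy)
  rwa [Fintype.card_fin] at h1

end Pool.Agent.H14.SX
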