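import Mathlib
import Pool.Agent.H14.SX.Defs

/-!
# All relations are strict total orders; evaluation of tree orders

`tr z φ` with `φ` determined by the prefix and `z` injective: `Dif z x y q` has a unique `q`
(the least difference).  Irreflexive: clear.  Total: if `x ≠ y` take the least `q` with
`z x q ≠ z y q`; exactly one of the two flipped bits is `false`.  Transitive: for `x < y` at `q`
and `y < w` at `q'`: if `q < q'` then `x, w` differ first at `q` and `z w q = z y q`; if `q > q'`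
similarly; `q = q'` is impossible (the flipped bit of `y` would be `true` and `false`).
-/

set_option autoImplicit false

namespace Pool.Agent.H14.SX

variable {d : ℕ} {H V : ℤ} {X Y : Type}

lemma Dif.symm {z : X → ℕ → Bool} {x y : X} {q : ℕ} (h : Dif z x y q) : Dif z y x q :=
  ⟨fun i hi => (h.1 i hi).symm, h.2.symm⟩

lemma Dif.unique {z : X → ℕ → Bool} {x y : X} {q q' : ℕ} (h : Dif z x y q) (h' : Dif z x y q') :
    q = q' := by
  rcases lt_trichotomy q q' with h1 | h1 | h1
  · exact absurd (h'.1 q h1) h.2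
  · exact h1
  · exact absurd (h.1 q' h1) h'.2

lemma exists_dif {z : X → ℕ → Bool} (hz : Function.Injective z) {x y : X} (h : x ≠ y) :
    ∃ q, Dif z x y q := by
  classical
  have h1 : ∃ q, z x q ≠ z y q := by
    by_contra hc
    push Not at hc
    exact h (hz (funext hc))
  refine ⟨Nat.find h1, fun i hi => ?_, Nat.find_spec h1⟩
  by_contra hc
  exact Nat.find_min h1 hi hc

lemma Side.dif_lt (A : Side d H V X) {x y : X} {q : ℕ} (h : Dif A.bit x y q) : q < A.M := by
  by_contra hc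
  exact h.2 (by rw [A.bit_out _ _ (not_lt.mp hc), A.bit_out _ _ (not_lt.mp hc)])

/-- the flip function only depends on the prefix -/
def Pre (z : X → ℕ → Bool) (φ : X → ℕ → Bool) : Prop :=
  ∀ x y q, (∀ i < q, z x i = z y i) → φ x q = φ y q

lemma tr_iff {z φ : X → ℕ → Bool} {x y : X} {q : ℕ} (h : Dif z x y q) :
    tr z φ x y ↔ xor (z x q) (φ x q) = false := by
  constructor
  · rintro ⟨q', h', h2⟩
    rw [h.unique h']
    exact h2
  · intro h2
    exact ⟨q, h, h2⟩

lemma tr_iff' {z φ : X → ℕ → Bool} (hφ : Pre z φ) {x y : X} {q : ℕ} (h : Dif z x y q) :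
    tr z φ y x ↔ xor (z x q) (φ x q) = true := by
  rw [tr_iff h.symm, ← hφ x y q h.1]
  have h2 := h.2
  cases h3 : z x q <;> cases h4 : z y q <;> cases h5 : φ x q <;> simp_all

lemma pre_lev (A : Side d H V X) (e : ℕ → Bool) : Pre A.bit (fun _ q => e q) :=
  fun _ _ _ _ => rfl

lemma pre_lab (A : Side d H V X) (P : Polynomial ℤ) (g : ℕ → ℤ → Bool) :
    Pre A.bit (fun x q => g q (P.eval (A.nd x q))) := by
  intro x y q h
  simp only [A.nd_pre x y q h]

lemma tr_sto {z φ : X → ℕ → Bool} (hz : Function.Injective z) (hφ : Pre z φ) : STO (tr z φ) := by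
  refine ⟨?_, ?_, ?_⟩
  · rintro x ⟨q, h, -⟩
    exact h.2 rfl
  · rintro x y w ⟨q, h1, h2⟩ ⟨q', h3, h4⟩
    rcases lt_trichotomy q q' with hq | hq | hq
    · refine ⟨q, ⟨fun i hi => (h1.1 i hi).trans (h3.1 i (hi.trans hq)), ?_⟩, h2⟩
      rw [← h3.1 q hq]
      exact h1.2
    · exfalso
      subst hq
      have e1 : φ x q = φ y q := hφ x y q h1.1
      have e2 := h1.2
      rw [e1] at h2
      revert h2 h4 e2
      cases z x q <;> cases z y q <;> cases φ y q <;> simp
    · refine ⟨q', ⟨fun i hi => (h1.1 i (hi.trans hq)).trans (h3.1 i hi), ?_⟩, ?_⟩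
      · rw [h1.1 q' hq]
        exact h3.2
      · rw [h1.1 q' hq, hφ x y q' (fun i hi => h1.1 i (hi.trans hq))]
        exact h4
  · intro x y hxy
    obtain ⟨q, hq⟩ := exists_dif hz hxy
    rw [tr_iff hq, tr_iff' hφ hq]
    cases xor (z x q) (φ x q) <;> simp

lemma sto_rev {r : Rel X} (h : STO r) : STO (fun x y => r y x) :=
  ⟨h.irr, fun x y z h1 h2 => h.trans z y x h2 h1, fun x y hxy => (h.tot x y hxy).symm⟩

lemma sto_lex {P : Type} {z : Y → ℕ → P} (hz : Function.Injective z) {R : Rel P} (hR : STO R) :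
    STO (fun y y' : Y => ∃ i, (∀ j < i, z y j = z y' j) ∧ z y i ≠ z y' i ∧ R (z y i) (z y' i)) := by
  classical
  refine ⟨?_, ?_, ?_⟩
  · rintro x ⟨q, -, h, -⟩
    exact h rfl
  · rintro x y w ⟨q, h1, h2, h3⟩ ⟨q', h4, h5, h6⟩
    rcases lt_trichotomy q q' with hq | hq | hq
    · refine ⟨q, fun i hi => (h1 i hi).trans (h4 i (hi.trans hq)), ?_, ?_⟩
      · rw [← h4 q hq]; exact h2
      · rw [← h4 q hq]; exact h3
    · subst hq
      have h7 := hR.trans _ _ _ h3 h6
      refine ⟨q, fun i hi => (h1 i hi).trans (h4 i hi), ?_, h7⟩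
      intro h8
      rw [h8] at h7
      exact hR.irr _ h7
    · refine ⟨q', fun i hi => (h1 i (hi.trans hq)).trans (h4 i hi), ?_, ?_⟩
      · rw [h1 q' hq]; exact h5
      · rw [h1 q' hq]; exact h6
  · intro x y hxy
    have h1 : ∃ q, z x q ≠ z y q := by
      by_contra hc
      push Not at hc
      exact hxy (hz (funext hc))
    have h2 := Nat.find_spec h1
    have h3 : ∀ j < Nat.find h1, z x j = z y j := fun j hj => by
      by_contra hc
      exact Nat.find_min h1 hj hc
    rcases hR.tot _ _ h2 with h4 | h4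
    · exact Or.inl ⟨_, h3, h2, h4⟩
    · exact Or.inr ⟨_, fun j hj => (h3 j hj).symm, h2.symm, h4⟩

lemma lev_sto (A : Side d H V X) (e : ℕ → Bool) : STO (lev A e) :=
  tr_sto A.bit_inj (pre_lev A e)

lemma lab_sto (A : Side d H V X) (P : Polynomial ℤ) (g : ℕ → ℤ → Bool) : STO (lab A P g) :=
  tr_sto A.bit_inj (pre_lab A P g)

lemma pcmp_sto (s : ℤ) (r : ℕ) (t : Bool) : STO (pcmp s r t) := by
  refine ⟨?_, ?_, ?_⟩
  · rintro p (h | ⟨-, h⟩)
    · exact lt_irrefl _ h
    · cases t
      · simp at h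
      · simp at h
  · rintro p p' p'' (h | ⟨h, h2⟩) (h' | ⟨h', h2'⟩)
    · exact Or.inl (h.trans h')
    · exact Or.inl (h'.symm ▸ h)
    · exact Or.inl (h.symm ▸ h')
    · refine Or.inr ⟨h.trans h', ?_⟩
      cases t
      · simp only [Bool.false_eq_true, if_false] at h2 h2' ⊢
        exact h2'.trans h2
      · simp only [if_true] at h2 h2' ⊢
        exact h2.trans h2'
  · intro p p' hp
    have hc : code p ≠ code p' := fun h => hp (code_inj h)
    unfold pcmp
    rcases lt_trichotomy ((Polynomial.derivative^[r] p).eval s)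
      ((Polynomial.derivative^[r] p').eval s) with h | h | h
    · exact Or.inl (Or.inl h)
    · rcases lt_or_gt_of_ne hc with h2 | h2
      · cases t
        · exact Or.inr (Or.inr ⟨h.symm, by simpa using h2⟩)
        · exact Or.inl (Or.inr ⟨h, by simpa using h2⟩)
      · cases t
        · exact Or.inl (Or.inr ⟨h, by simpa using h2⟩)
        · exact Or.inr (Or.inr ⟨h.symm, by simpa using h2⟩)
    · exact Or.inr (Or.inl h)

lemma po_sto (B : Side d H V Y) (s : ℤ) (r : ℕ) (t σ : Bool) : STO (po B s r t σ) := by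
  have hR : STO (fun p p' => if σ then pcmp s r t p p' else pcmp s r t p' p) := by
    cases σ
    · simpa using sto_rev (pcmp_sto s r t)
    · simpa using pcmp_sto s r t
  exact sto_lex B.pol_inj hR

lemma rk_sto (B : Side d H V Y) (f : Y → Fin 8) : STO (rk B f) := by
  have h0 := lev_sto B (fun _ => false)
  refine ⟨?_, ?_, ?_⟩
  · rintro x (h | ⟨-, h⟩)
    · exact lt_irrefl _ h
    · exact h0.irr _ h
  · rintro x y w (h | ⟨h, h2⟩) (h' | ⟨h', h2'⟩)
    · exact Or.inl (h.trans h')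
    · exact Or.inl (h' ▸ h)
    · exact Or.inl (h.symm ▸ h')
    · exact Or.inr ⟨h.trans h', h0.trans _ _ _ h2 h2'⟩
  · intro x y hxy
    unfold rk
    rcases lt_trichotomy (f x) (f y) with h | h | h
    · exact Or.inl (Or.inl h)
    · rcases h0.tot _ _ hxy with h2 | h2
      · exact Or.inl (Or.inr ⟨h, h2⟩)
      · exact Or.inr (Or.inr ⟨h.symm, h2⟩)
    · exact Or.inr (Or.inl h)

lemma xf_sto {r : Rel X} {s : X → Rel Y} (hr : STO r) (hs : ∀ x, STO (s x)) : STO (xf r s) := by
  refine ⟨?_, ?_, ?_⟩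
  · rintro ⟨x, y⟩ (h | ⟨-, h⟩)
    · exact hr.irr _ h
    · exact (hs _).irr _ h
  · rintro ⟨x, y⟩ ⟨x', y'⟩ ⟨x'', y''⟩ (h | ⟨h, h2⟩) (h' | ⟨h', h2'⟩)
    · exact Or.inl (hr.trans _ _ _ h h')
    · simp only at h h' h2'
      subst h'
      exact Or.inl h
    · simp only at h h' h2
      subst h
      exact Or.inl h'
    · simp only at h h' h2 h2'
      subst h
      subst h'
      exact Or.inr ⟨rfl, (hs _).trans _ _ _ h2 h2'⟩
  · rintro ⟨x, y⟩ ⟨x', y'⟩ hxy
    by_cases hx : x = x'
    · subst hx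
      have hy : y ≠ y' := fun h => hxy (by rw [h])
      rcases (hs x).tot _ _ hy with h | h
      · exact Or.inl (Or.inr ⟨rfl, h⟩)
      · exact Or.inr (Or.inr ⟨rfl, h⟩)
    · rcases hr.tot _ _ hx with h | h
      · exact Or.inl (Or.inl h)
      · exact Or.inr (Or.inl h)

lemma yf_sto {s : Rel Y} {r : Y → Rel X} (hs : STO s) (hr : ∀ y, STO (r y)) : STO (yf s r) := by
  have h := xf_sto hs hr
  exact ⟨fun x => h.irr x.swap, fun x y z => h.trans x.swap y.swap z.swap, fun x y hxy =>
    h.tot x.swap y.swap (fun h => hxy (Prod.swap_injective h))⟩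

lemma sw_sto {r : Rel (Y × X)} (hr : STO r) : STO (sw r) :=
  ⟨fun x => hr.irr _, fun x y z => hr.trans _ _ _, fun x y hxy =>
    hr.tot _ _ (fun h => hxy (Prod.swap_injective h))⟩

lemma DD_sto (A : Side d H V X) (B : Side d H V Y) : ∀ ρ ∈ DD A B, STO ρ := by
  rintro ρ (⟨i, -, e, g, rfl⟩ | ⟨c, -, r, -, t, e, σ, rfl⟩ | ⟨e, e', rfl⟩)
  · exact yf_sto (lev_sto B e) (fun y => lab_sto A _ g)
  · exact xf_sto (lev_sto A e) (fun x => po_sto B _ r t σ)
  · exact xf_sto (lev_sto A e) (fun _ => lev_sto B e')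

/-- the level orders of a product -/
lemma lev_prod (A : Side d H V X) (B : Side d H V Y) (e : ℕ → Bool) :
    lev (A.prod B) e = xf (lev A e) (fun _ => lev B (fun q => e (q + A.M))) := by
  have hlo : ∀ (x : X × Y) (q : ℕ), q < A.M → (A.prod B).bit x q = A.bit x.1 q :=
    fun x q hq => if_pos hq
  have hhi : ∀ (x : X × Y) (q : ℕ), (A.prod B).bit x (q + A.M) = B.bit x.2 q := by
    intro x q
    have h : ¬ (q + A.M < A.M) := by omega
    change (if q + A.M < A.M then A.bit x.1 (q + A.M) else B.bit x.2 (q + A.M - A.M)) = _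
    rw [if_neg h, Nat.add_sub_cancel]
  funext a b
  apply propext
  constructor
  · rintro ⟨q, ⟨h1, h2⟩, h3⟩
    by_cases hq : q < A.M
    · left
      rw [hlo a q hq, hlo b q hq] at h2
      rw [hlo a q hq] at h3
      refine ⟨q, ⟨fun i hi => ?_, h2⟩, h3⟩
      have := h1 i hi
      rwa [hlo a i (hi.trans hq), hlo b i (hi.trans hq)] at this
    · right
      obtain ⟨q', rfl⟩ : ∃ q', q = q' + A.M := ⟨q - A.M, by omega⟩
      have hab : a.1 = b.1 := by
        apply A.bit_inj
        funext i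
        by_cases hi : i < A.M
        · have := h1 i (by omega)
          rwa [hlo a i hi, hlo b i hi] at this
        · rw [A.bit_out _ _ (not_lt.mp hi), A.bit_out _ _ (not_lt.mp hi)]
      refine ⟨hab, q', ⟨fun i hi => ?_, ?_⟩, ?_⟩
      · have := h1 (i + A.M) (by omega)
        rwa [hhi, hhi] at this
      · rwa [hhi, hhi] at h2
      · rwa [hhi] at h3
  · rintro (⟨q, h, h3⟩ | ⟨hab, q, h, h3⟩)
    · have hq : q < A.M := A.dif_lt h
      refine ⟨q, ⟨fun i hi => ?_, ?_⟩, ?_⟩
      · rw [hlo a i (hi.trans hq), hlo b i (hi.trans hq)]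
        exact h.1 i hi
      · rw [hlo a q hq, hlo b q hq]
        exact h.2
      · rw [hlo a q hq]
        exact h3
    · refine ⟨q + A.M, ⟨fun i hi => ?_, ?_⟩, ?_⟩
      · by_cases hi2 : i < A.M
        · rw [hlo a i hi2, hlo b i hi2, hab]
        · obtain ⟨i', rfl⟩ : ∃ i', i = i' + A.M := ⟨i - A.M, by omega⟩
          rw [hhi, hhi]
          exact h.1 i' (by omega)
      · rw [hhi, hhi]
        exact h.2
      · rw [hhi]
        exact h3

/-- with level signs both orders of a pair occur; evaluation -/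
lemma lev_iff (A : Side d H V X) (e : ℕ → Bool) {x y : X} {q : ℕ} (h : Dif A.bit x y q) :
    lev A e x y ↔ xor (A.bit x q) (e q) = false := tr_iff h

lemma lab_iff (A : Side d H V X) (P : Polynomial ℤ) (g : ℕ → ℤ → Bool) {x y : X} {q : ℕ}
    (h : Dif A.bit x y q) :
    lab A P g x y ↔ xor (A.bit x q) (g q (P.eval (A.nd x q))) = false := tr_iff h

/-- three different points: the tree is `x | y z` (after renaming) with two different levels -/
lemma exists_three {z : X → ℕ → Bool} (hz : Function.Injective z) {a b c : X} (hab : a ≠ b)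
    (hac : a ≠ c) (hbc : b ≠ c) :
    ∃ q q', q < q' ∧
      ((Dif z a b q ∧ Dif z a c q ∧ Dif z b c q') ∨ (Dif z b a q ∧ Dif z b c q ∧ Dif z a c q') ∨
        (Dif z c a q ∧ Dif z c b q ∧ Dif z a b q')) := by
  obtain ⟨q1, h1⟩ := exists_dif hz hab
  obtain ⟨q2, h2⟩ := exists_dif hz hac
  obtain ⟨q3, h3⟩ := exists_dif hz hbc
  rcases lt_trichotomy q1 q2 with hq | hq | hq
  · refine ⟨q1, q2, hq, Or.inr (Or.inl ⟨h1.symm, ⟨fun i hi => ?_, ?_⟩, h2⟩)⟩
    · rw [← h1.1 i hi, h2.1 i (hi.trans hq)]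
    · rw [← h2.1 q1 hq]
      exact h1.2.symm
  · subst hq
    have h4 : z b q1 = z c q1 := by
      have e1 := h1.2
      have e2 := h2.2
      revert e1 e2
      cases z a q1 <;> cases z b q1 <;> cases z c q1 <;> simp
    have h5 : ∀ i < q1, z b i = z c i := fun i hi => by rw [← h1.1 i hi, h2.1 i hi]
    have h6 : q1 < q3 := by
      rcases lt_trichotomy q1 q3 with h | h | h
      · exact h
      · subst h
        exact absurd h4 h3.2
      · exact absurd (h5 q3 h) h3.2
    exact ⟨q1, q3, h6, Or.inl ⟨h1, h2, h3⟩⟩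
  · refine ⟨q2, q1, hq, Or.inr (Or.inr ⟨h2.symm, ⟨fun i hi => ?_, ?_⟩, h1⟩)⟩
    · rw [← h2.1 i hi, h1.1 i (hi.trans hq)]
    · rw [← h1.1 q2 hq]
      exact h2.2.symm

end Pool.Agent.H14.SX
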