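import Mathlib
import Pool.Agent.H14.SX.Defs
import Pool.Agent.H14.SX.Cnt
import Pool.Agent.H14.SX.Sto

/-!
# Rank orders: how many joint patterns in the fibres

* `exists_rk`: let `f y` = number of `y'` in `C` with `g y' < g y` (less than `8`).
* `exists_fresh`: induction on `m`; the new point `b_m` gets a value larger (or smaller) than all
  values used so far on the finitely many other points.
* `cnt_RdS`: `cnt_xf` with `G i = fun _ => rk B (f i)`, `f i` from `exists_rk`.
* `cnt_RdS_fresh`: `ι = Fin m → Bool`.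
* `cnt_RdS_tri`: the three comparisons of `a, b, c` are visible in fibres: all 6 orders.
* `cnt_RdS_kite`: the five comparisons `ab, ac, bc, db, dc` are visible: among the 24 orders of
  `a, b, c, d` there are 18 with different quintuples; take an explicit list of 16 of them
  (`decide`).
-/

set_option autoImplicit false

namespace Pool.Agent.H14.SX

open Finset

variable {d : ℕ} {H V : ℤ} {X Y : Type}

lemma exists_rk (B : Side d H V Y) (C : Finset Y) (hC : C.card ≤ 8) (g : Y → ℤ)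
    (hg : Set.InjOn g C) :
    ∃ f : Y → Fin 8, ∀ y ∈ C, ∀ y' ∈ C, (rk B f y y' ↔ g y < g y') := by
  classical
  have hlt : ∀ y ∈ C, (C.filter (fun y' => g y' < g y)).card < 8 := by
    intro y hy
    have h1 : C.filter (fun y' => g y' < g y) ⊂ C := by
      rw [Finset.ssubset_iff_of_subset (Finset.filter_subset _ _)]
      exact ⟨y, hy, by simp⟩
    exact lt_of_lt_of_le (Finset.card_lt_card h1) hC
  have hmono : ∀ y ∈ C, ∀ y' ∈ C, g y < g y' →
      (C.filter (fun w => g w < g y)).card < (C.filter (fun w => g w < g y')).card := by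
    intro y hy y' _ h
    apply Finset.card_lt_card
    rw [Finset.ssubset_iff_of_subset]
    · exact ⟨y, by simp [hy, h], by simp⟩
    · intro w hw
      rw [Finset.mem_filter] at hw ⊢
      exact ⟨hw.1, hw.2.trans h⟩
  refine ⟨fun y => if h : y ∈ C then ⟨_, hlt y h⟩ else 0, fun y hy y' hy' => ?_⟩
  unfold rk
  beta_reduce
  rw [dif_pos hy, dif_pos hy']
  simp only [Fin.mk_lt_mk, Fin.mk.injEq]
  rcases lt_trichotomy (g y) (g y') with h | h | h
  · exact ⟨fun _ => h, fun _ => Or.inl (hmono y hy y' hy' h)⟩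
  · have e : y = y' := hg hy hy' h
    subst e
    constructor
    · rintro (h1 | h1)
      · exact absurd h1 (lt_irrefl _)
      · exact absurd h1.2 ((lev_sto B _).irr y)
    · intro h1
      exact absurd h1 (lt_irrefl _)
  · have h2 := hmono y' hy' y hy h
    constructor
    · rintro (h1 | h1)
      · exact absurd h1 (lt_asymm h2)
      · exact absurd h1.1 (ne_of_gt h2)
    · intro h1
      exact absurd h1 (lt_asymm h)

lemma exists_fresh {m : ℕ} (a b : Fin m → Y) (C : Finset Y) (hab : ∀ i, a i ≠ b i)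
    (hfresh : ∀ i, ∀ j < i, b i ≠ a j ∧ b i ≠ b j) (β : Fin m → Bool) :
    ∃ g : Y → ℤ, Set.InjOn g C ∧ ∀ i, (g (a i) < g (b i) ↔ β i = true) := by
  classical
  induction m generalizing C with
  | zero =>
    obtain ⟨f, hf⟩ := Set.countable_iff_exists_injOn.1 (C.finite_toSet.countable)
    refine ⟨fun y => (f y : ℤ), fun x hx y hy h => hf hx hy ?_, fun i => i.elim0⟩
    have h' : (f x : ℤ) = (f y : ℤ) := h
    exact_mod_cast h'
  | succ m ih =>
    obtain ⟨g, hg, hc⟩ := ih (fun i => a i.castSucc) (fun i => b i.castSucc) C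
      (fun i => hab _) (fun i j hj => hfresh _ _ (by simpa using hj)) (fun i => β i.castSucc)
    set D : Finset Y := insert (a (Fin.last m)) C with hD
    obtain ⟨K, hK⟩ : ∃ K : ℤ, ∀ y ∈ D, |g y| < K := by
      refine ⟨∑ y ∈ D, |g y| + 1, fun y hy => ?_⟩
      have : |g y| ≤ ∑ y ∈ D, |g y| :=
        Finset.single_le_sum (f := fun y => |g y|) (fun y _ => abs_nonneg (g y)) hy
      omega
    refine ⟨Function.update g (b (Fin.last m)) (if β (Fin.last m) then K else -K), ?_, ?_⟩
    · intro x hx y hy h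
      have hx' : |g x| < K := hK x (Finset.mem_insert_of_mem hx)
      have hy' : |g y| < K := hK y (Finset.mem_insert_of_mem hy)
      rw [abs_lt] at hx' hy'
      by_cases h1 : x = b (Fin.last m) <;> by_cases h2 : y = b (Fin.last m)
      · rw [h1, h2]
      · exfalso
        rw [h1, Function.update_self, Function.update_of_ne h2] at h
        split_ifs at h <;> omega
      · exfalso
        rw [h2, Function.update_self, Function.update_of_ne h1] at h
        split_ifs at h <;> omega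
      · rw [Function.update_of_ne h1, Function.update_of_ne h2] at h
        exact hg hx hy h
    · intro i
      induction i using Fin.lastCases with
      | last =>
        rw [Function.update_self, Function.update_of_ne (hab _)]
        have h1 := hK _ (Finset.mem_insert_self (a (Fin.last m)) C)
        rw [abs_lt] at h1
        cases h2 : β (Fin.last m)
        · simp only [Bool.false_eq_true, if_false, iff_false, not_lt]
          omega
        · simp only [if_true, iff_true]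
          omega
      | cast i =>
        have h1 := hfresh (Fin.last m) i.castSucc (Fin.castSucc_lt_last i)
        rw [Function.update_of_ne h1.1.symm, Function.update_of_ne h1.2.symm]
        exact hc i

lemma cnt_RdS {ι : Type*} [Fintype ι] (B : Side d H V Y) {Rd : Set (Rel X)}
    (hirr : ∀ r ∈ Rd, ∀ x, ¬ r x x) {S : Finset (X × Y)} {A : Finset X}
    (hA : ∀ x ∈ A, ∃ y, (x, y) ∈ S) (C : Finset Y) (hC : C.card ≤ 8) (g : ι → Y → ℤ)
    (hg : ∀ i, Set.InjOn (g i) C)
    (hd : ∀ i j, (∀ x y y', (x, y) ∈ S → (x, y') ∈ S → y ∈ C → y' ∈ C →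
      (g i y < g i y' ↔ g j y < g j y')) → i = j) :
    cnt Rd A * Fintype.card ι ≤ cnt (RdS B Rd) S := by
  choose f hf using fun i => exists_rk B C hC (g i) (hg i)
  refine cnt_xf (fun i _ => rk B (f i)) hirr (fun o ho i => ⟨o, ho, f i, rfl⟩) hA ?_
  intro i j h
  refine hd i j fun x y y' h1 h2 hy hy' => ?_
  rw [← hf i y hy y' hy', ← hf j y hy y' hy']
  exact h x y y' h1 h2

lemma cnt_RdS_fresh {m : ℕ} (B : Side d H V Y) {Rd : Set (Rel X)}
    (hirr : ∀ r ∈ Rd, ∀ x, ¬ r x x) {S : Finset (X × Y)} {A : Finset X}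
    (hA : ∀ x ∈ A, ∃ y, (x, y) ∈ S) (C : Finset Y) (hC : C.card ≤ 8) (x : Fin m → X)
    (a b : Fin m → Y) (hS : ∀ i, (x i, a i) ∈ S ∧ (x i, b i) ∈ S)
    (hC' : ∀ i, a i ∈ C ∧ b i ∈ C) (hab : ∀ i, a i ≠ b i)
    (hfresh : ∀ i, ∀ j < i, b i ≠ a j ∧ b i ≠ b j) :
    cnt Rd A * 2 ^ m ≤ cnt (RdS B Rd) S := by
  choose g hg hc using fun β : Fin m → Bool => exists_fresh a b C hab hfresh β
  have h1 : Fintype.card (Fin m → Bool) = 2 ^ m := by simp
  rw [← h1]
  refine cnt_RdS B hirr hA C hC g hg fun β β' h => ?_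
  funext i
  have h2 := h (x i) (a i) (b i) (hS i).1 (hS i).2 (hC' i).1 (hC' i).2
  rw [hc β i, hc β' i] at h2
  exact Bool.eq_iff_iff.2 h2

/-- the comparison of `y` and `y'` is visible in some fibre of `S` -/
def Vis (S : Finset (X × Y)) (y y' : Y) : Prop := ∃ x, (x, y) ∈ S ∧ (x, y') ∈ S

lemma Vis.cmp {ι : Type*} {S : Finset (X × Y)} {C : Finset Y} {g : ι → Y → ℤ} {i j : ι}
    (h : ∀ x y y', (x, y) ∈ S → (x, y') ∈ S → y ∈ C → y' ∈ C →
      (g i y < g i y' ↔ g j y < g j y')) {y y' : Y} (hv : Vis S y y') (hy : y ∈ C) (hy' : y' ∈ C) :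
    (g i y < g i y' ↔ g j y < g j y') := by
  obtain ⟨x, h1, h2⟩ := hv
  exact h x y y' h1 h2 hy hy'

/-- the values of the first table -/
def tab3 : Fin 6 → Fin 3 → ℕ :=
  ![![0, 1, 2], ![0, 2, 1], ![1, 0, 2], ![1, 2, 0], ![2, 0, 1], ![2, 1, 0]]

/-- the values of the second table -/
def tab4 : Fin 16 → Fin 4 → ℕ :=
  ![![0, 1, 2, 3], ![0, 1, 3, 2], ![0, 2, 1, 3], ![0, 2, 3, 1], ![0, 3, 1, 2], ![0, 3, 2, 1],
    ![1, 0, 2, 3], ![1, 0, 3, 2], ![1, 2, 0, 3], ![1, 3, 0, 2], ![2, 0, 1, 3], ![2, 1, 0, 3],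
    ![2, 1, 3, 0], ![2, 3, 1, 0], ![3, 0, 2, 1], ![3, 1, 2, 0]]

lemma tab3_inj : ∀ i, Function.Injective (tab3 i) := by decide

lemma tab4_inj : ∀ i, Function.Injective (tab4 i) := by decide

lemma tab3_sep : ∀ i j, (tab3 i 0 < tab3 i 1 ↔ tab3 j 0 < tab3 j 1) →
    (tab3 i 0 < tab3 i 2 ↔ tab3 j 0 < tab3 j 2) → (tab3 i 1 < tab3 i 2 ↔ tab3 j 1 < tab3 j 2) →
    i = j := by decide

set_option maxRecDepth 100000 in
lemma tab4_sep : ∀ i j, (tab4 i 0 < tab4 i 1 ↔ tab4 j 0 < tab4 j 1) →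
    (tab4 i 0 < tab4 i 2 ↔ tab4 j 0 < tab4 j 2) → (tab4 i 1 < tab4 i 2 ↔ tab4 j 1 < tab4 j 2) →
    (tab4 i 3 < tab4 i 1 ↔ tab4 j 3 < tab4 j 1) → (tab4 i 3 < tab4 i 2 ↔ tab4 j 3 < tab4 j 2) →
    i = j := by decide

lemma cnt_RdS_tri (B : Side d H V Y) {Rd : Set (Rel X)} (hirr : ∀ r ∈ Rd, ∀ x, ¬ r x x)
    {S : Finset (X × Y)} {A : Finset X} (hA : ∀ x ∈ A, ∃ y, (x, y) ∈ S) {a b c : Y}
    (hab : a ≠ b) (hac : a ≠ c) (hbc : b ≠ c) (v1 : Vis S a b) (v2 : Vis S a c)
    (v3 : Vis S b c) :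
    cnt Rd A * 6 ≤ cnt (RdS B Rd) S := by
  classical
  have h1 : Fintype.card (Fin 6) = 6 := by simp
  rw [← h1]
  set g : Fin 6 → Y → ℤ := fun i y =>
    if y = a then (tab3 i 0 : ℤ) else if y = b then (tab3 i 1 : ℤ) else (tab3 i 2 : ℤ) with hg
  have ga : ∀ i, g i a = tab3 i 0 := fun i => by simp [hg]
  have gb : ∀ i, g i b = tab3 i 1 := fun i => by simp [hg, hab.symm]
  have gc : ∀ i, g i c = tab3 i 2 := fun i => by simp [hg, hac.symm, hbc.symm]
  have hinj : ∀ i, Set.InjOn (g i) ({a, b, c} : Finset Y) := by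
    intro i x hx y hy h
    have h01 : tab3 i 0 ≠ tab3 i 1 := fun h => absurd (tab3_inj i h) (by decide)
    have h02 : tab3 i 0 ≠ tab3 i 2 := fun h => absurd (tab3_inj i h) (by decide)
    have h12 : tab3 i 1 ≠ tab3 i 2 := fun h => absurd (tab3_inj i h) (by decide)
    simp only [Finset.coe_insert, Finset.coe_singleton, Set.mem_insert_iff,
      Set.mem_singleton_iff] at hx hy
    rcases hx with rfl | rfl | rfl <;> rcases hy with rfl | rfl | rfl <;>
      first
        | rfl
        | (exfalso; simp only [ga, gb, gc] at h; omega)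
  refine cnt_RdS B hirr hA {a, b, c} (Finset.card_le_three.trans (by norm_num)) g hinj ?_
  intro i j h
  have k1 := Vis.cmp h v1 (by simp) (by simp)
  have k2 := Vis.cmp h v2 (by simp) (by simp)
  have k3 := Vis.cmp h v3 (by simp) (by simp)
  simp only [ga, gb, gc, Nat.cast_lt] at k1 k2 k3
  exact tab3_sep i j k1 k2 k3

lemma cnt_RdS_kite (B : Side d H V Y) {Rd : Set (Rel X)} (hirr : ∀ r ∈ Rd, ∀ x, ¬ r x x)
    {S : Finset (X × Y)} {A : Finset X} (hA : ∀ x ∈ A, ∃ y, (x, y) ∈ S) {a b c e : Y}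
    (hab : a ≠ b) (hac : a ≠ c) (hbc : b ≠ c) (hae : a ≠ e) (hbe : b ≠ e) (hce : c ≠ e)
    (v1 : Vis S a b) (v2 : Vis S a c) (v3 : Vis S b c) (v4 : Vis S e b) (v5 : Vis S e c) :
    cnt Rd A * 16 ≤ cnt (RdS B Rd) S := by
  classical
  have h1 : Fintype.card (Fin 16) = 16 := by simp
  rw [← h1]
  set g : Fin 16 → Y → ℤ := fun i y =>
    if y = a then (tab4 i 0 : ℤ) else if y = b then (tab4 i 1 : ℤ) else
      if y = c then (tab4 i 2 : ℤ) else (tab4 i 3 : ℤ) with hg
  have ga : ∀ i, g i a = tab4 i 0 := fun i => by simp [hg]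
  have gb : ∀ i, g i b = tab4 i 1 := fun i => by simp [hg, hab.symm]
  have gc : ∀ i, g i c = tab4 i 2 := fun i => by simp [hg, hac.symm, hbc.symm]
  have ge : ∀ i, g i e = tab4 i 3 := fun i => by simp [hg, hae.symm, hbe.symm, hce.symm]
  have hinj : ∀ i, Set.InjOn (g i) ({a, b, c, e} : Finset Y) := by
    intro i x hx y hy h
    have h01 : tab4 i 0 ≠ tab4 i 1 := fun h => absurd (tab4_inj i h) (by decide)
    have h02 : tab4 i 0 ≠ tab4 i 2 := fun h => absurd (tab4_inj i h) (by decide)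
    have h03 : tab4 i 0 ≠ tab4 i 3 := fun h => absurd (tab4_inj i h) (by decide)
    have h12 : tab4 i 1 ≠ tab4 i 2 := fun h => absurd (tab4_inj i h) (by decide)
    have h13 : tab4 i 1 ≠ tab4 i 3 := fun h => absurd (tab4_inj i h) (by decide)
    have h23 : tab4 i 2 ≠ tab4 i 3 := fun h => absurd (tab4_inj i h) (by decide)
    simp only [Finset.coe_insert, Finset.coe_singleton, Set.mem_insert_iff,
      Set.mem_singleton_iff] at hx hy
    rcases hx with rfl | rfl | rfl | rfl <;> rcases hy with rfl | rfl | rfl | rfl <;>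
      first
        | rfl
        | (exfalso; simp only [ga, gb, gc, ge] at h; omega)
  refine cnt_RdS B hirr hA {a, b, c, e} (Finset.card_le_four.trans (by norm_num)) g hinj ?_
  intro i j h
  have k1 := Vis.cmp h v1 (by simp) (by simp)
  have k2 := Vis.cmp h v2 (by simp) (by simp)
  have k3 := Vis.cmp h v3 (by simp) (by simp)
  have k4 := Vis.cmp h v4 (by simp) (by simp)
  have k5 := Vis.cmp h v5 (by simp) (by simp)
  simp only [ga, gb, gc, ge, Nat.cast_lt] at k1 k2 k3 k4 k5
  exact tab4_sep i j k1 k2 k3 k4 k5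

end Pool.Agent.H14.SX
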