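import Mathlib
import Pool.Agent.H14.SX.Defs
import Pool.Agent.H14.SX.Sto

/-!
# Schemes: orders parametrised by sign functions on a finite set of keys
-/

set_option autoImplicit false

namespace Pool.Agent.H14.SX

open Finset

variable {d : ℕ} {H V : ℤ} {X Y : Type}

/-- `O` is contained in a family of orders parametrised by the sign functions on a set of at
most `N` keys, every comparison using at most six keys -/
def IsSch (O : Set (Rel X)) (N : ℕ) : Prop :=
  ∃ (K : Type) (_ : Fintype K) (ord : (K → Bool) → Rel X), Fintype.card K ≤ N ∧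
    (∀ F, STO (ord F)) ∧
    (∀ x y, ∃ k : Finset K, k.card ≤ 6 ∧
      ∀ F F' : K → Bool, (∀ i ∈ k, F i = F' i) → (ord F x y ↔ ord F' x y)) ∧
    O ⊆ Set.range ord

lemma IsSch.mono {O O' : Set (Rel X)} {N N' : ℕ} (h : IsSch O N) (hO : O' ⊆ O) (hN : N ≤ N') :
    IsSch O' N' := by
  obtain ⟨K, i, ord, h1, h2, h3, h4⟩ := h
  exact ⟨K, i, ord, h1.trans hN, h2, h3, hO.trans h4⟩

lemma STO.xf_iff {r : Rel X} (hr : STO r) {s : X → Rel Y} (x x' : X) (y y' : Y) :
    xf r s (x, y) (x', y') ↔ (x ≠ x' ∧ r x x') ∨ (x = x' ∧ s x y y') := by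
  unfold xf
  constructor
  · rintro (h | h)
    · left
      refine ⟨?_, h⟩
      intro he
      simp only at h
      rw [he] at h
      exact hr.irr _ h
    · exact Or.inr h
  · rintro (h | h)
    · exact Or.inl h.2
    · exact Or.inr h

/-- general product of schemes: first `r`, then a fibre order -/
lemma IsSch.xf {O : Set (Rel X)} {N : ℕ} (h : IsSch O N) {Q : Set (Rel Y)} {N' : ℕ}
    (hQ : IsSch Q N') :
    IsSch {ρ : Rel (X × Y) | ∃ o ∈ O, ∃ s ∈ Q, ρ = SX.xf o (fun _ => s)} (N + N') := by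
  classical
  obtain ⟨K, i, ord, h1, h2, h3, h4⟩ := h
  obtain ⟨K', i', ord', h1', h2', h3', h4'⟩ := hQ
  refine ⟨K ⊕ K', inferInstance, fun F => SX.xf (ord (fun k => F (Sum.inl k)))
    (fun _ => ord' (fun k => F (Sum.inr k))), ?_, ?_, ?_, ?_⟩
  · rw [Fintype.card_sum]
    exact Nat.add_le_add h1 h1'
  · intro F
    exact xf_sto (h2 _) (fun _ => h2' _)
  · rintro ⟨x, y⟩ ⟨x', y'⟩
    by_cases hx : x = x'
    · obtain ⟨k, hk, hk2⟩ := h3' y y'
      refine ⟨k.map ⟨Sum.inr, Sum.inr_injective⟩, by simpa using hk, ?_⟩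
      intro F F' hF
      beta_reduce
      rw [(h2 _).xf_iff, (h2 _).xf_iff]
      have h5 := hk2 (fun k => F (Sum.inr k)) (fun k => F' (Sum.inr k))
        (fun i hi => hF _ (Finset.mem_map_of_mem _ hi))
      simp only [hx, ne_eq, not_true_eq_false, false_and, true_and, false_or]
      exact h5
    · obtain ⟨k, hk, hk2⟩ := h3 x x'
      refine ⟨k.map ⟨Sum.inl, Sum.inl_injective⟩, by simpa using hk, ?_⟩
      intro F F' hF
      beta_reduce
      rw [(h2 _).xf_iff, (h2 _).xf_iff]
      have h5 := hk2 (fun k => F (Sum.inl k)) (fun k => F' (Sum.inl k))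
        (fun i hi => hF _ (Finset.mem_map_of_mem _ hi))
      simp only [hx, ne_eq, not_false_eq_true, true_and, false_and, or_false]
      exact h5
  · rintro ρ ⟨o, ho, s, hs, rfl⟩
    obtain ⟨F, rfl⟩ := h4 ho
    obtain ⟨F', rfl⟩ := h4' hs
    exact ⟨Sum.elim F F', by simp⟩

/-- level orders only depend on the signs below `M` -/
lemma lev_congr (A : Side d H V X) {e e' : ℕ → Bool} (h : ∀ q < A.M, e q = e' q) :
    lev A e = lev A e' := by
  funext x y
  apply propext
  constructor
  · rintro ⟨q, hq, h2⟩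
    have h3 := h q (A.dif_lt hq)
    have h4 : xor (A.bit x q) (e q) = false := h2
    rw [h3] at h4
    exact ⟨q, hq, h4⟩
  · rintro ⟨q, hq, h2⟩
    have h3 := h q (A.dif_lt hq)
    have h4 : xor (A.bit x q) (e' q) = false := h2
    rw [← h3] at h4
    exact ⟨q, hq, h4⟩

/-- the sign function of a finite table -/
def ofFin {M : ℕ} (F : Fin M → Bool) : ℕ → Bool := fun q => if h : q < M then F ⟨q, h⟩ else false

lemma sch_lev (A : Side d H V X) : IsSch {ρ | ∃ e : ℕ → Bool, ρ = lev A e} A.M := by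
  classical
  refine ⟨Fin A.M, inferInstance, fun F => lev A (ofFin F), by simp, fun F => lev_sto _ _, ?_, ?_⟩
  · intro x y
    by_cases hxy : x = y
    · refine ⟨∅, by simp, ?_⟩
      intro F F' _
      subst hxy
      exact iff_of_false ((lev_sto A _).irr _) ((lev_sto A _).irr _)
    · obtain ⟨q, hq⟩ := exists_dif A.bit_inj hxy
      refine ⟨{⟨q, A.dif_lt hq⟩}, by simp, ?_⟩
      intro F F' hF
      beta_reduce
      rw [lev_iff A _ hq, lev_iff A _ hq]
      have h1 : ofFin F q = ofFin F' q := by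
        unfold ofFin
        rw [dif_pos (A.dif_lt hq), dif_pos (A.dif_lt hq)]
        exact hF _ (Finset.mem_singleton_self _)
      rw [h1]
  · rintro ρ ⟨e, rfl⟩
    refine ⟨fun q => e q, ?_⟩
    apply lev_congr
    intro q hq
    unfold ofFin
    rw [dif_pos hq]

/-- extension by level signs on one more block -/
lemma IsSch.ext {O : Set (Rel X)} {N : ℕ} (h : IsSch O N) (B : Side d H V Y) :
    IsSch {ρ : Rel (X × Y) | ∃ o ∈ O, ∃ e : ℕ → Bool, ρ = SX.xf o (fun _ => lev B e)}
      (N + B.M) := by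
  refine (h.xf (sch_lev B)).mono ?_ le_rfl
  rintro ρ ⟨o, ho, e, rfl⟩
  exact ⟨o, ho, _, ⟨e, rfl⟩, rfl⟩

lemma IsSch.sw {O : Set (Rel (Y × X))} {N : ℕ} (h : IsSch O N) :
    IsSch {ρ : Rel (X × Y) | ∃ σ ∈ O, ρ = SX.sw σ} N := by
  obtain ⟨K, i, ord, h1, h2, h3, h4⟩ := h
  refine ⟨K, i, fun F => SX.sw (ord F), h1, fun F => sw_sto (h2 F), ?_, ?_⟩
  · intro x y
    exact h3 x.swap y.swap
  · rintro ρ ⟨σ, hσ, rfl⟩
    obtain ⟨F, rfl⟩ := h4 hσ
    exact ⟨F, rfl⟩

/-- three bits make a number below eight -/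
def dec8 (a b c : Bool) : Fin 8 :=
  match a, b, c with
  | false, false, false => 0
  | false, false, true => 1
  | false, true, false => 2
  | false, true, true => 3
  | true, false, false => 4
  | true, false, true => 5
  | true, true, false => 6
  | true, true, true => 7

/-- the three bits of a number below eight -/
def enc8 (a : Fin 8) (j : Fin 3) : Bool := decide (((a : ℕ) / 2 ^ (2 - (j : ℕ))) % 2 = 1)

lemma dec8_enc8 : ∀ a : Fin 8, dec8 (enc8 a 0) (enc8 a 1) (enc8 a 2) = a := by decide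

/-- rank orders: three keys per point -/
lemma sch_rk (B : Side d H V Y) [Fintype Y] :
    IsSch {ρ | ∃ f : Y → Fin 8, ρ = rk B f} (3 * Fintype.card Y) := by
  classical
  let dec : (Y × Fin 3 → Bool) → Y → Fin 8 := fun F y => dec8 (F (y, 0)) (F (y, 1)) (F (y, 2))
  refine ⟨Y × Fin 3, inferInstance, fun F => rk B (dec F), ?_, fun F => rk_sto _ _, ?_, ?_⟩
  · rw [Fintype.card_prod, Fintype.card_fin, mul_comm]
  · intro x y
    refine ⟨(Finset.univ : Finset (Fin 3)).image (fun j => (x, j)) ∪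
      (Finset.univ : Finset (Fin 3)).image (fun j => (y, j)), ?_, ?_⟩
    · refine (Finset.card_union_le _ _).trans ?_
      have h1 := Finset.card_image_le (s := (Finset.univ : Finset (Fin 3))) (f := fun j => (x, j))
      have h2 := Finset.card_image_le (s := (Finset.univ : Finset (Fin 3))) (f := fun j => (y, j))
      simp only [Finset.card_univ, Fintype.card_fin] at h1 h2
      omega
    · intro F F' hF
      have h1 : dec F x = dec F' x := by
        simp only [dec]
        have h3 : ∀ j : Fin 3, F (x, j) = F' (x, j) := fun j =>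
          hF _ (Finset.mem_union_left _ (Finset.mem_image_of_mem _ (Finset.mem_univ j)))
        simp only [h3]
      have h2 : dec F y = dec F' y := by
        simp only [dec]
        have h3 : ∀ j : Fin 3, F (y, j) = F' (y, j) := fun j =>
          hF _ (Finset.mem_union_right _ (Finset.mem_image_of_mem _ (Finset.mem_univ j)))
        simp only [h3]
      change (dec F x < dec F y ∨ (dec F x = dec F y ∧ _)) ↔
        (dec F' x < dec F' y ∨ (dec F' x = dec F' y ∧ _))
      rw [h1, h2]
  · rintro ρ ⟨f, rfl⟩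
    refine ⟨fun p => enc8 (f p.1) p.2, ?_⟩
    have h1 : dec (fun p => enc8 (f p.1) p.2) = f := by
      funext y
      exact dec8_enc8 (f y)
    exact congrArg (rk B) h1

lemma sch_RdS (B : Side d H V Y) [Fintype Y] {Rd : Set (Rel X)} {N : ℕ} (h : IsSch Rd N) :
    IsSch (RdS B Rd) (N + 3 * Fintype.card Y) := by
  refine (h.xf (sch_rk B)).mono ?_ le_rfl
  rintro ρ ⟨r, hr, f, rfl⟩
  exact ⟨r, hr, _, ⟨f, rfl⟩, rfl⟩

lemma lab_congr (A : Side d H V X) (B : Side d H V Y) (y : Y) (i : ℕ) {g g' : ℕ → ℤ → Bool}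
    (h : ∀ q < A.M, ∀ v, |v| ≤ V → g q v = g' q v) :
    lab A (B.pol y i) g = lab A (B.pol y i) g' := by
  funext x x'
  apply propext
  constructor
  · rintro ⟨q, hq, h2⟩
    refine ⟨q, hq, ?_⟩
    beta_reduce
    rw [← h q (A.dif_lt hq) _ (B.pol_bd _ _ _ (A.nd_bd _ _))]
    exact h2
  · rintro ⟨q, hq, h2⟩
    refine ⟨q, hq, ?_⟩
    beta_reduce
    rw [h q (A.dif_lt hq) _ (B.pol_bd _ _ _ (A.nd_bd _ _))]
    exact h2

lemma sch_DL (A : Side d H V X) (B : Side d H V Y) (i : ℕ) :
    IsSch (DL A B i) (B.M + A.M * (2 * V + 1).toNat) := by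
  classical
  let W : Finset ℤ := Finset.Icc (-V) V
  have hW : W.card = (2 * V + 1).toNat := by
    simp only [W, Int.card_Icc]
    congr 1
    ring
  let g : ((Fin A.M × W) → Bool) → ℕ → ℤ → Bool := fun F q v =>
    if h : q < A.M ∧ v ∈ W then F (⟨q, h.1⟩, ⟨v, h.2⟩) else false
  refine ⟨Fin B.M ⊕ (Fin A.M × W), inferInstance,
    fun F => yf (lev B (ofFin (fun q => F (Sum.inl q))))
      (fun y => lab A (B.pol y i) (g (fun p => F (Sum.inr p)))), ?_,
    fun F => yf_sto (lev_sto _ _) (fun y => lab_sto _ _ _), ?_, ?_⟩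
  · rw [Fintype.card_sum, Fintype.card_prod, Fintype.card_fin, Fintype.card_fin,
      Fintype.card_coe, hW]
  · rintro ⟨x, y⟩ ⟨x', y'⟩
    by_cases hy : y = y'
    · subst hy
      by_cases hx : x = x'
      · subst hx
        refine ⟨∅, by simp, ?_⟩
        intro F F' _
        exact iff_of_false ((yf_sto (lev_sto _ _) (fun y => lab_sto _ _ _)).irr _)
          ((yf_sto (lev_sto _ _) (fun y => lab_sto _ _ _)).irr _)
      · obtain ⟨q, hq⟩ := exists_dif A.bit_inj hx
        have hv : (B.pol y i).eval (A.nd x q) ∈ W := by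
          have := B.pol_bd y i _ (A.nd_bd x q)
          rw [abs_le] at this
          simp only [W, Finset.mem_Icc]
          exact this
        refine ⟨{Sum.inr (⟨q, A.dif_lt hq⟩, ⟨_, hv⟩)}, by simp, ?_⟩
        intro F F' hF
        unfold yf
        simp only [true_and]
        rw [lab_iff A _ _ hq, lab_iff A _ _ hq]
        have h1 : g (fun p => F (Sum.inr p)) q ((B.pol y i).eval (A.nd x q)) =
            g (fun p => F' (Sum.inr p)) q ((B.pol y i).eval (A.nd x q)) := by
          simp only [g]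
          rw [dif_pos ⟨A.dif_lt hq, hv⟩, dif_pos ⟨A.dif_lt hq, hv⟩]
          exact hF _ (Finset.mem_singleton_self _)
        rw [h1]
        have h3 : ∀ e, ¬ lev B e y y := fun e => (lev_sto B e).irr _
        simp only [h3, false_or]
    · obtain ⟨q, hq⟩ := exists_dif B.bit_inj hy
      refine ⟨{Sum.inl ⟨q, B.dif_lt hq⟩}, by simp, ?_⟩
      intro F F' hF
      unfold yf
      simp only [hy, false_and, or_false]
      rw [lev_iff B _ hq, lev_iff B _ hq]
      have h1 : ofFin (fun q => F (Sum.inl q)) q = ofFin (fun q => F' (Sum.inl q)) q := by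
        unfold ofFin
        rw [dif_pos (B.dif_lt hq), dif_pos (B.dif_lt hq)]
        exact hF _ (Finset.mem_singleton_self _)
      rw [h1]
  · rintro ρ ⟨e, g0, rfl⟩
    refine ⟨Sum.elim (fun q => e q) (fun p => g0 p.1 p.2), ?_⟩
    simp only [Sum.elim_inl, Sum.elim_inr]
    have h1 : lev B (ofFin (fun q : Fin B.M => e q)) = lev B e := by
      apply lev_congr
      intro q hq
      unfold ofFin
      rw [dif_pos hq]
    have h2 : ∀ y, lab A (B.pol y i) (g (fun p => g0 p.1 p.2)) = lab A (B.pol y i) g0 := by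
      intro y
      apply lab_congr
      intro q hq v hv
      have hv' : v ∈ W := by
        rw [abs_le] at hv
        simp only [W, Finset.mem_Icc]
        exact hv
      simp only [g]
      rw [dif_pos ⟨hq, hv'⟩]
    rw [h1]
    congr 1
    funext y
    exact h2 y

lemma sch_DO (A : Side d H V X) (B : Side d H V Y) (c r : ℕ) (t : Bool) :
    IsSch (DO A B c r t) (A.M + 1) := by
  classical
  refine ⟨Fin A.M ⊕ Unit, inferInstance,
    fun F => xf (lev A (ofFin (fun q => F (Sum.inl q))))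
      (fun x => po B (A.pt c x) r t (F (Sum.inr ()))), by simp,
    fun F => xf_sto (lev_sto _ _) (fun y => po_sto _ _ _ _ _), ?_, ?_⟩
  · rintro ⟨x, y⟩ ⟨x', y'⟩
    by_cases hx : x = x'
    · subst hx
      refine ⟨{Sum.inr ()}, by simp, ?_⟩
      intro F F' hF
      beta_reduce
      rw [(lev_sto _ _).xf_iff, (lev_sto _ _).xf_iff, hF _ (Finset.mem_singleton_self _)]
      simp
    · obtain ⟨q, hq⟩ := exists_dif A.bit_inj hx
      refine ⟨{Sum.inl ⟨q, A.dif_lt hq⟩}, by simp, ?_⟩
      intro F F' hF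
      beta_reduce
      rw [(lev_sto _ _).xf_iff, (lev_sto _ _).xf_iff, lev_iff A _ hq, lev_iff A _ hq]
      have h1 : ofFin (fun q => F (Sum.inl q)) q = ofFin (fun q => F' (Sum.inl q)) q := by
        unfold ofFin
        rw [dif_pos (A.dif_lt hq), dif_pos (A.dif_lt hq)]
        exact hF _ (Finset.mem_singleton_self _)
      rw [h1]
      simp [hx]
  · rintro ρ ⟨e, σ, rfl⟩
    refine ⟨Sum.elim (fun q => e q) (fun _ => σ), ?_⟩
    simp only [Sum.elim_inl, Sum.elim_inr]
    have h1 : lev A (ofFin (fun q : Fin A.M => e q)) = lev A e := by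
      apply lev_congr
      intro q hq
      unfold ofFin
      rw [dif_pos hq]
    rw [h1]

lemma sch_DN (A : Side d H V X) (B : Side d H V Y) : IsSch (DN A B) (A.M + B.M) := by
  refine ((sch_lev A).ext B).mono ?_ le_rfl
  rintro ρ ⟨e, e', rfl⟩
  exact ⟨_, ⟨e, rfl⟩, e', rfl⟩

end Pool.Agent.H14.SX
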