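import Mathlib
import Pool.Agent.H14.Universal
import Pool.Agent.H14.TreeOrder
import Pool.Agent.H14.SX.Defs
import Pool.Agent.H14.SX.Cnt
import Pool.Agent.H14.SX.Sto
import Pool.Agent.H14.SX.Rank
import Pool.Agent.H14.SX.Sch

/-!
# From schemes to small families of permutations
-/

set_option autoImplicit false

namespace Pool.Agent.H14.SX

open Finset

variable {d : ℕ} {H V : ℤ} {X Y : Type}

/-- universal families, version for sets of at most `h` keys -/
lemma exists_univ (K : Type) [Fintype K] (h : ℕ) (hh : 1 ≤ h) :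
    ∃ U : Finset (K → Bool), (∀ k : Finset K, k.card ≤ h → ∀ F : K → Bool,
      ∃ F' ∈ U, ∀ i ∈ k, F' i = F i) ∧
      (U.card : ℝ) ≤ 2 ^ h * h * Real.log (2 * ((Fintype.card K : ℝ) + h)) + 2 := by
  classical
  have hT : 1 ≤ Fintype.card (K ⊕ Fin h) := by
    rw [Fintype.card_sum, Fintype.card_fin]; omega
  obtain ⟨U, hU, hc⟩ := Shatter.exists_universal (K ⊕ Fin h) hT h
  refine ⟨U.image (fun F k => F (Sum.inl k)), ?_, ?_⟩
  · intro k hk F
    obtain ⟨k', hk1, hk2⟩ := Finset.exists_superset_card_eq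
      (s := k.map ⟨Sum.inl, Sum.inl_injective (β := Fin h)⟩) (n := h) (by simpa using hk)
      (by rw [Fintype.card_sum, Fintype.card_fin]; omega)
    let e := (k'.equivFinOfCardEq hk2).symm
    obtain ⟨f, hf, hf2⟩ := hU (fun j => (e j : K ⊕ Fin h))
      (fun i j hij => e.injective (Subtype.ext hij))
      (fun j => Sum.elim F (fun _ => false) (e j : K ⊕ Fin h))
    refine ⟨fun k => f (Sum.inl k), Finset.mem_image_of_mem _ hf, ?_⟩
    intro i hi
    have hmem : (Sum.inl i : K ⊕ Fin h) ∈ k' := hk1 (Finset.mem_map_of_mem _ hi)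
    have h3 := hf2 (e.symm ⟨_, hmem⟩)
    simpa using h3
  · have h1 : ((U.image (fun F k => F (Sum.inl k))).card : ℝ) ≤ U.card := by
      exact_mod_cast Finset.card_image_le
    refine h1.trans (hc.trans ?_)
    rw [Fintype.card_sum, Fintype.card_fin]
    push_cast
    exact le_rfl

/-- the constant -/
noncomputable def cc : ℝ := 2 ^ 216 * 216

lemma IsSch.sto {O : Set (Rel X)} {N : ℕ} (h : IsSch O N) : ∀ o ∈ O, STO o := by
  obtain ⟨K, i, ord, h1, h2, h3, h4⟩ := h
  intro o ho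
  obtain ⟨F, rfl⟩ := h4 ho
  exact h2 F

/-- a scheme is represented by few orders -/
lemma IsSch.small {O : Set (Rel X)} {N : ℕ} (h : IsSch O N) :
    ∃ U : Finset (Rel X), (∀ u ∈ U, STO u) ∧
      (U.card : ℝ) ≤ cc * Real.log (2 * ((N : ℝ) + 216)) + 2 ∧
      ∀ o ∈ O, ∀ S : Finset X, S.card ≤ 6 → ∃ u ∈ U, ∀ x ∈ S, ∀ y ∈ S, (o x y ↔ u x y) := by
  classical
  obtain ⟨K, i, ord, h1, h2, h3, h4⟩ := h
  obtain ⟨U, hU, hc⟩ := exists_univ K 216 (by norm_num)
  choose k hk1 hk2 using h3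
  refine ⟨U.image ord, ?_, ?_, ?_⟩
  · intro u hu
    obtain ⟨F, _, rfl⟩ := Finset.mem_image.mp hu
    exact h2 F
  · have h5 : ((U.image ord).card : ℝ) ≤ U.card := by exact_mod_cast Finset.card_image_le
    refine h5.trans (hc.trans ?_)
    have h6 : Real.log (2 * ((Fintype.card K : ℝ) + (216 : ℕ))) ≤
        Real.log (2 * ((N : ℝ) + 216)) := by
      apply Real.log_le_log
      · push_cast
        positivity
      · have : (Fintype.card K : ℝ) ≤ N := by exact_mod_cast h1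
        push_cast
        linarith
    have h7 : (2 : ℝ) ^ 216 * ((216 : ℕ) : ℝ) = cc := by
      unfold cc
      push_cast
      rfl
    rw [h7]
    have hcc : 0 ≤ cc := by unfold cc; positivity
    have := mul_le_mul_of_nonneg_left h6 hcc
    linarith
  · intro o ho S hS
    obtain ⟨F, rfl⟩ := h4 ho
    obtain ⟨F', hF', hF2⟩ := hU ((S ×ˢ S).biUnion (fun p => k p.1 p.2)) (by
      refine Finset.card_biUnion_le.trans ?_
      refine (Finset.sum_le_card_nsmul _ _ 6 (fun p _ => hk1 _ _)).trans ?_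
      rw [Finset.card_product, smul_eq_mul]
      have : S.card * S.card ≤ 6 * 6 := Nat.mul_le_mul hS hS
      omega) F
    refine ⟨ord F', Finset.mem_image_of_mem _ hF', ?_⟩
    intro x hx y hy
    apply hk2
    intro i hi
    exact (hF2 i (Finset.mem_biUnion.mpr ⟨(x, y), Finset.mem_product.mpr ⟨hx, hy⟩, hi⟩)).symm

/-- covered by `a` schemes of size `N` -/
def CovBy (O : Set (Rel X)) (a N : ℕ) : Prop :=
  ∃ f : Fin a → Set (Rel X), (∀ i, IsSch (f i) N) ∧ O ⊆ ⋃ i, f i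

lemma CovBy.mono {O O' : Set (Rel X)} {a N N' : ℕ} (h : CovBy O a N) (hO : O' ⊆ O)
    (hN : N ≤ N') : CovBy O' a N' := by
  obtain ⟨f, h1, h2⟩ := h
  exact ⟨f, fun i => (h1 i).mono subset_rfl hN, hO.trans h2⟩

lemma CovBy.of_iUnion {ι : Type*} [Fintype ι] {N : ℕ} (f : ι → Set (Rel X))
    (h : ∀ i, IsSch (f i) N) : CovBy (⋃ i, f i) (Fintype.card ι) N := by
  classical
  refine ⟨fun j => f ((Fintype.equivFin ι).symm j), fun j => h _, ?_⟩
  intro x hx
  rw [Set.mem_iUnion] at hx ⊢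
  obtain ⟨i, hi⟩ := hx
  exact ⟨Fintype.equivFin ι i, by simpa using hi⟩

lemma CovBy.union {O O' : Set (Rel X)} {a a' N : ℕ} (h : CovBy O a N) (h' : CovBy O' a' N) :
    CovBy (O ∪ O') (a + a') N := by
  obtain ⟨f, h1, h2⟩ := h
  obtain ⟨f', h1', h2'⟩ := h'
  refine ⟨fun j => Fin.addCases f f' j, ?_, ?_⟩
  · intro j
    refine Fin.addCases (fun i => ?_) (fun i => ?_) j
    · simpa using h1 i
    · simpa using h1' i
  · rintro x (hx | hx)
    · obtain ⟨i, hi⟩ := Set.mem_iUnion.mp (h2 hx)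
      exact Set.mem_iUnion.mpr ⟨Fin.castAdd a' i, by simpa using hi⟩
    · obtain ⟨i, hi⟩ := Set.mem_iUnion.mp (h2' hx)
      exact Set.mem_iUnion.mpr ⟨Fin.natAdd a i, by simpa using hi⟩

lemma sto_wo (X : Type) : STO (WellOrderingRel : X → X → Prop) := by
  refine ⟨fun x => irrefl x, fun x y z h1 h2 => _root_.trans h1 h2, fun x y hxy => ?_⟩
  rcases trichotomous_of (WellOrderingRel : X → X → Prop) x y with h | h | h
  · exact Or.inl h
  · exact absurd h hxy
  · exact Or.inr h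

lemma sch_empty (X : Type) (N : ℕ) : IsSch (∅ : Set (Rel X)) N :=
  ⟨Empty, inferInstance, fun _ => WellOrderingRel, by simp, fun _ => sto_wo X,
    fun _ _ => ⟨∅, by simp, fun _ _ _ => Iff.rfl⟩, Set.empty_subset _⟩

lemma CovBy.addNum {O : Set (Rel X)} {a a' N : ℕ} (h : CovBy O a N) (ha : a ≤ a') :
    CovBy O a' N := by
  obtain ⟨k, rfl⟩ := Nat.exists_eq_add_of_le ha
  have h2 : CovBy (∅ : Set (Rel X)) k N :=
    ⟨fun _ => ∅, fun _ => sch_empty X N, Set.empty_subset _⟩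
  have := h.union h2
  rwa [Set.union_empty] at this

lemma CovBy.ext {O : Set (Rel X)} {a N : ℕ} (h : CovBy O a N) (B : Side d H V Y) :
    CovBy {ρ : Rel (X × Y) | ∃ o ∈ O, ∃ e : ℕ → Bool, ρ = xf o (fun _ => lev B e)} a
      (N + B.M) := by
  obtain ⟨f, h1, h2⟩ := h
  refine ⟨fun i => {ρ : Rel (X × Y) | ∃ o ∈ f i, ∃ e : ℕ → Bool, ρ = xf o (fun _ => lev B e)},
    fun i => (h1 i).ext B, ?_⟩
  rintro ρ ⟨o, ho, e, rfl⟩
  obtain ⟨i, hi⟩ := Set.mem_iUnion.mp (h2 ho)
  exact Set.mem_iUnion.mpr ⟨i, o, hi, e, rfl⟩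

lemma CovBy.small {O : Set (Rel X)} {a N : ℕ} (h : CovBy O a N) :
    ∃ U : Finset (Rel X), (∀ u ∈ U, STO u) ∧
      (U.card : ℝ) ≤ a * (cc * Real.log (2 * ((N : ℝ) + 216)) + 2) ∧
      ∀ o ∈ O, ∀ S : Finset X, S.card ≤ 6 → ∃ u ∈ U, ∀ x ∈ S, ∀ y ∈ S, (o x y ↔ u x y) := by
  classical
  obtain ⟨f, h1, h2⟩ := h
  choose U hU1 hU2 hU3 using fun i => (h1 i).small
  refine ⟨Finset.univ.biUnion U, ?_, ?_, ?_⟩
  · intro u hu
    obtain ⟨i, _, hi⟩ := Finset.mem_biUnion.mp hu
    exact hU1 i u hi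
  · have h3 : ((Finset.univ.biUnion U).card : ℝ) ≤ ∑ i, ((U i).card : ℝ) := by
      exact_mod_cast Finset.card_biUnion_le
    refine h3.trans ((Finset.sum_le_sum (fun i _ => hU2 i)).trans ?_)
    rw [Finset.sum_const, Finset.card_univ, Fintype.card_fin, nsmul_eq_mul]
  · intro o ho S hS
    obtain ⟨i, hi⟩ := Set.mem_iUnion.mp (h2 ho)
    obtain ⟨u, hu, hu2⟩ := hU3 i o hi S hS
    exact ⟨u, Finset.mem_biUnion.mpr ⟨i, Finset.mem_univ _, hu⟩, hu2⟩

/-- `Tot` is covered, up to patterns on at most six points, by `a` schemes of size `N1`,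
`b` schemes of size `N2`, and `Rd`, which is a scheme of size `N3` -/
def Cov (Rd Tot : Set (Rel X)) (a N1 b N2 N3 : ℕ) : Prop :=
  ∃ L1 L2 : Set (Rel X), CovBy L1 a N1 ∧ CovBy L2 b N2 ∧ IsSch Rd N3 ∧
    ∀ r ∈ Tot, ∀ S : Finset X, S.card ≤ 6 →
      ∃ o, (o ∈ L1 ∨ o ∈ L2 ∨ o ∈ Rd) ∧ ∀ x ∈ S, ∀ y ∈ S, (r x y ↔ o x y)

/-- permutations realising a strict total order -/
lemma exists_perm_of_sto {n : ℕ} (r : Rel (Fin n)) (hr : STO r) :
    ∃ ρ : Equiv.Perm (Fin n), ∀ x y, ρ x < ρ y ↔ r x y := by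
  classical
  let key : Fin n → ℕ := fun x => (Finset.univ.filter (fun z => r z x)).card
  have hlt : ∀ x y, r x y → key x < key y := by
    intro x y hxy
    apply Finset.card_lt_card
    rw [Finset.ssubset_iff_of_subset]
    · exact ⟨x, by simp [hxy], by simp [hr.irr x]⟩
    · intro z hz
      simp only [Finset.mem_filter, Finset.mem_univ, true_and] at hz ⊢
      exact hr.trans _ _ _ hz hxy
  have hiff : ∀ x y, key x < key y ↔ r x y := by
    intro x y
    constructor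
    · intro h
      by_contra hc
      rcases eq_or_ne x y with h1 | h1
      · rw [h1] at h
        exact lt_irrefl _ h
      · rcases hr.tot x y h1 with h2 | h2
        · exact hc h2
        · exact absurd (hlt _ _ h2) (not_lt.mpr h.le)
    · exact hlt x y
  have hinj : Function.Injective key := by
    intro x y hxy
    by_contra h1
    rcases hr.tot x y h1 with h2 | h2
    · exact absurd (hlt _ _ h2) (by rw [hxy]; exact lt_irrefl _)
    · exact absurd (hlt _ _ h2) (by rw [hxy]; exact lt_irrefl _)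
  obtain ⟨ρ, hρ⟩ := Shatter.exists_perm key hinj
  exact ⟨ρ, fun x y => (hρ x y).trans (hiff x y)⟩

/-- the transfer -/
theorem Cov.perms [Fintype X] {Rd Tot : Set (Rel X)} {a N1 b N2 N3 : ℕ}
    (h : Cov Rd Tot a N1 b N2 N3) {n m : ℕ} (hn : n ≤ Fintype.card X)
    (hm : ∀ S : Finset X, S.card = 6 → m ≤ cnt Tot S) :
    ∃ P : Finset (Equiv.Perm (Fin n)),
      (P.card : ℝ) ≤ a * (cc * Real.log (2 * ((N1 : ℝ) + 216)) + 2) +
        b * (cc * Real.log (2 * ((N2 : ℝ) + 216)) + 2) +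
        (cc * Real.log (2 * ((N3 : ℝ) + 216)) + 2) ∧
      ∀ S : Finset (Fin n), S.card = 6 →
        m ≤ (P.image (fun ρ => (S ×ˢ S).filter (fun p => ρ p.1 < ρ p.2))).card := by
  classical
  obtain ⟨L1, L2, h1, h2, h3, h4⟩ := h
  obtain ⟨U1, hU1, hU1c, hU1s⟩ := h1.small
  obtain ⟨U2, hU2, hU2c, hU2s⟩ := h2.small
  obtain ⟨U3, hU3, hU3c, hU3s⟩ := h3.small
  obtain ⟨ι, hι⟩ : ∃ ι : Fin n → X, Function.Injective ι := by
    have hn' : Fintype.card (Fin n) ≤ Fintype.card X := by simpa using hn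
    obtain ⟨e⟩ := Function.Embedding.nonempty_of_card_le hn'
    exact ⟨e, e.injective⟩
  have hsto : ∀ u ∈ U1 ∪ U2 ∪ U3, STO u := by
    intro u hu
    rcases Finset.mem_union.mp hu with hu | hu
    · rcases Finset.mem_union.mp hu with hu | hu
      · exact hU1 u hu
      · exact hU2 u hu
    · exact hU3 u hu
  have hex : ∀ u : Rel X, ∃ ρ : Equiv.Perm (Fin n), STO u →
      ∀ x y, ρ x < ρ y ↔ u (ι x) (ι y) := by
    intro u
    by_cases hu : STO u
    · have hr : STO (fun x y : Fin n => u (ι x) (ι y)) :=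
        ⟨fun x => hu.irr _, fun x y z => hu.trans _ _ _, fun x y hxy =>
          hu.tot _ _ (fun he => hxy (hι he))⟩
      obtain ⟨ρ, hρ⟩ := exists_perm_of_sto _ hr
      exact ⟨ρ, fun _ => hρ⟩
    · exact ⟨1, fun h => absurd h hu⟩
  choose R hR using hex
  refine ⟨(U1 ∪ U2 ∪ U3).image R, ?_, ?_⟩
  · have h5 : (((U1 ∪ U2 ∪ U3).image R).card : ℝ) ≤ (U1.card : ℝ) + U2.card + U3.card := by
      have h6 : ((U1 ∪ U2 ∪ U3).image R).card ≤ U1.card + U2.card + U3.card := by
        refine Finset.card_image_le.trans ((Finset.card_union_le _ _).trans ?_)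
        exact Nat.add_le_add_right (Finset.card_union_le _ _) _
      exact_mod_cast h6
    linarith
  · intro S hS
    have hS' : (S.map ⟨ι, hι⟩).card = 6 := by rw [Finset.card_map, hS]
    obtain ⟨f, hf, hfd⟩ := exists_of_le_cnt (hm _ hS')
    have hsel : ∀ i, ∃ u ∈ U1 ∪ U2 ∪ U3, ∀ x ∈ S.map ⟨ι, hι⟩, ∀ y ∈ S.map ⟨ι, hι⟩,
        (f i x y ↔ u x y) := by
      intro i
      obtain ⟨o, ho, hoS⟩ := h4 (f i) (hf i) _ hS'.le
      rcases ho with ho | ho | ho
      · obtain ⟨u, hu, hu2⟩ := hU1s o ho _ hS'.le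
        exact ⟨u, by simp [hu], fun x hx y hy => (hoS x hx y hy).trans (hu2 x hx y hy)⟩
      · obtain ⟨u, hu, hu2⟩ := hU2s o ho _ hS'.le
        exact ⟨u, by simp [hu], fun x hx y hy => (hoS x hx y hy).trans (hu2 x hx y hy)⟩
      · obtain ⟨u, hu, hu2⟩ := hU3s o ho _ hS'.le
        exact ⟨u, by simp [hu], fun x hx y hy => (hoS x hx y hy).trans (hu2 x hx y hy)⟩
    choose u hu hu2 using hsel
    have hinj : Function.Injective
        (fun i : Fin m => (S ×ˢ S).filter (fun p => R (u i) p.1 < R (u i) p.2)) := by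
      intro i j hij
      apply hfd
      intro x hx y hy
      obtain ⟨x, hxS, rfl⟩ := Finset.mem_map.mp hx
      obtain ⟨y, hyS, rfl⟩ := Finset.mem_map.mp hy
      have h5 : (x, y) ∈ (S ×ˢ S).filter (fun p => R (u i) p.1 < R (u i) p.2) ↔
          (x, y) ∈ (S ×ˢ S).filter (fun p => R (u j) p.1 < R (u j) p.2) := by
        have hij' : (S ×ˢ S).filter (fun p => R (u i) p.1 < R (u i) p.2) =
          (S ×ˢ S).filter (fun p => R (u j) p.1 < R (u j) p.2) := hij
        rw [hij']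
      simp only [Finset.mem_filter, Finset.mem_product, hxS, hyS, true_and] at h5
      rw [hR _ (hsto _ (hu i)), hR _ (hsto _ (hu j))] at h5
      exact (hu2 i _ hx _ hy).trans (h5.trans (hu2 j _ hx _ hy).symm)
    calc m = (Finset.univ : Finset (Fin m)).card := by simp
      _ = (Finset.univ.image (fun i : Fin m =>
            (S ×ˢ S).filter (fun p => R (u i) p.1 < R (u i) p.2))).card := by
          rw [Finset.card_image_of_injective _ hinj]
      _ ≤ _ := by
          apply Finset.card_le_card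
          intro s hs
          obtain ⟨i, _, rfl⟩ := Finset.mem_image.mp hs
          exact Finset.mem_image.mpr ⟨R (u i), Finset.mem_image_of_mem _ (hu i), rfl⟩

end Pool.Agent.H14.SX
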