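import Mathlib

/-!
# A simple form of Thom's lemma

Let `Q ≠ 0` be an integer polynomial, `x < s < x'` and `Q(s) = 0`.  Then some derivative
`Q^(r)`, `r ≤ natDegree Q`, has different signs (in `{-1, 0, 1}`) at `x` and `x'`.

Proof.  Suppose that for all `r ≤ n := natDegree Q` the signs of `Q^(r)(x)` and `Q^(r)(x')` are
equal.  Work over the reals.  Claim: for `r = n, n-1, ..., 0` the function `Q^(r)` has no zero in
the open interval `(x, x')`.  `r = n`: nonzero constant (`n! * leadingCoeff`).  Step `r+1 → r`:
`Q^(r+1)` has no zero in `(x, x')`, hence (intermediate value) a constant strict sign there, so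
`Q^(r)` is strictly monotone (or strictly antitone) on `[x, x']`.  As the signs at `x` and `x'` are
equal and the values are different, both are `> 0` or both are `< 0` (both zero is impossible), and
every value in between lies strictly between the two values, so it is not zero.
For `r = 0` this contradicts `Q(s) = 0`.
-/

set_option autoImplicit false

namespace Pool.Agent.H14.SX

theorem thom (Q : Polynomial ℤ) (hQ : Q ≠ 0) (x s x' : ℤ) (h1 : x < s) (h2 : s < x')
    (h0 : Q.eval s = 0) :
    ∃ r ≤ Q.natDegree, SignType.sign ((Polynomial.derivative^[r] Q).eval x) ≠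
      SignType.sign ((Polynomial.derivative^[r] Q).eval x') := by
  classical
  by_contra hcon
  push Not at hcon
  obtain ⟨D, hD⟩ : ∃ D : ℕ → Polynomial ℤ, ∀ r, D r = Polynomial.derivative^[r] Q := ⟨_, fun _ => rfl⟩
  obtain ⟨F, hF⟩ : ∃ F : ℕ → Polynomial ℝ, ∀ r, F r = (D r).map (Int.castRingHom ℝ) := ⟨_, fun _ => rfl⟩
  have hFe : ∀ r (z : ℤ), (F r).eval (z : ℝ) = (((D r).eval z : ℤ) : ℝ) := by
    intro r z
    rw [hF, Polynomial.eval_intCast_map]
    simp
  have hFd : ∀ r, Polynomial.derivative (F r) = F (r + 1) := by
    intro r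
    rw [hF, hF, Polynomial.derivative_map, hD, hD, Function.iterate_succ_apply']
  have key : ∀ j, j ≤ Q.natDegree → ∀ t : ℝ, (x : ℝ) < t → t < x' → (F (Q.natDegree - j)).eval t ≠ 0 := by
    intro j
    induction j with
    | zero =>
      intro _ t _ _
      rw [Nat.sub_zero]
      have hc : (D Q.natDegree).coeff 0 ≠ 0 := by
        rw [hD, Polynomial.coeff_iterate_derivative, Nat.zero_add, Nat.descFactorial_self]
        rw [nsmul_eq_mul]
        refine mul_ne_zero ?_ ?_
        · exact_mod_cast Nat.factorial_ne_zero _
        · exact Polynomial.leadingCoeff_ne_zero.2 hQ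
      have hdeg : (D Q.natDegree).natDegree = 0 := by
        have := Polynomial.natDegree_iterate_derivative Q Q.natDegree
        rw [← hD] at this
        omega
      rw [hF, Polynomial.eq_C_of_natDegree_eq_zero hdeg, Polynomial.map_C, Polynomial.eval_C]
      simp only [eq_intCast, ne_eq, Int.cast_eq_zero]
      exact hc
    | succ j ih =>
      intro hj t ht1 ht2 hzero
      have ih' := ih (by omega)
      obtain ⟨r, hr⟩ : ∃ r, r = Q.natDegree - (j + 1) := ⟨_, rfl⟩
      have hr1 : Q.natDegree - j = r + 1 := by omega
      rw [← hr] at hzero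
      rw [hr1] at ih'
      have hxx : (x : ℝ) ≤ x' := by linarith
      have hinj : Set.InjOn (fun t : ℝ => (F r).eval t) (Set.Icc (x : ℝ) x') := by
        have haux : ∀ u v : ℝ, u ∈ Set.Icc (x : ℝ) x' → v ∈ Set.Icc (x : ℝ) x' → u < v →
            (F r).eval u ≠ (F r).eval v := by
          intro u v hu hv huv he
          obtain ⟨c, hc, hc'⟩ := exists_deriv_eq_zero (f := fun t : ℝ => (F r).eval t) huv
            ((F r).continuous.continuousOn) he
          rw [Polynomial.deriv, hFd] at hc'
          exact ih' c (lt_of_le_of_lt hu.1 hc.1) (lt_of_lt_of_le hc.2 hv.2) hc'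
        intro u hu v hv he
        rcases lt_trichotomy u v with h | h | h
        · exact absurd he (haux u v hu hv h)
        · exact h
        · exact absurd he.symm (haux v u hv hu h)
      have hsg := hcon r (by omega)
      rw [← hD] at hsg
      have hx : (x : ℝ) ∈ Set.Icc (x : ℝ) x' := ⟨le_rfl, hxx⟩
      have hx' : (x' : ℝ) ∈ Set.Icc (x : ℝ) x' := ⟨hxx, le_rfl⟩
      have ht : t ∈ Set.Icc (x : ℝ) x' := ⟨ht1.le, ht2.le⟩
      rcases ContinuousOn.strictMonoOn_of_injOn_Icc' hxx ((F r).continuous.continuousOn) hinj with hm | hm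
      · have e1 := hm hx ht ht1
        have e2 := hm ht hx' ht2
        simp only at e1 e2
        rw [hzero] at e1 e2
        rw [hFe] at e1 e2
        have e1' : (D r).eval x < 0 := by exact_mod_cast e1
        have e2' : 0 < (D r).eval x' := by exact_mod_cast e2
        rw [sign_neg e1', sign_pos e2'] at hsg
        exact absurd hsg (by decide)
      · have e1 := hm hx ht ht1
        have e2 := hm ht hx' ht2
        simp only at e1 e2
        rw [hzero] at e1 e2
        rw [hFe] at e1 e2
        have e1' : 0 < (D r).eval x := by exact_mod_cast e1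
        have e2' : (D r).eval x' < 0 := by exact_mod_cast e2
        rw [sign_pos e1', sign_neg e2'] at hsg
        exact absurd hsg (by decide)
  have hfin := key Q.natDegree le_rfl (s : ℝ) (by exact_mod_cast h1) (by exact_mod_cast h2)
  rw [Nat.sub_self, hFe] at hfin
  apply hfin
  rw [hD]
  simp only [Function.iterate_zero, id_eq]
  rw [h0]
  simp

end Pool.Agent.H14.SX
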