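import Mathlib
import Pool.Agent.H14.SX.Defs
import Pool.Agent.H14.SX.Sto
import Pool.Agent.H14.SX.Thom

/-!
# Unlocking a rectangle

`x, x'` differ first at the bit `q` (coordinate `c = A.co q`), the tuples of polynomials of
`y, y'` differ first at the index `i`, and the two labels `P_y(nd)`, `P_y'(nd)` at the node agree.
Then `Q = B.pol y i - B.pol y' i` is not zero, has degree `≤ d` and vanishes at the node value
`A.nd x q = A.nd x' q`, which lies strictly between `A.pt c x` and `A.pt c x'` (`A.btw`, for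
`A.bit x q = false, A.bit x' q = true`, or with the roles exchanged).  By `thom` there is `r ≤ d`
such that the signs of `Q^(r)` at the two coordinate values differ.  If one sign is `+` and the
other one is `-`, every `t` does it.  If one of them is `0`, choose `t` such that the tie is
broken in the opposite way.  (`Polynomial.iterate_derivative_sub`; sign of `a - a'` versus
`a < a'`.)
-/

set_option autoImplicit false

namespace Pool.Agent.H14.SX

variable {d : ℕ} {H V : ℤ} {X Y : Type}

lemma po_iff (B : Side d H V Y) (s : ℤ) (r : ℕ) (t σ : Bool) {y y' : Y} {i : ℕ}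
    (hi : ∀ j < i, B.pol y j = B.pol y' j) (hi' : B.pol y i ≠ B.pol y' i) :
    po B s r t σ y y' ↔ (if σ then pcmp s r t (B.pol y i) (B.pol y' i)
      else pcmp s r t (B.pol y' i) (B.pol y i)) := by
  constructor
  · rintro ⟨k, hk, hk', h⟩
    have e : k = i := by
      rcases lt_trichotomy k i with h1 | h1 | h1
      · exact absurd (hi k h1) hk'
      · exact h1
      · exact absurd (hk i h1) hi'
    rw [← e]
    exact h
  · intro h
    exact ⟨i, hi, hi', h⟩

private lemma pcmp_not (s : ℤ) (r : ℕ) (t : Bool) {p p' : Polynomial ℤ} (h : p ≠ p') :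
    pcmp s r t p' p ↔ ¬ pcmp s r t p p' := by
  have hs := pcmp_sto s r t
  constructor
  · intro h1 h2
    exact hs.irr _ (hs.trans _ _ _ h1 h2)
  · intro h1
    rcases hs.tot _ _ h with h2 | h2
    · exact absurd h2 h1
    · exact h2

/-- reversing the global sign reverses the order -/
lemma po_not (B : Side d H V Y) (s : ℤ) (r : ℕ) (t σ : Bool) {y y' : Y} (h : y ≠ y') :
    po B s r t (!σ) y y' ↔ ¬ po B s r t σ y y' := by
  classical
  have h1 : ∃ i, B.pol y i ≠ B.pol y' i := by
    by_contra hc
    push Not at hc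
    exact h (B.pol_inj (funext hc))
  have hi : ∀ j < Nat.find h1, B.pol y j = B.pol y' j := by
    intro j hj
    by_contra hc
    exact Nat.find_min h1 hj hc
  have hi' := Nat.find_spec h1
  rw [po_iff B s r t (!σ) hi hi', po_iff B s r t σ hi hi']
  cases σ
  · simp only [Bool.not_false, if_true, Bool.false_eq_true, if_false]
    exact pcmp_not s r t hi'.symm
  · simp only [Bool.not_true, if_true, Bool.false_eq_true, if_false]
    exact pcmp_not s r t hi'

private lemma unl_key {p p' : Polynomial ℤ} (hne : p ≠ p') (r : ℕ) (a b : ℤ)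
    (h : SignType.sign ((Polynomial.derivative^[r] (p - p')).eval a) ≠
      SignType.sign ((Polynomial.derivative^[r] (p - p')).eval b)) :
    ∃ t, (pcmp a r t p p' ↔ ¬ pcmp b r t p p') := by
  have hc : code p ≠ code p' := fun h => hne (code_inj h)
  rw [Polynomial.iterate_derivative_sub, Polynomial.eval_sub, Polynomial.eval_sub] at h
  unfold pcmp
  generalize (Polynomial.derivative^[r] p).eval a = u1 at *
  generalize (Polynomial.derivative^[r] p').eval a = u2 at *
  generalize (Polynomial.derivative^[r] p).eval b = w1 at *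
  generalize (Polynomial.derivative^[r] p').eval b = w2 at *
  generalize code p = c1 at *
  generalize code p' = c2 at *
  have hbad : ¬ ((u1 < u2 ∧ w1 < w2) ∨ (u1 = u2 ∧ w1 = w2) ∨ (u2 < u1 ∧ w2 < w1)) := by
    rintro (⟨h1, h2⟩ | ⟨h1, h2⟩ | ⟨h1, h2⟩)
    · rw [sign_neg (by omega), sign_neg (by omega)] at h
      exact h rfl
    · rw [h1, h2, sub_self, sub_self] at h
      exact h rfl
    · rw [sign_pos (by omega), sign_pos (by omega)] at h
      exact h rfl
  by_cases ht : (u1 < u2 ∨ (u1 = u2 ∧ c1 < c2)) ↔ ¬ (w1 < w2 ∨ (w1 = w2 ∧ c1 < c2))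
  · exact ⟨true, by simpa using ht⟩
  · refine ⟨false, ?_⟩
    simp only [Bool.false_eq_true, if_false]
    omega

theorem unlock (A : Side d H V X) (B : Side d H V Y) {x x' : X} {y y' : Y} {q i : ℕ}
    (hq : Dif A.bit x x' q) (hi : ∀ j < i, B.pol y j = B.pol y' j)
    (hi' : B.pol y i ≠ B.pol y' i)
    (hl : (B.pol y i).eval (A.nd x q) = (B.pol y' i).eval (A.nd x q)) :
    A.co q < A.E ∧ ∃ r ≤ d, ∃ t, ∀ σ,
      (po B (A.pt (A.co q) x) r t σ y y' ↔ ¬ po B (A.pt (A.co q) x') r t σ y y') := by
  refine ⟨A.co_lt q (A.dif_lt hq), ?_⟩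
  have hQ : B.pol y i - B.pol y' i ≠ 0 := sub_ne_zero.2 hi'
  have h0 : (B.pol y i - B.pol y' i).eval (A.nd x q) = 0 := by
    rw [Polynomial.eval_sub, hl, sub_self]
  have hd : (B.pol y i - B.pol y' i).natDegree ≤ d :=
    (Polynomial.natDegree_sub_le _ _).trans (max_le (B.pol_deg y i) (B.pol_deg y' i))
  have h1 : ∃ r ≤ d, SignType.sign
      ((Polynomial.derivative^[r] (B.pol y i - B.pol y' i)).eval (A.pt (A.co q) x)) ≠
      SignType.sign
      ((Polynomial.derivative^[r] (B.pol y i - B.pol y' i)).eval (A.pt (A.co q) x')) := by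
    have hb := hq.2
    cases hx : A.bit x q
    · have hx' : A.bit x' q = true := by
        rw [hx] at hb
        cases h : A.bit x' q
        · rw [h] at hb
          exact absurd rfl hb
        · rfl
      obtain ⟨g1, g2⟩ := A.btw x x' q hq.1 hx hx'
      obtain ⟨r, hr, hr'⟩ := thom _ hQ _ _ _ g1 g2 h0
      exact ⟨r, hr.trans hd, hr'⟩
    · have hx' : A.bit x' q = false := by
        rw [hx] at hb
        cases h : A.bit x' q
        · rfl
        · rw [h] at hb
          exact absurd rfl hb
      obtain ⟨g1, g2⟩ := A.btw x' x q hq.symm.1 hx' hx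
      rw [← A.nd_pre x x' q hq.1] at g1 g2
      obtain ⟨r, hr, hr'⟩ := thom _ hQ _ _ _ g1 g2 h0
      exact ⟨r, hr.trans hd, hr'.symm⟩
  obtain ⟨r, hr, hs⟩ := h1
  obtain ⟨t, ht⟩ := unl_key hi' r _ _ hs
  refine ⟨r, hr, t, fun σ => ?_⟩
  rw [po_iff B _ r t σ hi hi', po_iff B _ r t σ hi hi']
  cases σ
  · simp only [Bool.false_eq_true, if_false]
    rw [pcmp_not _ r t hi', pcmp_not _ r t hi', not_not]
    exact (not_congr ht).trans not_not
  · simp only [if_true]
    exact ht

end Pool.Agent.H14.SX
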