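import Mathlib
import Pool.Agent.H14.SX.Defs
import Pool.Agent.H14.SX.Cnt
import Pool.Agent.H14.SX.Sto
import Pool.Agent.H14.SX.Unlock

/-!
# A rectangle, and a rectangle with one more point

Rectangle `a = (p,v), b = (p,v'), c = (p',v), e = (p',v')`, `p ≠ p'`, `v ≠ v'`; `q` = first bit
at which `p, p'` differ.
* `V4`: `DL A B 0` with a `g` which does not depend on the label (if `B.m = 0` there is only one
  polynomial tuple, so `v = v'` by `pol_inj`, impossible; so `0 < B.m`): signs of `v | v'` and of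
  `p | p'`: 4 patterns with `VL`.
* `N4`: let `i` be the first index at which the polynomials of `v, v'` differ (`i < B.m`).  If the
  labels at the node `A.nd p q` differ: `DL A B i` with independent signs of `p | p'` over `v` and
  over `v'`: the 4 patterns with opposite signs are `NL` (second alternative).  If they agree:
  `unlock`, the level sign at `q` and the global sign: 4 patterns which are `NL` (first
  alternative).
* `V5`: one more point `(x, y)`.  If `y ≠ v, v'`: three different points of `B`, tree with two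
  different levels (`exists_three`), so 4 patterns on `{v, v', y}` (seen at `(p,v), (p,v'), (x,y)`)
  times the sign of `p | p'` over `v`.  If `y = v` (or `v'`): then `x ≠ p, p'`, and over `y` we see
  three different points `p, p', x` of `A`, two levels, 4 patterns, times the sign of `v | v'`.
* `N5` (with `x ≠ p, p'`).  Labels different: as in `V5` with opposite signs of `p | p'` over `v`
  and over `v'`: if `y ≠ v, v'`: 4 patterns on `{v, v', y}` times the sign over `v`.  If `y = v`: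
  sign of `v | v'`, the two nodes of the tree of `p, p', x` over `v` (their keys have different bit
  positions, hence they are different; and the key of the node of `p, p'` over `v'` is different
  from both): 8 patterns.  Same for `y = v'`.
  Labels equal: `unlock`: `A` first, three points `p, p', x` with two levels (4 patterns) times
  the global sign: 8 patterns.
-/

set_option autoImplicit false

namespace Pool.Agent.H14.SX

variable {d : ℕ} {H V : ℤ} {X Y : Type}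

private lemma bxor (a β : Bool) : (xor a (xor a (!β)) = false) ↔ β = true := by
  cases a <;> cases β <;> simp

private lemma lev_pair (A : Side d H V X) {x y : X} (h : x ≠ y) (β : Bool) :
    ∃ e : ℕ → Bool, (lev A e x y ↔ β = true) := by
  obtain ⟨q, hq⟩ := exists_dif A.bit_inj h
  refine ⟨fun _ => xor (A.bit x q) (!β), ?_⟩
  rw [lev_iff A _ hq]
  exact bxor _ _

private lemma lev_two (A : Side d H V X) {u w u' w' : X} {q q' : ℕ} (h : Dif A.bit u w q)
    (h' : Dif A.bit u' w' q') (hq : q ≠ q') (β β' : Bool) :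
    ∃ e : ℕ → Bool, (lev A e u w ↔ β = true) ∧ (lev A e u' w' ↔ β' = true) := by
  refine ⟨fun k => if k = q then xor (A.bit u q) (!β) else xor (A.bit u' q') (!β'), ?_, ?_⟩
  · rw [lev_iff A _ h, if_pos rfl]
    exact bxor _ _
  · rw [lev_iff A _ h', if_neg (Ne.symm hq)]
    exact bxor _ _

private lemma four_le {Z : Type} {O : Set (Rel Z)} {S : Finset Z} (a0 b0 a1 b1 : Z) (ha0 : a0 ∈ S)
    (hb0 : b0 ∈ S) (ha1 : a1 ∈ S) (hb1 : b1 ∈ S)
    (H : ∀ β0 β1 : Bool, ∃ r ∈ O, (r a0 b0 ↔ β0 = true) ∧ (r a1 b1 ↔ β1 = true)) :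
    4 ≤ cnt O S := by
  have key := two_pow_le_cnt (O := O) (S := S) (m := 2) ![a0, a1] ![b0, b1] (by
    intro k
    fin_cases k
    · exact ha0
    · exact ha1) (by
    intro k
    fin_cases k
    · exact hb0
    · exact hb1) (by
    intro β
    obtain ⟨r, hr, h0, h1⟩ := H (β 0) (β 1)
    refine ⟨r, hr, fun k => ?_⟩
    fin_cases k
    · exact h0
    · exact h1)
  simpa using key

private lemma eight_le {Z : Type} {O : Set (Rel Z)} {S : Finset Z} (a0 b0 a1 b1 a2 b2 : Z)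
    (ha0 : a0 ∈ S) (hb0 : b0 ∈ S) (ha1 : a1 ∈ S) (hb1 : b1 ∈ S) (ha2 : a2 ∈ S) (hb2 : b2 ∈ S)
    (H : ∀ β0 β1 β2 : Bool, ∃ r ∈ O, (r a0 b0 ↔ β0 = true) ∧ (r a1 b1 ↔ β1 = true) ∧
      (r a2 b2 ↔ β2 = true)) :
    8 ≤ cnt O S := by
  have key := two_pow_le_cnt (O := O) (S := S) (m := 3) ![a0, a1, a2] ![b0, b1, b2] (by
    intro k
    fin_cases k
    · exact ha0
    · exact ha1
    · exact ha2) (by
    intro k
    fin_cases k
    · exact hb0
    · exact hb1
    · exact hb2) (by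
    intro β
    obtain ⟨r, hr, h0, h1, h2⟩ := H (β 0) (β 1) (β 2)
    refine ⟨r, hr, fun k => ?_⟩
    fin_cases k
    · exact h0
    · exact h1
    · exact h2)
  simpa using key

/-- three different points, two different levels: four patterns with level signs -/
private lemma lev_three (A : Side d H V X) {a b c : X} (hab : a ≠ b) (hac : a ≠ c) (hbc : b ≠ c) :
    ∃ u w u' w' : X, (u = a ∨ u = b ∨ u = c) ∧ (w = a ∨ w = b ∨ w = c) ∧
      (u' = a ∨ u' = b ∨ u' = c) ∧ (w' = a ∨ w' = b ∨ w' = c) ∧ u ≠ w ∧ u' ≠ w' ∧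
      ∀ β β' : Bool, ∃ e : ℕ → Bool, (lev A e u w ↔ β = true) ∧ (lev A e u' w' ↔ β' = true) := by
  obtain ⟨q, q', hqq, h | h | h⟩ := exists_three A.bit_inj hab hac hbc
  · exact ⟨a, b, b, c, Or.inl rfl, Or.inr (Or.inl rfl), Or.inr (Or.inl rfl),
      Or.inr (Or.inr rfl), hab, hbc, lev_two A h.1 h.2.2 hqq.ne⟩
  · exact ⟨b, a, a, c, Or.inr (Or.inl rfl), Or.inl rfl, Or.inl rfl, Or.inr (Or.inr rfl),
      hab.symm, hac, lev_two A h.1 h.2.2 hqq.ne⟩
  · exact ⟨c, a, a, b, Or.inr (Or.inr rfl), Or.inl rfl, Or.inl rfl, Or.inr (Or.inl rfl),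
      hac.symm, hab, lev_two A h.1 h.2.2 hqq.ne⟩

/-- labels different: `B` first, opposite signs of `p | p'` over `v₀` and `v₁` -/
private lemma dl_core (A : Side d H V X) (B : Side d H V Y) {p p' : X} {v₀ v₁ : Y} {q i : ℕ}
    (hq : Dif A.bit p p' q) (hi : i < B.m)
    (hl : (B.pol v₀ i).eval (A.nd p q) ≠ (B.pol v₁ i).eval (A.nd p q)) (e h : ℕ → Bool) :
    ∃ ρ ∈ DD A B, (∀ a b : X × Y, a.2 ≠ b.2 → (ρ a b ↔ lev B e a.2 b.2)) ∧
      (∀ u w : X, (u = p ∨ u = p' ∨ w = p ∨ w = p') → u ≠ w →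
        (ρ (u, v₀) (w, v₀) ↔ lev A h u w)) ∧
      (ρ (p, v₁) (p', v₁) ↔ ¬ lev A h p p') := by
  classical
  set g : ℕ → ℤ → Bool := fun k l =>
    if k = q ∧ l = (B.pol v₁ i).eval (A.nd p q) then !(h k) else h k with hg
  refine ⟨yf (lev B e) (fun y => lab A (B.pol y i) g), Or.inl ⟨i, hi, e, g, rfl⟩, ?_, ?_, ?_⟩
  · intro a b hab
    show lev B e a.2 b.2 ∨ (a.2 = b.2 ∧ _) ↔ _
    simp only [hab, false_and, or_false]
  · intro u w hm huw
    have hir : ¬ lev B e v₀ v₀ := (lev_sto B e).irr v₀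
    show lev B e v₀ v₀ ∨ (v₀ = v₀ ∧ lab A (B.pol v₀ i) g u w) ↔ _
    simp only [hir, false_or, true_and]
    obtain ⟨k, hk⟩ := exists_dif A.bit_inj huw
    rw [lab_iff A _ _ hk, lev_iff A _ hk]
    have hgk : g k ((B.pol v₀ i).eval (A.nd u k)) = h k := by
      by_cases hkq : k = q
      · subst hkq
        have hpre : ∀ j < k, A.bit u j = A.bit p j := by
          intro j hj
          rcases hm with rfl | rfl | rfl | rfl
          · rfl
          · exact (hq.1 j hj).symm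
          · exact hk.1 j hj
          · exact (hk.1 j hj).trans (hq.1 j hj).symm
        rw [A.nd_pre u p k hpre]
        simp only [hg]
        rw [if_neg (fun hc => hl hc.2)]
      · simp only [hg]
        rw [if_neg (fun hc => hkq hc.1)]
    rw [hgk]
  · have hir : ¬ lev B e v₁ v₁ := (lev_sto B e).irr v₁
    show lev B e v₁ v₁ ∨ (v₁ = v₁ ∧ lab A (B.pol v₁ i) g p p') ↔ _
    simp only [hir, false_or, true_and]
    rw [lab_iff A _ _ hq, lev_iff A _ hq]
    have hgk : g q ((B.pol v₁ i).eval (A.nd p q)) = !(h q) := by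
      rw [hg]
      exact if_pos ⟨rfl, rfl⟩
    rw [hgk]
    cases A.bit p q <;> cases h q <;> simp

/-- labels equal: `A` first, unlocked -/
private lemma do_core (A : Side d H V X) (B : Side d H V Y) {p p' : X} {v v' : Y} (hv : v ≠ v')
    {q i : ℕ} (hq : Dif A.bit p p' q) (hi : ∀ j < i, B.pol v j = B.pol v' j)
    (hi' : B.pol v i ≠ B.pol v' i)
    (hl : (B.pol v i).eval (A.nd p q) = (B.pol v' i).eval (A.nd p q)) (e : ℕ → Bool) (β : Bool) :
    ∃ ρ ∈ DD A B, (∀ a b : X × Y, a.1 ≠ b.1 → (ρ a b ↔ lev A e a.1 b.1)) ∧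
      (ρ (p, v) (p, v') ↔ β = true) ∧ ¬ (ρ (p, v) (p, v') ↔ ρ (p', v) (p', v')) := by
  obtain ⟨hE, r, hr, t, ht⟩ := unlock A B hq hi hi' hl
  obtain ⟨σ, hσ⟩ : ∃ σ, (po B (A.pt (A.co q) p) r t σ v v' ↔ β = true) := by
    by_cases h1 : (po B (A.pt (A.co q) p) r t true v v' ↔ β = true)
    · exact ⟨true, h1⟩
    · refine ⟨false, ?_⟩
      have h2 := po_not B (A.pt (A.co q) p) r t true hv
      rw [Bool.not_true] at h2
      rw [h2]
      by_cases h3 : po B (A.pt (A.co q) p) r t true v v'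
      · cases β
        · simpa using h3
        · exact absurd (iff_of_true h3 rfl) h1
      · cases β
        · exact absurd (iff_of_false h3 (by simp)) h1
        · simpa using h3
  have hir : ∀ x, ¬ lev A e x x := (lev_sto A e).irr
  have hev : ∀ x : X, (xf (lev A e) (fun x => po B (A.pt (A.co q) x) r t σ) (x, v) (x, v') ↔
      po B (A.pt (A.co q) x) r t σ v v') := by
    intro x
    show lev A e x x ∨ (x = x ∧ po B (A.pt (A.co q) x) r t σ v v') ↔ _
    simp only [hir x, false_or, true_and]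
  refine ⟨xf (lev A e) (fun x => po B (A.pt (A.co q) x) r t σ),
    Or.inr (Or.inl ⟨A.co q, hE, r, hr, t, e, σ, rfl⟩), ?_, ?_, ?_⟩
  · intro a b hab
    show lev A e a.1 b.1 ∨ (a.1 = b.1 ∧ _) ↔ _
    simp only [hab, false_and, or_false]
  · rw [hev p]
    exact hσ
  · rw [hev p, hev p']
    have h1 := ht σ
    rw [h1]
    exact fun hc => iff_not_self hc.symm

private lemma uc_y {B : Side d H V Y} {e : ℕ → Bool} {ρ : Rel (X × Y)}
    (h : ∀ a b : X × Y, a.2 ≠ b.2 → (ρ a b ↔ lev B e a.2 b.2)) {v v' : Y} (hv : v ≠ v')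
    (x1 x2 x3 x4 : X) : UC ρ (x1, v) (x2, v) (x3, v') (x4, v') := by
  rcases (lev_sto B e).tot v v' hv with h1 | h1
  · exact Or.inl ⟨(h _ _ hv).2 h1, (h _ _ hv).2 h1, (h _ _ hv).2 h1, (h _ _ hv).2 h1⟩
  · exact Or.inr ⟨(h _ _ hv.symm).2 h1, (h _ _ hv.symm).2 h1, (h _ _ hv.symm).2 h1,
      (h _ _ hv.symm).2 h1⟩

private lemma uc_x {A : Side d H V X} {e : ℕ → Bool} {ρ : Rel (X × Y)}
    (h : ∀ a b : X × Y, a.1 ≠ b.1 → (ρ a b ↔ lev A e a.1 b.1)) {p p' : X} (hp : p ≠ p')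
    (y1 y2 y3 y4 : Y) : UC ρ (p, y1) (p, y2) (p', y3) (p', y4) := by
  rcases (lev_sto A e).tot p p' hp with h1 | h1
  · exact Or.inl ⟨(h _ _ hp).2 h1, (h _ _ hp).2 h1, (h _ _ hp).2 h1, (h _ _ hp).2 h1⟩
  · exact Or.inr ⟨(h _ _ hp.symm).2 h1, (h _ _ hp.symm).2 h1, (h _ _ hp.symm).2 h1,
      (h _ _ hp.symm).2 h1⟩

private lemma first_index (B : Side d H V Y) {v v' : Y} (hv : v ≠ v') :
    ∃ i < B.m, (∀ j < i, B.pol v j = B.pol v' j) ∧ B.pol v i ≠ B.pol v' i := by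
  classical
  have h1 : ∃ i, B.pol v i ≠ B.pol v' i := by
    by_contra hc
    push Not at hc
    exact hv (B.pol_inj (funext hc))
  refine ⟨Nat.find h1, ?_, fun j hj => ?_, Nat.find_spec h1⟩
  · by_contra hc
    exact Nat.find_spec h1 (by rw [B.pol_out _ _ (not_lt.mp hc), B.pol_out _ _ (not_lt.mp hc)])
  · by_contra hc
    exact Nat.find_min h1 hj hc

theorem N4 (A : Side d H V X) (B : Side d H V Y) {p p' : X} {v v' : Y} (hp : p ≠ p')
    (hv : v ≠ v') (S : Finset (X × Y)) (ha : (p, v) ∈ S) (hb : (p, v') ∈ S) (hc : (p', v) ∈ S)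
    (he : (p', v') ∈ S) :
    4 ≤ cnt {r | r ∈ DD A B ∧ NL r (p, v) (p, v') (p', v) (p', v')} S := by
  obtain ⟨q, hq⟩ := exists_dif A.bit_inj hp
  obtain ⟨i, him, hi, hi'⟩ := first_index B hv
  by_cases hl : (B.pol v i).eval (A.nd p q) = (B.pol v' i).eval (A.nd p q)
  · refine four_le (p, v) (p', v) (p, v) (p, v') ha hc ha hb fun β0 β1 => ?_
    obtain ⟨e, he1⟩ := lev_pair A hp β0
    obtain ⟨ρ, hρ, h1, h2, h3⟩ := do_core A B hv hq hi hi' hl e β1
    exact ⟨ρ, ⟨hρ, Or.inl ⟨uc_x h1 hp v v' v v', h3⟩⟩, (h1 (p, v) (p', v) hp).trans he1, h2⟩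
  · refine four_le (p, v) (p, v') (p, v) (p', v) ha hb ha hc fun β0 β1 => ?_
    obtain ⟨e, he1⟩ := lev_pair B hv β0
    obtain ⟨h, hh⟩ := lev_pair A hp β1
    obtain ⟨ρ, hρ, h1, h2, h3⟩ := dl_core A B hq him hl e h
    have h4 := h2 p p' (Or.inl rfl) hp
    refine ⟨ρ, ⟨hρ, Or.inr ⟨uc_y h1 hv p p' p p', ?_⟩⟩, (h1 (p, v) (p, v') hv).trans he1,
      h4.trans hh⟩
    rw [h4, h3]
    exact iff_not_self

private lemma N5_diff (A : Side d H V X) (B : Side d H V Y) {p p' : X} {v₀ v₁ : Y} (hp : p ≠ p')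
    (hv : v₀ ≠ v₁) {q i : ℕ} (hq : Dif A.bit p p' q) (him : i < B.m)
    (hl : (B.pol v₀ i).eval (A.nd p q) ≠ (B.pol v₁ i).eval (A.nd p q))
    (O : Set (Rel (X × Y)))
    (hO : ∀ ρ ∈ DD A B, UC ρ (p, v₀) (p', v₀) (p, v₁) (p', v₁) →
      ¬ (ρ (p, v₀) (p', v₀) ↔ ρ (p, v₁) (p', v₁)) → ρ ∈ O)
    (S : Finset (X × Y)) (ha : (p, v₀) ∈ S) (hb : (p, v₁) ∈ S)
    (hc : (p', v₀) ∈ S) {x : X} (hx : (x, v₀) ∈ S) (h1 : x ≠ p) (h2 : x ≠ p') :
    8 ≤ cnt O S := by
  obtain ⟨u, w, u', w', hu, hw, hu', hw', huw, huw', H⟩ := lev_three A hp h1.symm h2.symm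
  have hm : ∀ z : X, (z = p ∨ z = p' ∨ z = x) → (z, v₀) ∈ S := by
    rintro z (rfl | rfl | rfl) <;> assumption
  have hcov : ∀ z z' : X, (z = p ∨ z = p' ∨ z = x) → (z' = p ∨ z' = p' ∨ z' = x) → z ≠ z' →
      (z = p ∨ z = p' ∨ z' = p ∨ z' = p') := by
    rintro z z' hz hz' hzz
    rcases hz with h | h | h
    · exact Or.inl h
    · exact Or.inr (Or.inl h)
    · rcases hz' with h' | h' | h'
      · exact Or.inr (Or.inr (Or.inl h'))
      · exact Or.inr (Or.inr (Or.inr h'))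
      · exact absurd (h.trans h'.symm) hzz
  refine eight_le (p, v₀) (p, v₁) (u, v₀) (w, v₀) (u', v₀) (w', v₀) ha hb (hm u hu) (hm w hw)
    (hm u' hu') (hm w' hw') fun β0 β1 β2 => ?_
  obtain ⟨e, he1⟩ := lev_pair B hv β0
  obtain ⟨h, hh, hh'⟩ := H β1 β2
  obtain ⟨ρ, hρ, g1, g2, g3⟩ := dl_core A B hq him hl e h
  have g4 := g2 p p' (Or.inl rfl) hp
  refine ⟨ρ, hO ρ hρ (uc_y g1 hv p p' p p') ?_, (g1 (p, v₀) (p, v₁) hv).trans he1,
    (g2 u w (hcov u w hu hw huw) huw).trans hh,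
    (g2 u' w' (hcov u' w' hu' hw' huw') huw').trans hh'⟩
  rw [g4, g3]
  exact iff_not_self

private lemma uc_symm {Z : Type} {r : Rel Z} {a b c e : Z} (h : UC r a b c e) : UC r c e a b := by
  rcases h with ⟨h1, h2, h3, h4⟩ | ⟨h1, h2, h3, h4⟩
  · exact Or.inr ⟨h1, h3, h2, h4⟩
  · exact Or.inl ⟨h1, h3, h2, h4⟩

theorem N5 (A : Side d H V X) (B : Side d H V Y) {p p' : X} {v v' : Y} (hp : p ≠ p')
    (hv : v ≠ v') (S : Finset (X × Y)) (ha : (p, v) ∈ S) (hb : (p, v') ∈ S) (hc : (p', v) ∈ S)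
    (he : (p', v') ∈ S) {x : X} {y : Y} (hx : (x, y) ∈ S) (h1 : x ≠ p) (h2 : x ≠ p') :
    8 ≤ cnt {r | r ∈ DD A B ∧ NL r (p, v) (p, v') (p', v) (p', v')} S := by
  obtain ⟨q, hq⟩ := exists_dif A.bit_inj hp
  obtain ⟨i, him, hi, hi'⟩ := first_index B hv
  by_cases hl : (B.pol v i).eval (A.nd p q) = (B.pol v' i).eval (A.nd p q)
  · -- labels equal
    obtain ⟨u, w, u', w', hu, hw, hu', hw', huw, huw', H⟩ := lev_three A hp h1.symm h2.symm
    have hm : ∀ z : X, (z = p ∨ z = p' ∨ z = x) → ∃ y' : Y, (z, y') ∈ S := by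
      rintro z (rfl | rfl | rfl)
      · exact ⟨v, ha⟩
      · exact ⟨v, hc⟩
      · exact ⟨y, hx⟩
    obtain ⟨yu, hyu⟩ := hm u hu
    obtain ⟨yw, hyw⟩ := hm w hw
    obtain ⟨yu', hyu'⟩ := hm u' hu'
    obtain ⟨yw', hyw'⟩ := hm w' hw'
    refine eight_le (p, v) (p, v') (u, yu) (w, yw) (u', yu') (w', yw') ha hb hyu hyw hyu' hyw'
      fun β0 β1 β2 => ?_
    obtain ⟨e, he1, he2⟩ := H β1 β2
    obtain ⟨ρ, hρ, g1, g2, g3⟩ := do_core A B hv hq hi hi' hl e β0
    exact ⟨ρ, ⟨hρ, Or.inl ⟨uc_x g1 hp v v' v v', g3⟩⟩, g2,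
      (g1 (u, yu) (w, yw) huw).trans he1, (g1 (u', yu') (w', yw') huw').trans he2⟩
  · by_cases hy : y = v
    · subst hy
      exact N5_diff A B hp hv hq him hl
        {r | r ∈ DD A B ∧ NL r (p, y) (p, v') (p', y) (p', v')}
        (fun ρ hρ g1 g2 => ⟨hρ, Or.inr ⟨g1, g2⟩⟩) S ha hb hc hx h1 h2
    by_cases hy' : y = v'
    · subst hy'
      exact N5_diff A B hp hv.symm hq him (Ne.symm hl)
        {r | r ∈ DD A B ∧ NL r (p, v) (p, y) (p', v) (p', y)}
        (fun ρ hρ g1 g2 => ⟨hρ, Or.inr ⟨uc_symm g1, fun h => g2 h.symm⟩⟩) S hb ha he hx h1 h2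
    · -- three points of `B`
      obtain ⟨u, w, u', w', hu, hw, hu', hw', huw, huw', H⟩ :=
        lev_three B hv (Ne.symm hy) (Ne.symm hy')
      have hm : ∀ z : Y, (z = v ∨ z = v' ∨ z = y) → ∃ x' : X, (x', z) ∈ S := by
        rintro z (rfl | rfl | rfl)
        · exact ⟨p, ha⟩
        · exact ⟨p, hb⟩
        · exact ⟨x, hx⟩
      obtain ⟨xu, hxu⟩ := hm u hu
      obtain ⟨xw, hxw⟩ := hm w hw
      obtain ⟨xu', hxu'⟩ := hm u' hu'
      obtain ⟨xw', hxw'⟩ := hm w' hw'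
      refine eight_le (p, v) (p', v) (xu, u) (xw, w) (xu', u') (xw', w') ha hc hxu hxw hxu' hxw'
        fun β0 β1 β2 => ?_
      obtain ⟨e, he1, he2⟩ := H β1 β2
      obtain ⟨h, hh⟩ := lev_pair A hp β0
      obtain ⟨ρ, hρ, g1, g2, g3⟩ := dl_core A B hq him hl e h
      have g4 := g2 p p' (Or.inl rfl) hp
      refine ⟨ρ, ⟨hρ, Or.inr ⟨uc_y g1 hv p p' p p', ?_⟩⟩, g4.trans hh,
        (g1 (xu, u) (xw, w) huw).trans he1, (g1 (xu', u') (xw', w') huw').trans he2⟩
      rw [g4, g3]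
      exact iff_not_self

end Pool.Agent.H14.SX
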