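import Mathlib
import Pool.Agent.H14.SX.Defs
import Pool.Agent.H14.SX.Cnt
import Pool.Agent.H14.SX.Sto
import Pool.Agent.H14.SX.Unlock

/-!
# A rectangle, and a rectangle with one more point

Rectangle `a = (p,v), b = (p,v'), c = (p',v), e = (p',v')`, `p ≠ p'`, `v ≠ v'`; `q` = first bit
at which `p, p'` differ.
* `V4`: `DL A B 0` with a `g` which does not depend on the label (if `B.m = 0` there is only one
  polynomial tuple, so `v = v'` by `pol_inj`, impossible; so `0 < B.m`): signs of `v | v'` and of
  `p | p'`: 4 patterns with `VL`.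
* `N4`: let `i` be the first index at which the polynomials of `v, v'` differ (`i < B.m`).  If the
  labels at the node `A.nd p q` differ: `DL A B i` with independent signs of `p | p'` over `v` and
  over `v'`: the 4 patterns with opposite signs are `NL` (second alternative).  If they agree:
  `unlock`, the level sign at `q` and the global sign: 4 patterns which are `NL` (first
  alternative).
* `V5`: one more point `(x, y)`.  If `y ≠ v, v'`: three different points of `B`, tree with two
  different levels (`exists_three`), so 4 patterns on `{v, v', y}` (seen at `(p,v), (p,v'), (x,y)`)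
  times the sign of `p | p'` over `v`.  If `y = v` (or `v'`): then `x ≠ p, p'`, and over `y` we see
  three different points `p, p', x` of `A`, two levels, 4 patterns, times the sign of `v | v'`.
* `N5` (with `x ≠ p, p'`).  Labels different: as in `V5` with opposite signs of `p | p'` over `v`
  and over `v'`: if `y ≠ v, v'`: 4 patterns on `{v, v', y}` times the sign over `v`.  If `y = v`:
  sign of `v | v'`, the two nodes of the tree of `p, p', x` over `v` (their keys have different bit
  positions, hence they are different; and the key of the node of `p, p'` over `v'` is different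
  from both): 8 patterns.  Same for `y = v'`.
  Labels equal: `unlock`: `A` first, three points `p, p', x` with two levels (4 patterns) times
  the global sign: 8 patterns.
-/

set_option autoImplicit false

namespace Pool.Agent.H14.SX

variable {d : ℕ} {H V : ℤ} {X Y : Type}

/-- the orders `B` first, then `A`, level signs -/
private def RV (A : Side d H V X) (B : Side d H V Y) (e g : ℕ → Bool) : Rel (X × Y) :=
  yf (lev B e) (fun _ => lev A g)

private lemma pos_m (B : Side d H V Y) {v v' : Y} (hv : v ≠ v') : 0 < B.m := by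
  by_contra h
  apply hv
  apply B.pol_inj
  funext i
  rw [B.pol_out v i (by omega), B.pol_out v' i (by omega)]

private lemma RV_mem (A : Side d H V X) (B : Side d H V Y) (hB : 0 < B.m) (e g : ℕ → Bool) :
    RV A B e g ∈ DD A B :=
  Or.inl ⟨0, hB, e, fun q _ => g q, rfl⟩

private lemma RV_ne (A : Side d H V X) (B : Side d H V Y) (e g : ℕ → Bool) {a b : X × Y}
    {q : ℕ} (h : Dif B.bit a.2 b.2 q) :
    RV A B e g a b ↔ xor (B.bit a.2 q) (e q) = false := by
  have hne : a.2 ≠ b.2 := by
    intro h1
    rw [h1] at h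
    exact h.2 rfl
  rw [← lev_iff B e h]
  constructor
  · rintro (h1 | ⟨h1, -⟩)
    · exact h1
    · exact absurd h1 hne
  · exact Or.inl

private lemma RV_eq (A : Side d H V X) (B : Side d H V Y) (e g : ℕ → Bool) {a b : X × Y}
    (hab : a.2 = b.2) {q : ℕ} (h : Dif A.bit a.1 b.1 q) :
    RV A B e g a b ↔ xor (A.bit a.1 q) (g q) = false := by
  rw [← lev_iff A g h]
  constructor
  · rintro (h1 | ⟨-, h1⟩)
    · rw [hab] at h1
      exact absurd h1 ((lev_sto B e).irr _)
    · exact h1
  · exact fun h1 => Or.inr ⟨hab, h1⟩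

private lemma RV_VL (A : Side d H V X) (B : Side d H V Y) (e g : ℕ → Bool) {p p' : X} {v v' : Y}
    (hv : v ≠ v') : VL (RV A B e g) (p, v) (p, v') (p', v) (p', v') := by
  constructor
  · rcases (lev_sto B e).tot v v' hv with h | h
    · exact Or.inl ⟨Or.inl h, Or.inl h, Or.inl h, Or.inl h⟩
    · exact Or.inr ⟨Or.inl h, Or.inl h, Or.inl h, Or.inl h⟩
  · constructor
    · rintro (h | ⟨-, h⟩)
      · exact absurd h ((lev_sto B e).irr _)
      · exact Or.inr ⟨rfl, h⟩
    · rintro (h | ⟨-, h⟩)
      · exact absurd h ((lev_sto B e).irr _)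
      · exact Or.inr ⟨rfl, h⟩

private lemma xbool (b c : Bool) : xor b (xor b (!c)) = false ↔ c = true := by
  cases b <;> cases c <;> simp

theorem V4 (A : Side d H V X) (B : Side d H V Y) {p p' : X} {v v' : Y} (hp : p ≠ p')
    (hv : v ≠ v') (S : Finset (X × Y)) (ha : (p, v) ∈ S) (hb : (p, v') ∈ S) (hc : (p', v) ∈ S)
    (he : (p', v') ∈ S) :
    4 ≤ cnt {r | r ∈ DD A B ∧ VL r (p, v) (p, v') (p', v) (p', v')} S := by
  obtain ⟨qA, hA⟩ := exists_dif A.bit_inj hp
  obtain ⟨qB, hB⟩ := exists_dif B.bit_inj hv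
  have h1 := two_pow_le_cnt (S := S)
    (O := {r | r ∈ DD A B ∧ VL r (p, v) (p, v') (p', v) (p', v')}) (m := 2)
    ![(p, v), (p, v)] ![(p, v'), (p', v)]
    (by intro i; fin_cases i <;> simpa using ha)
    (by
      intro i
      fin_cases i
      · simpa using hb
      · simpa using hc) ?_
  · simpa using h1
  · intro β
    refine ⟨RV A B (fun _ => xor (B.bit v qB) (!β 0)) (fun _ => xor (A.bit p qA) (!β 1)),
      ⟨RV_mem A B (pos_m B hv) _ _, RV_VL A B _ _ hv⟩, ?_⟩
    intro i
    fin_cases i
    · change RV A B _ _ (p, v) (p, v') ↔ β 0 = true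
      rw [RV_ne A B _ _ (q := qB) hB]
      exact xbool _ _
    · change RV A B _ _ (p, v) (p', v) ↔ β 1 = true
      rw [RV_eq A B _ _ (a := (p, v)) (b := (p', v)) rfl (q := qA) hA]
      exact xbool _ _

private lemma two_pairs {W : Type} {z : W → ℕ → Bool} (hz : Function.Injective z) {a b c : W}
    (hab : a ≠ b) (hac : a ≠ c) (hbc : b ≠ c) (T : W → Prop) (ha : T a) (hb : T b) (hc : T c) :
    ∃ q q' u w u' w', q ≠ q' ∧ T u ∧ T w ∧ T u' ∧ T w' ∧ Dif z u w q ∧ Dif z u' w' q' := by
  obtain ⟨q, q', hq, h | h | h⟩ := exists_three hz hab hac hbc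
  · exact ⟨q, q', a, b, b, c, hq.ne, ha, hb, hb, hc, h.1, h.2.2⟩
  · exact ⟨q, q', b, a, a, c, hq.ne, hb, ha, ha, hc, h.1, h.2.2⟩
  · exact ⟨q, q', c, a, a, b, hq.ne, hc, ha, ha, hb, h.1, h.2.2⟩

theorem V5 (A : Side d H V X) (B : Side d H V Y) {p p' : X} {v v' : Y} (hp : p ≠ p')
    (hv : v ≠ v') (S : Finset (X × Y)) (ha : (p, v) ∈ S) (hb : (p, v') ∈ S) (hc : (p', v) ∈ S)
    (he : (p', v') ∈ S) {x : X} {y : Y} (hx : (x, y) ∈ S)
    (hne : (x ≠ p ∧ x ≠ p') ∨ (y ≠ v ∧ y ≠ v')) :
    8 ≤ cnt {r | r ∈ DD A B ∧ VL r (p, v) (p, v') (p', v) (p', v')} S := by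
  by_cases hy : y ≠ v ∧ y ≠ v'
  · obtain ⟨qA, hA⟩ := exists_dif A.bit_inj hp
    obtain ⟨q, q', u, w, u', w', hqq, ⟨tu, hu⟩, ⟨tw, hw⟩, ⟨tu', hu'⟩, ⟨tw', hw'⟩, h1, h2⟩ :=
      two_pairs B.bit_inj hv hy.1.symm hy.2.symm (fun u => ∃ t, (t, u) ∈ S)
        ⟨p, ha⟩ ⟨p, hb⟩ ⟨x, hx⟩
    have h3 := two_pow_le_cnt (S := S)
      (O := {r | r ∈ DD A B ∧ VL r (p, v) (p, v') (p', v) (p', v')}) (m := 3)
      ![(tu, u), (tu', u'), (p, v)] ![(tw, w), (tw', w'), (p', v)]
      (by
        intro i
        fin_cases i
        · simpa using hu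
        · simpa using hu'
        · simpa using ha)
      (by
        intro i
        fin_cases i
        · simpa using hw
        · simpa using hw'
        · simpa using hc) ?_
    · simpa using h3
    · intro β
      refine ⟨RV A B (fun n => if n = q then xor (B.bit u q) (!β 0) else
        xor (B.bit u' q') (!β 1)) (fun _ => xor (A.bit p qA) (!β 2)),
        ⟨RV_mem A B (pos_m B hv) _ _, RV_VL A B _ _ hv⟩, ?_⟩
      intro i
      fin_cases i
      · change RV A B _ _ (tu, u) (tw, w) ↔ β 0 = true
        rw [RV_ne A B _ _ (q := q) h1, if_pos rfl]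
        exact xbool _ _
      · change RV A B _ _ (tu', u') (tw', w') ↔ β 1 = true
        rw [RV_ne A B _ _ (q := q') h2, if_neg hqq.symm]
        exact xbool _ _
      · change RV A B _ _ (p, v) (p', v) ↔ β 2 = true
        rw [RV_eq A B _ _ (a := (p, v)) (b := (p', v)) rfl (q := qA) hA]
        exact xbool _ _
  · have hxp : x ≠ p ∧ x ≠ p' := by
      rcases hne with h | h
      · exact h
      · exact absurd h hy
    have hyy : y = v ∨ y = v' := by
      by_contra hcon
      push Not at hcon
      exact hy hcon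
    have hpy : (p, y) ∈ S := by
      rcases hyy with h | h
      · rw [h]
        exact ha
      · rw [h]
        exact hb
    have hpy' : (p', y) ∈ S := by
      rcases hyy with h | h
      · rw [h]
        exact hc
      · rw [h]
        exact he
    obtain ⟨qB, hB⟩ := exists_dif B.bit_inj hv
    obtain ⟨q, q', u, w, u', w', hqq, hu, hw, hu', hw', h1, h2⟩ :=
      two_pairs A.bit_inj hp hxp.1.symm hxp.2.symm (fun u => (u, y) ∈ S) hpy hpy' hx
    have h3 := two_pow_le_cnt (S := S)
      (O := {r | r ∈ DD A B ∧ VL r (p, v) (p, v') (p', v) (p', v')}) (m := 3)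
      ![(u, y), (u', y), (p, v)] ![(w, y), (w', y), (p, v')]
      (by
        intro i
        fin_cases i
        · simpa using hu
        · simpa using hu'
        · simpa using ha)
      (by
        intro i
        fin_cases i
        · simpa using hw
        · simpa using hw'
        · simpa using hb) ?_
    · simpa using h3
    · intro β
      refine ⟨RV A B (fun _ => xor (B.bit v qB) (!β 2)) (fun n => if n = q then
        xor (A.bit u q) (!β 0) else xor (A.bit u' q') (!β 1)),
        ⟨RV_mem A B (pos_m B hv) _ _, RV_VL A B _ _ hv⟩, ?_⟩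
      intro i
      fin_cases i
      · change RV A B _ _ (u, y) (w, y) ↔ β 0 = true
        rw [RV_eq A B _ _ (a := (u, y)) (b := (w, y)) rfl (q := q) h1, if_pos rfl]
        exact xbool _ _
      · change RV A B _ _ (u', y) (w', y) ↔ β 1 = true
        rw [RV_eq A B _ _ (a := (u', y)) (b := (w', y)) rfl (q := q') h2, if_neg hqq.symm]
        exact xbool _ _
      · change RV A B _ _ (p, v) (p, v') ↔ β 2 = true
        rw [RV_ne A B _ _ (q := qB) hB]
        exact xbool _ _

private lemma not_UC_UC {r : Rel X} (hr : STO r) {a b c e : X} (h : UC r a b c e)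
    (h' : UC r a c b e) : False := by
  have hasym : ∀ {s t : X}, r s t → r t s → False := fun h1 h2 => hr.irr _ (hr.trans _ _ _ h1 h2)
  rcases h with ⟨h1, h2, h3, h4⟩ | ⟨h1, h2, h3, h4⟩
  · rcases h' with ⟨g1, g2, g3, g4⟩ | ⟨g1, g2, g3, g4⟩
    · exact hasym h3 g3
    · exact hasym h2 g2
  · rcases h' with ⟨g1, g2, g3, g4⟩ | ⟨g1, g2, g3, g4⟩
    · exact hasym h2 g2
    · exact hasym h3 g3

/-- the three classes exclude each other -/
theorem not_UL_of_VL {r : Rel X} (hr : STO r) {a b c e : X} (h : VL r a b c e) :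
    ¬ UL r a b c e := fun h' => not_UC_UC hr h'.1 h.1

theorem not_UL_of_NL {r : Rel X} (hr : STO r) {a b c e : X} (h : NL r a b c e) :
    ¬ UL r a b c e := by
  intro h'
  rcases h with h | h
  · exact h.2 h'.2
  · exact not_UC_UC hr h'.1 h.1

theorem not_VL_of_NL {r : Rel X} (hr : STO r) {a b c e : X} (h : NL r a b c e) :
    ¬ VL r a b c e := by
  intro h'
  rcases h with h | h
  · exact not_UC_UC hr h.1 h'.1
  · exact h.2 h'.2

end Pool.Agent.H14.SX
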