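import Mathlib
import Pool.Agent.H14.SX.Defs
import Pool.Agent.H14.SX.Cnt
import Pool.Agent.H14.SX.Sto
import Pool.Agent.H14.SX.Unlock

/-!
# The 3 x 2 grid: `A` first

Tree `z1 | z2 z3` with levels `q1 < q2` (the bit positions of the two differences).
Every order of `DN A B` and of `DO A B c r t` compares `A` first by `lev A e`; the signs `e q1`,
`e q2` are free.  `DN`: the third free sign is the sign of `w | w'` (level sign of `B`), the same
over `z1, z2, z3`: 8 patterns with constant `(o1, o2, o3)`, where `oj` is the truth value of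
`(zj, w) < (zj, w')`.
For a separating triple `(c, r, t)` the orders `DO A B c r t` give 8 patterns (signs `e q1`, `e q2`
and `σ`, by `po_not` reversing `σ` reverses `(o1, o2, o3)`) with non-constant `(o1, o2, o3)`:
16 patterns (`gridA1`).
If all three pairs are separated: let `K1` be the class (up to reversal) of `(o1,o2,o3)` of a
triple which separates `z1, z2`.  Among `o1, o2, o3` two are equal, so `K1` does not separate
one of the pairs; a triple which separates this pair gives another class `K2`.  Constant, `K1`,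
`K2`: 24 patterns (`gridA2`), e.g. `le_cnt` with `ι = Fin 3 × Bool × Bool × Bool`.
-/

set_option autoImplicit false

namespace Pool.Agent.H14.SX

variable {d : ℕ} {H V : ℤ} {X Y : Type}

/-- some derivative order separates `x` and `x'` (with respect to the pair `w, w'`) -/
def Sep (A : Side d H V X) (B : Side d H V Y) (w w' : Y) (x x' : X) : Prop :=
  ∃ c < A.E, ∃ r ≤ d, ∃ t, ∀ σ,
    (po B (A.pt c x) r t σ w w' ↔ ¬ po B (A.pt c x') r t σ w w')

private lemma ga_ne {z : X → ℕ → Bool} {x y : X} {q : ℕ} (h : Dif z x y q) : x ≠ y := by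
  rintro rfl
  exact h.2 rfl

private lemma ga_bool (z b b' : Bool) (h : (xor z b = false) ↔ (xor z b' = false)) : b = b' := by
  revert h
  cases z <;> cases b <;> cases b' <;> decide

private lemma ga_bool2 (b b' : Bool) (h : ¬ b = b') : b' = !b := by
  revert h
  cases b <;> cases b' <;> decide

private lemma ga_core {κ : Type} [Fintype κ] (A : Side d H V X) (B : Side d H V Y)
    {z1 z2 z3 : X} {w w' : Y} {q1 q2 : ℕ}
    (hq : q1 < q2) (h12 : Dif A.bit z1 z2 q1)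
    (h23 : Dif A.bit z2 z3 q2) (S : Finset (X × Y))
    (m1 : (z1, w) ∈ S) (m1' : (z1, w') ∈ S) (m2 : (z2, w) ∈ S) (m2' : (z2, w') ∈ S)
    (m3 : (z3, w) ∈ S) (m3' : (z3, w') ∈ S)
    (s : κ → Bool → X → Rel Y)
    (hs : ∀ k σ e, xf (lev A e) (s k σ) ∈ DD A B)
    (hn : ∀ k σ, (s k (!σ) z1 w w' ↔ ¬ s k σ z1 w w'))
    (hk : ∀ k k' σ σ', k ≠ k' → ¬ ((s k σ z1 w w' ↔ s k' σ' z1 w w') ∧
      (s k σ z2 w w' ↔ s k' σ' z2 w w') ∧ (s k σ z3 w w' ↔ s k' σ' z3 w w'))) :
    Fintype.card (κ × Bool × Bool × Bool) ≤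
      cnt {r | r ∈ DD A B ∧ UC r (z1, w) (z1, w') (z2, w) (z2, w')} S := by
  classical
  have n12 := ga_ne h12
  have n23 := ga_ne h23
  refine le_cnt (fun t : κ × Bool × Bool × Bool =>
    xf (lev A (fun q => if q = q1 then t.2.1 else t.2.2.1)) (s t.1 t.2.2.2)) ?_ ?_
  · rintro ⟨k, b1, b2, σ⟩
    refine ⟨hs _ _ _, ?_⟩
    rcases (lev_sto A (fun q => if q = q1 then b1 else b2)).tot z1 z2 n12 with h | h
    · exact Or.inl ⟨Or.inl h, Or.inl h, Or.inl h, Or.inl h⟩
    · exact Or.inr ⟨Or.inl h, Or.inl h, Or.inl h, Or.inl h⟩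
  · rintro ⟨k, b1, b2, σ⟩ ⟨k', b1', b2', σ'⟩ h
    simp only at h
    have hx : ∀ (e e' : ℕ → Bool) (u u' : X → Rel Y) (x x' : X), x ≠ x' →
        ((xf (lev A e) u (x, w) (x', w) ↔ xf (lev A e') u' (x, w) (x', w)) →
        (lev A e x x' ↔ lev A e' x x')) := by
      intro e e' u u' x x' hn h
      have h1 : ∀ (e : ℕ → Bool) (u : X → Rel Y),
          (xf (lev A e) u (x, w) (x', w) ↔ lev A e x x') := by
        intro e u
        constructor
        · rintro (h | h)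
          · exact h
          · exact absurd h.1 hn
        · intro h
          exact Or.inl h
      rw [← h1 e u, ← h1 e' u', h]
    have hy : ∀ (e e' : ℕ → Bool) (u u' : X → Rel Y) (x : X),
        ((xf (lev A e) u (x, w) (x, w') ↔ xf (lev A e') u' (x, w) (x, w')) →
        (u x w w' ↔ u' x w w')) := by
      intro e e' u u' x h
      have h1 : ∀ (e : ℕ → Bool) (u : X → Rel Y),
          (xf (lev A e) u (x, w) (x, w') ↔ u x w w') := by
        intro e u
        constructor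
        · rintro (h | h)
          · exact absurd h ((lev_sto A e).irr x)
          · exact h.2
        · intro h
          exact Or.inr ⟨rfl, h⟩
      rw [← h1 e u, ← h1 e' u', h]
    have a1 := hx _ _ _ _ z1 z2 n12 (h _ m1 _ m2)
    have a2 := hx _ _ _ _ z2 z3 n23 (h _ m2 _ m3)
    have o1 := hy _ _ _ _ z1 (h _ m1 _ m1')
    have o2 := hy _ _ _ _ z2 (h _ m2 _ m2')
    have o3 := hy _ _ _ _ z3 (h _ m3 _ m3')
    rw [lev_iff A _ h12, lev_iff A _ h12] at a1
    rw [lev_iff A _ h23, lev_iff A _ h23] at a2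
    simp only [if_true] at a1
    rw [if_neg (by omega), if_neg (by omega)] at a2
    have e1 : b1 = b1' := ga_bool _ _ _ a1
    have e2 : b2 = b2' := ga_bool _ _ _ a2
    have e3 : k = k' := by
      by_contra hne
      exact hk k k' σ σ' hne ⟨o1, o2, o3⟩
    subst e1
    subst e2
    subst e3
    have e4 : σ = σ' := by
      by_contra hne
      have h5 : σ' = !σ := ga_bool2 _ _ hne
      rw [h5, hn] at o1
      by_cases hp : s k σ z1 w w'
      · exact (o1.1 hp) hp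
      · exact hp (o1.2 hp)
    rw [e4]

/-- the level orders on `B` -/
private def ga_lev (B : Side d H V Y) (X : Type) (σ : Bool) : X → Rel Y :=
  fun _ => lev B (fun _ => σ)

private lemma ga_lev_not (B : Side d H V Y) {w w' : Y} (hw : w ≠ w') (x x' : X) (σ : Bool) :
    (ga_lev B X (!σ) x w w' ↔ ¬ ga_lev B X σ x' w w') := by
  obtain ⟨qw, hqw⟩ := exists_dif B.bit_inj hw
  unfold ga_lev
  rw [lev_iff B _ hqw, lev_iff B _ hqw]
  cases σ <;> cases B.bit w qw <;> simp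

private lemma ga_lev_mem (A : Side d H V X) (B : Side d H V Y) (σ : Bool) (e : ℕ → Bool) :
    xf (lev A e) (ga_lev B X σ) ∈ DD A B :=
  Or.inr (Or.inr ⟨e, fun _ => σ, rfl⟩)

private lemma ga_po_mem (A : Side d H V X) (B : Side d H V Y) {c r : ℕ} (hc : c < A.E)
    (hr : r ≤ d) (t σ : Bool) (e : ℕ → Bool) :
    xf (lev A e) (fun x => po B (A.pt c x) r t σ) ∈ DD A B :=
  Or.inr (Or.inl ⟨c, hc, r, hr, t, e, σ, rfl⟩)

theorem gridA1 (A : Side d H V X) (B : Side d H V Y) {z1 z2 z3 : X} {w w' : Y} {q1 q2 : ℕ}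
    (hq : q1 < q2) (h12 : Dif A.bit z1 z2 q1) (h13 : Dif A.bit z1 z3 q1)
    (h23 : Dif A.bit z2 z3 q2) (hw : w ≠ w') (S : Finset (X × Y))
    (m1 : (z1, w) ∈ S) (m1' : (z1, w') ∈ S) (m2 : (z2, w) ∈ S) (m2' : (z2, w') ∈ S)
    (m3 : (z3, w) ∈ S) (m3' : (z3, w') ∈ S)
    (hs : Sep A B w w' z1 z2 ∨ Sep A B w w' z1 z3 ∨ Sep A B w w' z2 z3) :
    16 ≤ cnt {r | r ∈ DD A B ∧ UC r (z1, w) (z1, w') (z2, w) (z2, w')} S := by
  classical
  obtain ⟨c, hc, r, hr, t, hsep⟩ : ∃ c < A.E, ∃ r ≤ d, ∃ t,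
      (∀ σ, (po B (A.pt c z1) r t σ w w' ↔ ¬ po B (A.pt c z2) r t σ w w')) ∨
      (∀ σ, (po B (A.pt c z1) r t σ w w' ↔ ¬ po B (A.pt c z3) r t σ w w')) ∨
      (∀ σ, (po B (A.pt c z2) r t σ w w' ↔ ¬ po B (A.pt c z3) r t σ w w')) := by
    rcases hs with ⟨c, hc, r, hr, t, h⟩ | ⟨c, hc, r, hr, t, h⟩ | ⟨c, hc, r, hr, t, h⟩
    · exact ⟨c, hc, r, hr, t, Or.inl h⟩
    · exact ⟨c, hc, r, hr, t, Or.inr (Or.inl h)⟩
    · exact ⟨c, hc, r, hr, t, Or.inr (Or.inr h)⟩
  have hne : ∀ σ σ', ¬ ((ga_lev B X σ z1 w w' ↔ po B (A.pt c z1) r t σ' w w') ∧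
      (ga_lev B X σ z2 w w' ↔ po B (A.pt c z2) r t σ' w w') ∧
      (ga_lev B X σ z3 w w' ↔ po B (A.pt c z3) r t σ' w w')) := by
    rintro σ σ' ⟨a1, a2, a3⟩
    have c2 : ga_lev B X σ z2 w w' ↔ ga_lev B X σ z1 w w' := Iff.rfl
    have c3 : ga_lev B X σ z3 w w' ↔ ga_lev B X σ z1 w w' := Iff.rfl
    rw [c2] at a2
    rw [c3] at a3
    rcases hsep with h | h | h
    · have := h σ'
      tauto
    · have := h σ'
      tauto
    · have := h σ'
      tauto
  have h := ga_core (κ := Bool) A B hq h12 h23 S m1 m1' m2 m2' m3 m3'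
    (fun k σ => if k then (fun x => po B (A.pt c x) r t σ) else ga_lev B X σ) ?_ ?_ ?_
  · simpa using h
  · intro k σ e
    cases k
    · exact ga_lev_mem A B σ e
    · exact ga_po_mem A B hc hr t σ e
  · intro k σ
    cases k
    · exact ga_lev_not B hw z1 z1 σ
    · exact po_not B _ r t σ hw
  · intro k k' σ σ' hkk
    cases k <;> cases k'
    · exact absurd rfl hkk
    · exact hne σ σ'
    · rintro ⟨a1, a2, a3⟩
      exact hne σ' σ ⟨a1.symm, a2.symm, a3.symm⟩
    · exact absurd rfl hkk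

theorem gridA2 (A : Side d H V X) (B : Side d H V Y) {z1 z2 z3 : X} {w w' : Y} {q1 q2 : ℕ}
    (hq : q1 < q2) (h12 : Dif A.bit z1 z2 q1) (h13 : Dif A.bit z1 z3 q1)
    (h23 : Dif A.bit z2 z3 q2) (hw : w ≠ w') (S : Finset (X × Y))
    (m1 : (z1, w) ∈ S) (m1' : (z1, w') ∈ S) (m2 : (z2, w) ∈ S) (m2' : (z2, w') ∈ S)
    (m3 : (z3, w) ∈ S) (m3' : (z3, w') ∈ S)
    (s12 : Sep A B w w' z1 z2) (s13 : Sep A B w w' z1 z3) (s23 : Sep A B w w' z2 z3) :
    24 ≤ cnt {r | r ∈ DD A B ∧ UC r (z1, w) (z1, w') (z2, w) (z2, w')} S := by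
  classical
  obtain ⟨c, hc, r, hr, t, h1⟩ := s12
  -- the second family
  obtain ⟨c', hc', r', hr', t', hsep⟩ : ∃ c' < A.E, ∃ r' ≤ d, ∃ t',
      ((∀ σ, (po B (A.pt c z1) r t σ w w' ↔ po B (A.pt c z3) r t σ w w')) ∧
        (∀ σ, (po B (A.pt c' z1) r' t' σ w w' ↔ ¬ po B (A.pt c' z3) r' t' σ w w'))) ∨
      ((∀ σ, (po B (A.pt c z2) r t σ w w' ↔ po B (A.pt c z3) r t σ w w')) ∧
        (∀ σ, (po B (A.pt c' z2) r' t' σ w w' ↔ ¬ po B (A.pt c' z3) r' t' σ w w'))) := by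
    have key : ∀ x x' : X, (po B (A.pt c x) r t true w w' ↔ po B (A.pt c x') r t true w w') →
        ∀ σ, (po B (A.pt c x) r t σ w w' ↔ po B (A.pt c x') r t σ w w') := by
      intro x x' h σ
      cases σ
      · have e1 := po_not B (A.pt c x) r t true hw
        have e2 := po_not B (A.pt c x') r t true hw
        have e1' : po B (A.pt c x) r t false w w' ↔ ¬ po B (A.pt c x) r t true w w' := e1
        have e2' : po B (A.pt c x') r t false w w' ↔ ¬ po B (A.pt c x') r t true w w' := e2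
        rw [e1', e2', h]
      · exact h
    by_cases h3 : (po B (A.pt c z1) r t true w w' ↔ po B (A.pt c z3) r t true w w')
    · obtain ⟨c', hc', r', hr', t', h'⟩ := s13
      exact ⟨c', hc', r', hr', t', Or.inl ⟨key z1 z3 h3, h'⟩⟩
    · obtain ⟨c', hc', r', hr', t', h'⟩ := s23
      refine ⟨c', hc', r', hr', t', Or.inr ⟨key z2 z3 ?_, h'⟩⟩
      have h4 := h1 true
      tauto
  have n01 : ∀ σ σ', ¬ ((ga_lev B X σ z1 w w' ↔ po B (A.pt c z1) r t σ' w w') ∧
      (ga_lev B X σ z2 w w' ↔ po B (A.pt c z2) r t σ' w w') ∧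
      (ga_lev B X σ z3 w w' ↔ po B (A.pt c z3) r t σ' w w')) := by
    rintro σ σ' ⟨a1, a2, a3⟩
    have c2 : ga_lev B X σ z2 w w' ↔ ga_lev B X σ z1 w w' := Iff.rfl
    rw [c2] at a2
    have := h1 σ'
    tauto
  have n02 : ∀ σ σ', ¬ ((ga_lev B X σ z1 w w' ↔ po B (A.pt c' z1) r' t' σ' w w') ∧
      (ga_lev B X σ z2 w w' ↔ po B (A.pt c' z2) r' t' σ' w w') ∧
      (ga_lev B X σ z3 w w' ↔ po B (A.pt c' z3) r' t' σ' w w')) := by
    rintro σ σ' ⟨a1, a2, a3⟩
    have c2 : ga_lev B X σ z2 w w' ↔ ga_lev B X σ z1 w w' := Iff.rfl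
    have c3 : ga_lev B X σ z3 w w' ↔ ga_lev B X σ z1 w w' := Iff.rfl
    rw [c2] at a2
    rw [c3] at a3
    rcases hsep with h | h
    · have := h.2 σ'
      tauto
    · have := h.2 σ'
      tauto
  have n12 : ∀ σ σ', ¬ ((po B (A.pt c z1) r t σ w w' ↔ po B (A.pt c' z1) r' t' σ' w w') ∧
      (po B (A.pt c z2) r t σ w w' ↔ po B (A.pt c' z2) r' t' σ' w w') ∧
      (po B (A.pt c z3) r t σ w w' ↔ po B (A.pt c' z3) r' t' σ' w w')) := by
    rintro σ σ' ⟨a1, a2, a3⟩
    rcases hsep with h | h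
    · have e1 := h.1 σ
      have e2 := h.2 σ'
      tauto
    · have e1 := h.1 σ
      have e2 := h.2 σ'
      tauto
  have h := ga_core (κ := Fin 3) A B hq h12 h23 S m1 m1' m2 m2' m3 m3'
    (fun k σ => if k = 0 then ga_lev B X σ else if k = 1 then
      (fun x => po B (A.pt c x) r t σ) else (fun x => po B (A.pt c' x) r' t' σ)) ?_ ?_ ?_
  · simpa using h
  · intro k σ e
    fin_cases k
    · exact ga_lev_mem A B σ e
    · exact ga_po_mem A B hc hr t σ e
    · exact ga_po_mem A B hc' hr' t' σ e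
  · intro k σ
    fin_cases k
    · exact ga_lev_not B hw z1 z1 σ
    · exact po_not B _ r t σ hw
    · exact po_not B _ r' t' σ hw
  · intro k k' σ σ' hkk
    fin_cases k <;> fin_cases k'
    · exact absurd rfl hkk
    · exact n01 σ σ'
    · exact n02 σ σ'
    · rintro ⟨a1, a2, a3⟩
      exact n01 σ' σ ⟨a1.symm, a2.symm, a3.symm⟩
    · exact absurd rfl hkk
    · exact n12 σ σ'
    · rintro ⟨a1, a2, a3⟩
      exact n02 σ' σ ⟨a1.symm, a2.symm, a3.symm⟩
    · rintro ⟨a1, a2, a3⟩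
      exact n12 σ' σ ⟨a1.symm, a2.symm, a3.symm⟩
    · exact absurd rfl hkk

end Pool.Agent.H14.SX
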