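import Mathlib
import Pool.Agent.H14.SX.Defs
import Pool.Agent.H14.SX.Cnt
import Pool.Agent.H14.SX.Sto

/-!
# The 3 x 2 grid: `B` first

Tree `z1 | z2 z3`: `Dif A.bit z1 z2 q1`, `Dif A.bit z1 z3 q1`, `Dif A.bit z2 z3 q2`, `q1 < q2`.
`i` = first index at which the polynomials of `w, w'` differ (`i < B.m` by `pol_out`).
Orders `yf (lev B e) (fun y => lab A (B.pol y i) g)`: free signs are `e` at the bit where `w, w'`
differ, and `g` at the keys `(q1, P_w(nd z1 q1))`, `(q1, P_w'(nd z1 q1))`, `(q2, P_w(nd z2 q2))`,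
`(q2, P_w'(nd z2 q2))`.  (Note `A.nd z1 q1 = A.nd z2 q1 = A.nd z3 q1` and `A.nd z2 q2 = A.nd z3 q2`
by `nd_pre`.)  The keys with `q1` are different from those with `q2`.  So `two_pow_le_cnt` with
`m = 5` (pairs: `(z1,w) | (z1,w')`, `(z1,w) | (z2,w)`, `(z1,w') | (z2,w')`, `(z2,w) | (z3,w)`,
`(z2,w') | (z3,w')`) if both labels differ, with `m = 4` if one of them differs, `m = 3` always.
For given sign vectors define `g` by cases on the key.  All these orders have `UC` for the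
rectangle of `z1, z2` with the columns together, because `B` comes first.
-/

set_option autoImplicit false

namespace Pool.Agent.H14.SX

variable {d : ℕ} {H V : ℤ} {X Y : Type}

private lemma gb_xor (b β : Bool) : (xor b (xor b (!β)) = false ↔ β = true) := by
  cases b <;> cases β <;> decide

private lemma gridB_aux (A : Side d H V X) (B : Side d H V Y) {z1 z2 z3 : X} {w w' : Y}
    {q1 q2 i : ℕ} (hq : q1 < q2) (h12 : Dif A.bit z1 z2 q1)
    (h23 : Dif A.bit z2 z3 q2)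
    (hi' : B.pol w i ≠ B.pol w' i) (β0 β1 β2 β3 β4 : Bool) :
    ∃ r ∈ {r | r ∈ DD A B ∧ UC r (z1, w) (z2, w) (z1, w') (z2, w')},
      (r (z1, w) (z1, w') ↔ β0 = true) ∧ (r (z1, w) (z2, w) ↔ β1 = true) ∧
      ((B.pol w i).eval (A.nd z1 q1) ≠ (B.pol w' i).eval (A.nd z1 q1) →
        (r (z1, w') (z2, w') ↔ β2 = true)) ∧
      (r (z2, w) (z3, w) ↔ β3 = true) ∧
      ((B.pol w i).eval (A.nd z2 q2) ≠ (B.pol w' i).eval (A.nd z2 q2) →
        (r (z2, w') (z3, w') ↔ β4 = true)) := by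
  classical
  have hw : w ≠ w' := by
    rintro rfl
    exact hi' rfl
  have him : i < B.m := by
    by_contra hc
    apply hi'
    rw [B.pol_out _ _ (not_lt.mp hc), B.pol_out _ _ (not_lt.mp hc)]
  obtain ⟨qw, hqw⟩ := exists_dif B.bit_inj hw
  obtain ⟨e, he⟩ : ∃ e : ℕ → Bool, e = fun _ => xor (B.bit w qw) (!β0) := ⟨_, rfl⟩
  obtain ⟨g, hg⟩ : ∃ g : ℕ → ℤ → Bool, g = fun q v =>
      if q = q1 then
        (if v = (B.pol w i).eval (A.nd z1 q1) then xor (A.bit z1 q1) (!β1)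
          else xor (A.bit z1 q1) (!β2))
      else
        (if v = (B.pol w i).eval (A.nd z2 q2) then xor (A.bit z2 q2) (!β3)
          else xor (A.bit z2 q2) (!β4)) := ⟨_, rfl⟩
  obtain ⟨ρ, hρ⟩ : ∃ ρ : Rel (X × Y), ρ = yf (lev B e) (fun y => lab A (B.pol y i) g) :=
    ⟨_, rfl⟩
  have hlev : lev B e w w' ↔ β0 = true := by
    rw [lev_iff B e hqw, he]
    exact gb_xor _ _
  have hirr : ∀ y, ¬ lev B e y y := (lev_sto B e).irr
  have hcol : ∀ (y : Y) (z z' : X), (ρ (z, y) (z', y) ↔ lab A (B.pol y i) g z z') := by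
    intro y z z'
    rw [hρ]
    constructor
    · rintro (h | h)
      · exact absurd h (hirr y)
      · exact h.2
    · intro h
      exact Or.inr ⟨rfl, h⟩
  have hrow : ∀ (z z' : X), (ρ (z, w) (z', w') ↔ lev B e w w') := by
    intro z z'
    rw [hρ]
    constructor
    · rintro (h | h)
      · exact h
      · exact absurd h.1 hw
    · intro h
      exact Or.inl h
  have hrow' : ∀ (z z' : X), lev B e w' w → ρ (z, w') (z', w) := by
    intro z z' h
    rw [hρ]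
    exact Or.inl h
  refine ⟨ρ, ⟨?_, ?_⟩, ?_, ?_, ?_, ?_, ?_⟩
  · exact Or.inl ⟨i, him, e, g, hρ⟩
  · rcases (lev_sto B e).tot w w' hw with h | h
    · exact Or.inl ⟨(hrow _ _).2 h, (hrow _ _).2 h, (hrow _ _).2 h, (hrow _ _).2 h⟩
    · exact Or.inr ⟨hrow' _ _ h, hrow' _ _ h, hrow' _ _ h, hrow' _ _ h⟩
  · rw [hrow]
    exact hlev
  · rw [hcol, lab_iff A _ g h12, hg]
    simp only [if_true]
    exact gb_xor _ _
  · intro l1
    rw [hcol, lab_iff A _ g h12, hg]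
    simp only [if_true]
    rw [if_neg (Ne.symm l1)]
    exact gb_xor _ _
  · rw [hcol, lab_iff A _ g h23, hg]
    simp only [if_true]
    rw [if_neg (by omega)]
    exact gb_xor _ _
  · intro l2
    rw [hcol, lab_iff A _ g h23, hg]
    simp only
    rw [if_neg (by omega), if_neg (Ne.symm l2)]
    exact gb_xor _ _

theorem gridB0 (A : Side d H V X) (B : Side d H V Y) {z1 z2 z3 : X} {w w' : Y} {q1 q2 i : ℕ}
    (hq : q1 < q2) (h12 : Dif A.bit z1 z2 q1) (h13 : Dif A.bit z1 z3 q1)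
    (h23 : Dif A.bit z2 z3 q2) (hi : ∀ j < i, B.pol w j = B.pol w' j)
    (hi' : B.pol w i ≠ B.pol w' i) (S : Finset (X × Y))
    (m1 : (z1, w) ∈ S) (m1' : (z1, w') ∈ S) (m2 : (z2, w) ∈ S) (m2' : (z2, w') ∈ S)
    (m3 : (z3, w) ∈ S) (m3' : (z3, w') ∈ S)
    (l1 : (B.pol w i).eval (A.nd z1 q1) ≠ (B.pol w' i).eval (A.nd z1 q1))
    (l2 : (B.pol w i).eval (A.nd z2 q2) ≠ (B.pol w' i).eval (A.nd z2 q2)) :
    32 ≤ cnt {r | r ∈ DD A B ∧ UC r (z1, w) (z2, w) (z1, w') (z2, w')} S := by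
  refine two_pow_le_cnt (m := 5)
    ![(z1, w), (z1, w), (z1, w'), (z2, w), (z2, w')]
    ![(z1, w'), (z2, w), (z2, w'), (z3, w), (z3, w')] ?_ ?_ ?_
  · intro j
    fin_cases j
    exacts [m1, m1, m1', m2, m2']
  · intro j
    fin_cases j
    exacts [m1', m2, m2', m3, m3']
  · intro β
    obtain ⟨r, hr, r0, r1, r2, r3, r4⟩ := gridB_aux A B hq h12 h23 hi' (β 0) (β 1) (β 2) (β 3) (β 4)
    refine ⟨r, hr, ?_⟩
    intro j
    fin_cases j
    exacts [r0, r1, r2 l1, r3, r4 l2]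

theorem gridB1 (A : Side d H V X) (B : Side d H V Y) {z1 z2 z3 : X} {w w' : Y} {q1 q2 i : ℕ}
    (hq : q1 < q2) (h12 : Dif A.bit z1 z2 q1) (h13 : Dif A.bit z1 z3 q1)
    (h23 : Dif A.bit z2 z3 q2) (hi : ∀ j < i, B.pol w j = B.pol w' j)
    (hi' : B.pol w i ≠ B.pol w' i) (S : Finset (X × Y))
    (m1 : (z1, w) ∈ S) (m1' : (z1, w') ∈ S) (m2 : (z2, w) ∈ S) (m2' : (z2, w') ∈ S)
    (m3 : (z3, w) ∈ S) (m3' : (z3, w') ∈ S)
    (l : (B.pol w i).eval (A.nd z1 q1) ≠ (B.pol w' i).eval (A.nd z1 q1) ∨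
      (B.pol w i).eval (A.nd z2 q2) ≠ (B.pol w' i).eval (A.nd z2 q2)) :
    16 ≤ cnt {r | r ∈ DD A B ∧ UC r (z1, w) (z2, w) (z1, w') (z2, w')} S := by
  rcases l with l | l
  · refine two_pow_le_cnt (m := 4)
      ![(z1, w), (z1, w), (z1, w'), (z2, w)]
      ![(z1, w'), (z2, w), (z2, w'), (z3, w)] ?_ ?_ ?_
    · intro j
      fin_cases j
      exacts [m1, m1, m1', m2]
    · intro j
      fin_cases j
      exacts [m1', m2, m2', m3]
    · intro β
      obtain ⟨r, hr, r0, r1, r2, r3, r4⟩ :=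
        gridB_aux A B hq h12 h23 hi' (β 0) (β 1) (β 2) (β 3) (β 3)
      refine ⟨r, hr, ?_⟩
      intro j
      fin_cases j
      exacts [r0, r1, r2 l, r3]
  · refine two_pow_le_cnt (m := 4)
      ![(z1, w), (z1, w), (z2, w), (z2, w')]
      ![(z1, w'), (z2, w), (z3, w), (z3, w')] ?_ ?_ ?_
    · intro j
      fin_cases j
      exacts [m1, m1, m2, m2']
    · intro j
      fin_cases j
      exacts [m1', m2, m3, m3']
    · intro β
      obtain ⟨r, hr, r0, r1, r2, r3, r4⟩ :=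
        gridB_aux A B hq h12 h23 hi' (β 0) (β 1) (β 1) (β 2) (β 3)
      refine ⟨r, hr, ?_⟩
      intro j
      fin_cases j
      exacts [r0, r1, r3, r4 l]

theorem gridB2 (A : Side d H V X) (B : Side d H V Y) {z1 z2 z3 : X} {w w' : Y} {q1 q2 i : ℕ}
    (hq : q1 < q2) (h12 : Dif A.bit z1 z2 q1) (h13 : Dif A.bit z1 z3 q1)
    (h23 : Dif A.bit z2 z3 q2) (hi : ∀ j < i, B.pol w j = B.pol w' j)
    (hi' : B.pol w i ≠ B.pol w' i) (S : Finset (X × Y))
    (m1 : (z1, w) ∈ S) (m1' : (z1, w') ∈ S) (m2 : (z2, w) ∈ S) (m2' : (z2, w') ∈ S)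
    (m3 : (z3, w) ∈ S) (m3' : (z3, w') ∈ S) :
    8 ≤ cnt {r | r ∈ DD A B ∧ UC r (z1, w) (z2, w) (z1, w') (z2, w')} S := by
  refine two_pow_le_cnt (m := 3)
    ![(z1, w), (z1, w), (z2, w)]
    ![(z1, w'), (z2, w), (z3, w)] ?_ ?_ ?_
  · intro j
    fin_cases j
    exacts [m1, m1, m2]
  · intro j
    fin_cases j
    exacts [m1', m2, m3]
  · intro β
    obtain ⟨r, hr, r0, r1, r2, r3, r4⟩ := gridB_aux A B hq h12 h23 hi' (β 0) (β 1) (β 1) (β 2) (β 2)
    refine ⟨r, hr, ?_⟩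
    intro j
    fin_cases j
    exacts [r0, r1, r3]

end Pool.Agent.H14.SX
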