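import Mathlib
import Pool.Agent.H14.SX.Defs
import Pool.Agent.H14.SX.Cnt
import Pool.Agent.H14.SX.Sto
import Pool.Agent.H14.SX.Unlock
import Pool.Agent.H14.SX.GridA
import Pool.Agent.H14.SX.GridB

/-!
# The 3 x 2 grid

`z1, z2, z3` pairwise different points of the side `A`, `w ≠ w'` points of the side `B`.
By `exists_three` (rename, the statement is symmetric) the tree is `z1 | z2 z3` with levels
`q1 < q2`.  Let `i` be the first index at which the polynomials of `w, w'` differ (`B.pol_inj`).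
`N1` is locked if `P_w(nd z1 q1) = P_w'(nd z1 q1)`, `N2` is locked if
`P_w(nd z2 q2) = P_w'(nd z2 q2)`; `e` = number of locked nodes.
* `e = 0`: `gridB0`.
* `e = 1`: `gridB1` (16) and `gridA1` (16; `unlock` for `z1, z2` or for `z2, z3`).
* `e = 2`: `gridB2` (8) and `gridA2` (24; `unlock` for all three pairs; `A.nd z1 q1 = A.nd z3 q1`
  is not needed, `unlock` for `z1, z3` uses the same label equality).
`A`-first and `B`-first patterns are different: `UC r a b c e` and `UC r a c b e` exclude each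
other for a strict total order (`cnt_add`, `DD_sto`).
-/

set_option autoImplicit false

namespace Pool.Agent.H14.SX

variable {d : ℕ} {H V : ℤ} {X Y : Type}

theorem not_UC_UC {r : Rel X} (hr : STO r) {a b c e : X} (h : UC r a b c e) :
    ¬ UC r a c b e := by
  intro h'
  rcases h with ⟨h1, h2, h3, h4⟩ | ⟨h1, h2, h3, h4⟩ <;>
    rcases h' with ⟨k1, k2, k3, k4⟩ | ⟨k1, k2, k3, k4⟩
  · exact hr.irr _ (hr.trans _ _ _ h3 k3)
  · exact hr.irr _ (hr.trans _ _ _ h2 k2)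
  · exact hr.irr _ (hr.trans _ _ _ h2 k2)
  · exact hr.irr _ (hr.trans _ _ _ h3 k3)

private theorem sep_of_unlock (A : Side d H V X) (B : Side d H V Y) {x x' : X} {y y' : Y} {q i : ℕ}
    (hq : Dif A.bit x x' q) (hi : ∀ j < i, B.pol y j = B.pol y' j)
    (hi' : B.pol y i ≠ B.pol y' i)
    (hl : (B.pol y i).eval (A.nd x q) = (B.pol y' i).eval (A.nd x q)) :
    Sep A B y y' x x' := by
  obtain ⟨h1, r, hr, t, h2⟩ := unlock A B hq hi hi' hl
  exact ⟨A.co q, h1, r, hr, t, h2⟩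

private theorem two_parts (A : Side d H V X) (B : Side d H V Y) {z1 z2 : X} {w w' : Y}
    (S : Finset (X × Y))
    (m1 : (z1, w) ∈ S) (m1' : (z1, w') ∈ S) (m2 : (z2, w) ∈ S) (m2' : (z2, w') ∈ S)
    {n n' : ℕ}
    (h1 : n ≤ cnt {r | r ∈ DD A B ∧ UC r (z1, w) (z2, w) (z1, w') (z2, w')} S)
    (h2 : n' ≤ cnt {r | r ∈ DD A B ∧ UC r (z1, w) (z1, w') (z2, w) (z2, w')} S) :
    n + n' ≤ cnt (DD A B) S := by
  refine (Nat.add_le_add h1 h2).trans (cnt_add (fun r hr => hr.1) (fun r hr => hr.1) ?_)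
  intro r1 hr1 r2 hr2 heq
  apply not_UC_UC (DD_sto A B r1 hr1.1) hr1.2
  have e := hr2.2
  unfold UC at e ⊢
  rw [← heq _ m1 _ m2, ← heq _ m1 _ m2', ← heq _ m1' _ m2, ← heq _ m1' _ m2',
    ← heq _ m2 _ m1, ← heq _ m2' _ m1, ← heq _ m2 _ m1', ← heq _ m2' _ m1'] at e
  exact e

private theorem gridAux (A : Side d H V X) (B : Side d H V Y) {z1 z2 z3 : X} {w w' : Y}
    {q1 q2 : ℕ} (hq : q1 < q2) (h12 : Dif A.bit z1 z2 q1) (h13 : Dif A.bit z1 z3 q1)
    (h23 : Dif A.bit z2 z3 q2) (hw : w ≠ w') (S : Finset (X × Y))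
    (m1 : (z1, w) ∈ S) (m1' : (z1, w') ∈ S) (m2 : (z2, w) ∈ S) (m2' : (z2, w') ∈ S)
    (m3 : (z3, w) ∈ S) (m3' : (z3, w') ∈ S) :
    32 ≤ cnt (DD A B) S := by
  classical
  have h1 : ∃ i, B.pol w i ≠ B.pol w' i := by
    by_contra hc
    push Not at hc
    exact hw (B.pol_inj (funext hc))
  obtain ⟨i, hi, hi'⟩ : ∃ i, (∀ j < i, B.pol w j = B.pol w' j) ∧ B.pol w i ≠ B.pol w' i := by
    refine ⟨Nat.find h1, fun j hj => ?_, Nat.find_spec h1⟩
    by_contra hc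
    exact Nat.find_min h1 hj hc
  by_cases l1 : (B.pol w i).eval (A.nd z1 q1) = (B.pol w' i).eval (A.nd z1 q1)
  · by_cases l2 : (B.pol w i).eval (A.nd z2 q2) = (B.pol w' i).eval (A.nd z2 q2)
    · exact two_parts A B S m1 m1' m2 m2' (n := 8) (n' := 24)
        (gridB2 A B hq h12 h13 h23 hi hi' S m1 m1' m2 m2' m3 m3')
        (gridA2 A B hq h12 h13 h23 hw S m1 m1' m2 m2' m3 m3'
          (sep_of_unlock A B h12 hi hi' l1) (sep_of_unlock A B h13 hi hi' l1)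
          (sep_of_unlock A B h23 hi hi' l2))
    · exact two_parts A B S m1 m1' m2 m2' (n := 16) (n' := 16)
        (gridB1 A B hq h12 h13 h23 hi hi' S m1 m1' m2 m2' m3 m3' (Or.inr l2))
        (gridA1 A B hq h12 h13 h23 hw S m1 m1' m2 m2' m3 m3'
          (Or.inl (sep_of_unlock A B h12 hi hi' l1)))
  · by_cases l2 : (B.pol w i).eval (A.nd z2 q2) = (B.pol w' i).eval (A.nd z2 q2)
    · exact two_parts A B S m1 m1' m2 m2' (n := 16) (n' := 16)
        (gridB1 A B hq h12 h13 h23 hi hi' S m1 m1' m2 m2' m3 m3' (Or.inl l1))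
        (gridA1 A B hq h12 h13 h23 hw S m1 m1' m2 m2' m3 m3'
          (Or.inr (Or.inr (sep_of_unlock A B h23 hi hi' l2))))
    · exact (gridB0 A B hq h12 h13 h23 hi hi' S m1 m1' m2 m2' m3 m3' l1 l2).trans
        (cnt_mono (fun r hr => hr.1))

theorem grid (A : Side d H V X) (B : Side d H V Y) {z1 z2 z3 : X} {w w' : Y} (h12 : z1 ≠ z2)
    (h13 : z1 ≠ z3) (h23 : z2 ≠ z3) (hw : w ≠ w') (S : Finset (X × Y))
    (m1 : (z1, w) ∈ S) (m1' : (z1, w') ∈ S) (m2 : (z2, w) ∈ S) (m2' : (z2, w') ∈ S)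
    (m3 : (z3, w) ∈ S) (m3' : (z3, w') ∈ S) :
    32 ≤ cnt (DD A B) S := by
  obtain ⟨q, q', hq, h | h | h⟩ := exists_three A.bit_inj h12 h13 h23
  · exact gridAux A B hq h.1 h.2.1 h.2.2 hw S m1 m1' m2 m2' m3 m3'
  · exact gridAux A B hq h.1 h.2.1 h.2.2 hw S m2 m2' m1 m1' m3 m3'
  · exact gridAux A B hq h.1 h.2.1 h.2.2 hw S m3 m3' m1 m1' m2 m2'

end Pool.Agent.H14.SX
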