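import Mathlib
import Pool.Agent.H14.SX.Defs
import Pool.Agent.H14.SX.Cnt
import Pool.Agent.H14.SX.Sto
import Pool.Agent.H14.SX.Grid
import Pool.Agent.H14.SX.FiveV
import Pool.Agent.H14.SX.FiveN
import Pool.Agent.H14.SX.Rank

/-!
# The induction step, part A: fibres and the counting lemmas for the single configurations
-/

set_option autoImplicit false

namespace Pool.Agent.H14.SX

open Finset

variable {d : ℕ} {H V : ℤ} {X Y : Type}

/-! ### fibres -/

open Classical in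
/-- the fibre of `S` over `p` -/
noncomputable def Fb (S : Finset (X × Y)) (p : X) : Finset Y :=
  (S.filter (fun z => z.1 = p)).image Prod.snd

open Classical in
/-- the projection of `S` -/
noncomputable def Pr (S : Finset (X × Y)) : Finset X := S.image Prod.fst

lemma mem_Fb {S : Finset (X × Y)} {p : X} {y : Y} : y ∈ Fb S p ↔ (p, y) ∈ S := by
  unfold Fb
  simp only [Finset.mem_image, Finset.mem_filter]
  constructor
  · rintro ⟨⟨a, b⟩, ⟨h1, h2⟩, h3⟩
    simp only at h2 h3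
    subst h2
    subst h3
    exact h1
  · intro h
    exact ⟨(p, y), ⟨h, rfl⟩, rfl⟩

lemma mem_Pr {S : Finset (X × Y)} {p : X} : p ∈ Pr S ↔ ∃ y, (p, y) ∈ S := by
  unfold Pr
  simp only [Finset.mem_image]
  constructor
  · rintro ⟨⟨a, b⟩, h1, h2⟩
    simp only at h2
    subst h2
    exact ⟨b, h1⟩
  · rintro ⟨y, hy⟩
    exact ⟨(p, y), hy, rfl⟩

lemma card_Fb_pos {S : Finset (X × Y)} {p : X} (h : p ∈ Pr S) : 1 ≤ (Fb S p).card := by
  obtain ⟨y, hy⟩ := mem_Pr.1 h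
  exact Finset.card_pos.2 ⟨y, mem_Fb.2 hy⟩

open Classical in
lemma card_sum (S : Finset (X × Y)) : S.card = ∑ p ∈ Pr S, (Fb S p).card := by
  unfold Pr
  rw [Finset.card_eq_sum_card_image Prod.fst S]
  refine Finset.sum_congr rfl fun p _ => ?_
  unfold Fb
  rw [Finset.card_image_of_injOn]
  rintro ⟨a, b⟩ h1 ⟨a', b'⟩ h2 h3
  have h4 : a = p := (Finset.mem_filter.1 (Finset.mem_coe.1 h1)).2
  have h5 : a' = p := (Finset.mem_filter.1 (Finset.mem_coe.1 h2)).2
  simp only at h3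
  rw [h4, h5, h3]

open Classical in
/-- the structure of the fibres: either at most one fibre is large, or exactly two, or three -/
lemma fib_cases (S : Finset (X × Y)) (hne : S.Nonempty) :
    ∃ p0 ∈ Pr S, ((∀ p ∈ Pr S, (Fb S p).card ≤ (Fb S p0).card) ∧
      S.card + 1 = (Pr S).card + (Fb S p0).card) ∨
    ∃ p1 ∈ Pr S, p1 ≠ p0 ∧ 2 ≤ (Fb S p1).card ∧ (Fb S p1).card ≤ (Fb S p0).card ∧
      (S.card + 2 = (Pr S).card + (Fb S p0).card + (Fb S p1).card ∨
      ∃ p2 ∈ Pr S, p2 ≠ p0 ∧ p2 ≠ p1 ∧ 2 ≤ (Fb S p2).card ∧ (Fb S p2).card ≤ (Fb S p1).card ∧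
        (Pr S).card + (Fb S p0).card + (Fb S p1).card + (Fb S p2).card ≤ S.card + 3) := by
  have hPne : (Pr S).Nonempty := by
    obtain ⟨z, hz⟩ := hne
    exact ⟨z.1, mem_Pr.2 ⟨z.2, hz⟩⟩
  obtain ⟨p0, hp0, hmax0⟩ := Finset.exists_max_image (Pr S) (fun p => (Fb S p).card) hPne
  have hs := card_sum S
  rw [← Finset.add_sum_erase _ _ hp0] at hs
  have hc0 : ((Pr S).erase p0).card + 1 = (Pr S).card := Finset.card_erase_add_one hp0
  refine ⟨p0, hp0, ?_⟩
  by_cases h1 : ∀ p ∈ (Pr S).erase p0, (Fb S p).card = 1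
  · left
    refine ⟨hmax0, ?_⟩
    rw [Finset.sum_congr rfl h1, Finset.sum_const, smul_eq_mul, mul_one] at hs
    omega
  · right
    push Not at h1
    obtain ⟨p1', hp1', hp1c⟩ := h1
    obtain ⟨p1, hp1, hmax1⟩ := Finset.exists_max_image ((Pr S).erase p0)
      (fun p => (Fb S p).card) ⟨p1', hp1'⟩
    have hp1P := Finset.mem_of_mem_erase hp1
    have h2 : 2 ≤ (Fb S p1).card := by
      have h3 := hmax1 p1' hp1'
      have h4 := card_Fb_pos (Finset.mem_of_mem_erase hp1')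
      omega
    refine ⟨p1, hp1P, Finset.ne_of_mem_erase hp1, h2, hmax0 p1 hp1P, ?_⟩
    rw [← Finset.add_sum_erase _ _ hp1] at hs
    have hc1 : (((Pr S).erase p0).erase p1).card + 1 = ((Pr S).erase p0).card :=
      Finset.card_erase_add_one hp1
    by_cases h3 : ∀ p ∈ ((Pr S).erase p0).erase p1, (Fb S p).card = 1
    · left
      rw [Finset.sum_congr rfl h3, Finset.sum_const, smul_eq_mul, mul_one] at hs
      omega
    · right
      push Not at h3
      obtain ⟨p2, hp2, hp2c⟩ := h3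
      have hp2' := Finset.mem_of_mem_erase hp2
      have hp2P := Finset.mem_of_mem_erase hp2'
      have h4 := card_Fb_pos hp2P
      refine ⟨p2, hp2P, Finset.ne_of_mem_erase hp2', Finset.ne_of_mem_erase hp2, by omega,
        hmax1 p2 hp2', ?_⟩
      rw [← Finset.add_sum_erase _ _ hp2] at hs
      have hc2 : ((((Pr S).erase p0).erase p1).erase p2).card + 1 =
        (((Pr S).erase p0).erase p1).card := Finset.card_erase_add_one hp2
      have h5 : ((((Pr S).erase p0).erase p1).erase p2).card ≤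
          ∑ p ∈ (((Pr S).erase p0).erase p1).erase p2, (Fb S p).card := by
        calc ((((Pr S).erase p0).erase p1).erase p2).card
            = ∑ p ∈ (((Pr S).erase p0).erase p1).erase p2, 1 := by simp
          _ ≤ _ := by
            refine Finset.sum_le_sum fun p hp => ?_
            exact card_Fb_pos (Finset.mem_of_mem_erase (Finset.mem_of_mem_erase
              (Finset.mem_of_mem_erase hp)))
      omega

/-! ### level orders on two and three points -/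

lemma lev_two (B : Side d H V Y) {y y' : Y} (h : y ≠ y') :
    ∃ e : Bool → ℕ → Bool, ∀ β, (lev B (e β) y y' ↔ β = true) := by
  obtain ⟨q, hq⟩ := exists_dif B.bit_inj h
  refine ⟨fun β _ => xor (B.bit y q) (!β), fun β => ?_⟩
  rw [lev_iff B _ hq]
  cases B.bit y q <;> cases β <;> simp

lemma lev_three (B : Side d H V Y) {a b c : Y} (hab : a ≠ b) (hac : a ≠ c) (hbc : b ≠ c) :
    ∃ u1 v1 u2 v2 : Y, (u1 = a ∨ u1 = b ∨ u1 = c) ∧ (v1 = a ∨ v1 = b ∨ v1 = c) ∧
      (u2 = a ∨ u2 = b ∨ u2 = c) ∧ (v2 = a ∨ v2 = b ∨ v2 = c) ∧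
      ∃ e : Bool → Bool → ℕ → Bool, ∀ β γ, (lev B (e β γ) u1 v1 ↔ β = true) ∧
        (lev B (e β γ) u2 v2 ↔ γ = true) := by
  obtain ⟨q, q', hqq, h⟩ := exists_three B.bit_inj hab hac hbc
  have key : ∀ u1 v1 u2 v2 : Y, Dif B.bit u1 v1 q → Dif B.bit u2 v2 q' →
      ∃ e : Bool → Bool → ℕ → Bool, ∀ β γ, (lev B (e β γ) u1 v1 ↔ β = true) ∧
        (lev B (e β γ) u2 v2 ↔ γ = true) := by
    intro u1 v1 u2 v2 h1 h2
    refine ⟨fun β γ k => if k = q then xor (B.bit u1 q) (!β) else xor (B.bit u2 q') (!γ),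
      fun β γ => ?_⟩
    rw [lev_iff B _ h1, lev_iff B _ h2]
    have h3 : q' ≠ q := by omega
    simp only [if_true, h3, if_false]
    constructor
    · cases B.bit u1 q <;> cases β <;> simp
    · cases B.bit u2 q' <;> cases γ <;> simp
  rcases h with ⟨h1, -, h3⟩ | ⟨h1, -, h3⟩ | ⟨h1, -, h3⟩
  · exact ⟨a, b, b, c, by simp, by simp, by simp, by simp, key _ _ _ _ h1 h3⟩
  · exact ⟨b, a, a, c, by simp, by simp, by simp, by simp, key _ _ _ _ h1 h3⟩
  · exact ⟨c, a, a, b, by simp, by simp, by simp, by simp, key _ _ _ _ h1 h3⟩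

/-- old orders, extended by level orders -/
def UU (B : Side d H V Y) (Tot : Set (Rel X)) : Set (Rel (X × Y)) :=
  {ρ | ∃ o ∈ Tot, ∃ e : ℕ → Bool, ρ = xf o (fun _ => lev B e)}

lemma cnt_UU1 (B : Side d H V Y) {Tot : Set (Rel X)} (hirr : ∀ r ∈ Tot, ∀ x, ¬ r x x)
    {S : Finset (X × Y)} {A : Finset X} (hA : ∀ x ∈ A, ∃ y, (x, y) ∈ S) :
    cnt Tot A ≤ cnt (UU B Tot) S := by
  have h := cnt_xf (ι := Unit) (O := Tot) (O' := UU B Tot) (S := S) (A := A)
    (fun _ _ => lev B (fun _ => false)) hirr (fun o ho _ => ⟨o, ho, _, rfl⟩) hA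
    (fun i j _ => rfl)
  simpa using h

lemma cnt_UU2 (B : Side d H V Y) {Tot : Set (Rel X)} (hirr : ∀ r ∈ Tot, ∀ x, ¬ r x x)
    {S : Finset (X × Y)} {A : Finset X} (hA : ∀ x ∈ A, ∃ y, (x, y) ∈ S) {x : X} {y y' : Y}
    (hy : y ≠ y') (h1 : (x, y) ∈ S) (h2 : (x, y') ∈ S) :
    cnt Tot A * 2 ≤ cnt (UU B Tot) S := by
  obtain ⟨e, he⟩ := lev_two B hy
  have h := cnt_xf (ι := Bool) (O := Tot) (O' := UU B Tot) (S := S) (A := A)
    (fun β _ => lev B (e β)) hirr (fun o ho _ => ⟨o, ho, _, rfl⟩) hA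
    (fun i j hij => by
      have h3 := hij x y y' h1 h2
      rw [he, he] at h3
      cases i <;> cases j <;> simp_all)
  simpa using h

lemma cnt_UU3 (B : Side d H V Y) {Tot : Set (Rel X)} (hirr : ∀ r ∈ Tot, ∀ x, ¬ r x x)
    {S : Finset (X × Y)} {A : Finset X} (hA : ∀ x ∈ A, ∃ y, (x, y) ∈ S) {x : X} {a b c : Y}
    (hab : a ≠ b) (hac : a ≠ c) (hbc : b ≠ c) (h1 : (x, a) ∈ S) (h2 : (x, b) ∈ S)
    (h3 : (x, c) ∈ S) :
    cnt Tot A * 4 ≤ cnt (UU B Tot) S := by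
  obtain ⟨u1, v1, u2, v2, hu1, hv1, hu2, hv2, e, he⟩ := lev_three B hab hac hbc
  have hm : ∀ u : Y, (u = a ∨ u = b ∨ u = c) → (x, u) ∈ S := by
    rintro u (rfl | rfl | rfl) <;> assumption
  have h := cnt_xf (ι := Bool × Bool) (O := Tot) (O' := UU B Tot) (S := S) (A := A)
    (fun β _ => lev B (e β.1 β.2)) hirr (fun o ho _ => ⟨o, ho, _, rfl⟩) hA
    (fun i j hij => by
      have h4 := hij x u1 v1 (hm _ hu1) (hm _ hv1)
      have h5 := hij x u2 v2 (hm _ hu2) (hm _ hv2)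
      simp only [(he _ _).1] at h4
      simp only [(he _ _).2] at h5
      obtain ⟨i1, i2⟩ := i
      obtain ⟨j1, j2⟩ := j
      cases i1 <;> cases i2 <;> cases j1 <;> cases j2 <;> simp_all)
  simpa using h

/-! ### the three classes for a rectangle -/

lemma UL_xf {r : Rel X} (hr : STO r) (s : Rel Y) {p p' : X} (hp : p ≠ p') (v v' : Y) :
    UL (xf r (fun _ => s)) (p, v) (p, v') (p', v) (p', v') := by
  constructor
  · rcases hr.tot p p' hp with h | h
    · left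
      exact ⟨Or.inl h, Or.inl h, Or.inl h, Or.inl h⟩
    · right
      exact ⟨Or.inl h, Or.inl h, Or.inl h, Or.inl h⟩
  · simp only [xf, true_and]
    have h1 := hr.irr p
    have h2 := hr.irr p'
    simp [h1, h2]

lemma UL_congr {r r' : Rel X} {S : Finset X} (h : ∀ x ∈ S, ∀ y ∈ S, (r x y ↔ r' x y))
    {a b c e : X} (ha : a ∈ S) (hb : b ∈ S) (hc : c ∈ S) (he : e ∈ S) (h1 : UL r a b c e) :
    UL r' a b c e := by
  simpa only [UL, UC, h a ha b hb, h a ha c hc, h a ha e he, h b hb c hc, h b hb e he,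
    h c hc a ha, h c hc b hb, h c hc e he, h e he a ha, h e he b hb, h e he c hc] using h1

lemma VL_congr {r r' : Rel X} {S : Finset X} (h : ∀ x ∈ S, ∀ y ∈ S, (r x y ↔ r' x y))
    {a b c e : X} (ha : a ∈ S) (hb : b ∈ S) (hc : c ∈ S) (he : e ∈ S) (h1 : VL r a b c e) :
    VL r' a b c e := by
  simpa only [VL, UC, h a ha b hb, h a ha c hc, h a ha e he, h b hb a ha, h b hb c hc,
    h b hb e he, h c hc a ha, h c hc b hb, h c hc e he, h e he a ha, h e he b hb,
    h e he c hc] using h1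

lemma classes {O O1 O2 O3 : Set (Rel X)} {S : Finset X} {a b c e : X} (ha : a ∈ S) (hb : b ∈ S)
    (hc : c ∈ S) (he : e ∈ S) (hO : ∀ r ∈ O, STO r) (h1 : O1 ⊆ O) (h2 : O2 ⊆ O) (h3 : O3 ⊆ O)
    (u1 : ∀ r ∈ O1, UL r a b c e) (u2 : ∀ r ∈ O2, VL r a b c e)
    (u3 : ∀ r ∈ O3, NL r a b c e) :
    cnt O1 S + (cnt O2 S + cnt O3 S) ≤ cnt O S := by
  have h4 : cnt O2 S + cnt O3 S ≤ cnt (O2 ∪ O3) S := by
    refine cnt_add Set.subset_union_left Set.subset_union_right ?_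
    intro r2 hr2 r3 hr3 h
    exact not_VL_of_NL (hO _ (h3 hr3)) (u3 _ hr3) (VL_congr h ha hb hc he (u2 _ hr2))
  have h5 : cnt O1 S + cnt (O2 ∪ O3) S ≤ cnt O S := by
    refine cnt_add h1 (Set.union_subset h2 h3) ?_
    rintro r1 hr1 r2 (hr2 | hr2) h
    · exact not_UL_of_VL (hO _ (h2 hr2)) (u2 _ hr2) (UL_congr h ha hb hc he (u1 _ hr1))
    · exact not_UL_of_NL (hO _ (h3 hr2)) (u3 _ hr2) (UL_congr h ha hb hc he (u1 _ hr1))
  omega

end Pool.Agent.H14.SX
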