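import Mathlib
import Pool.Agent.H14.SX.StepA

/-!
# The induction step, part B: the configurations
-/

set_option autoImplicit false

namespace Pool.Agent.H14.SX

open Finset

variable {d : ℕ} {H V : ℤ} {X Y : Type}

lemma UU_sub (A : Side d H V X) (B : Side d H V Y) (Rd Tot : Set (Rel X)) :
    UU B Tot ⊆ TotS A B Rd Tot := by
  rintro ρ ⟨o, ho, e, he⟩
  exact Or.inl ⟨o, ho, e, he⟩

lemma DD_sub (A : Side d H V X) (B : Side d H V Y) (Rd Tot : Set (Rel X)) :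
    DD A B ⊆ TotS A B Rd Tot := fun _ h => Or.inr (Or.inl h)

lemma RdS_sub (A : Side d H V X) (B : Side d H V Y) (Rd Tot : Set (Rel X)) :
    RdS B Rd ⊆ TotS A B Rd Tot := fun _ h => Or.inr (Or.inr (Or.inr h))

lemma RdS_sto (B : Side d H V Y) {Rd : Set (Rel X)} (h : ∀ r ∈ Rd, STO r) :
    ∀ r ∈ RdS B Rd, STO r := by
  rintro r ⟨o, ho, f, rfl⟩
  exact xf_sto (h o ho) fun _ => rk_sto B f

lemma TotS_sto (A : Side d H V X) (B : Side d H V Y) {Rd Tot : Set (Rel X)}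
    (h : ∀ r ∈ Tot, STO r) (hR : Rd ⊆ Tot) : ∀ r ∈ TotS A B Rd Tot, STO r := by
  rintro r (⟨o, ho, e, rfl⟩ | h1 | ⟨σ, hσ, rfl⟩ | h1)
  · exact xf_sto (h o ho) fun _ => lev_sto B e
  · exact DD_sto A B r h1
  · exact sw_sto (DD_sto B A σ hσ)
  · exact RdS_sto B (fun r hr => h r (hR hr)) r h1

/-- rectangle only -/
lemma rect4 (A : Side d H V X) (B : Side d H V Y) {Rd Tot : Set (Rel X)}
    (hG : Good A Rd Tot) {S : Finset (X × Y)} {A' : Finset X} (hA : ∀ x ∈ A', ∃ y, (x, y) ∈ S)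
    {p p' : X} {v v' : Y} (hp : p ≠ p') (hv : v ≠ v') (ha : (p, v) ∈ S) (hb : (p, v') ∈ S)
    (hc : (p', v) ∈ S) (he : (p', v') ∈ S) :
    cnt Tot A' * 2 + 8 ≤ cnt (TotS A B Rd Tot) S := by
  have h1 := cnt_UU2 B (fun r hr => (hG.sto r hr).irr) hA hv ha hb
  have h2 := V4 A B hp hv S ha hb hc he
  have h3 := N4 A B hp hv S ha hb hc he
  have h4 := classes (O := TotS A B Rd Tot) (O1 := UU B Tot)
    (O2 := {r | r ∈ DD A B ∧ VL r (p, v) (p, v') (p', v) (p', v')})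
    (O3 := {r | r ∈ DD A B ∧ NL r (p, v) (p, v') (p', v) (p', v')}) ha hb hc he
    (TotS_sto A B hG.sto hG.Rsub) (UU_sub A B Rd Tot)
    (fun r hr => DD_sub A B Rd Tot hr.1) (fun r hr => DD_sub A B Rd Tot hr.1)
    (by rintro r ⟨o, ho, e, rfl⟩; exact UL_xf (hG.sto o ho) _ hp v v')
    (fun r hr => hr.2) (fun r hr => hr.2)
  omega

/-- rectangle and a point in a third column, uniform extension -/
lemma rect5 (A : Side d H V X) (B : Side d H V Y) {Rd Tot : Set (Rel X)}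
    (hG : Good A Rd Tot) {S : Finset (X × Y)} {A' : Finset X} (hA : ∀ x ∈ A', ∃ y, (x, y) ∈ S)
    {p p' : X} {v v' : Y} (hp : p ≠ p') (hv : v ≠ v') (ha : (p, v) ∈ S) (hb : (p, v') ∈ S)
    (hc : (p', v) ∈ S) (he : (p', v') ∈ S) {x : X} {y : Y} (hx : (x, y) ∈ S) (h1 : x ≠ p)
    (h2 : x ≠ p') :
    cnt Tot A' * 2 + 16 ≤ cnt (TotS A B Rd Tot) S := by
  have h3 := cnt_UU2 B (fun r hr => (hG.sto r hr).irr) hA hv ha hb
  have h4 := V5 A B hp hv S ha hb hc he hx (Or.inl ⟨h1, h2⟩)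
  have h5 := N5 A B hp hv S ha hb hc he hx h1 h2
  have h6 := classes (O := TotS A B Rd Tot) (O1 := UU B Tot)
    (O2 := {r | r ∈ DD A B ∧ VL r (p, v) (p, v') (p', v) (p', v')})
    (O3 := {r | r ∈ DD A B ∧ NL r (p, v) (p, v') (p', v) (p', v')}) ha hb hc he
    (TotS_sto A B hG.sto hG.Rsub) (UU_sub A B Rd Tot)
    (fun r hr => DD_sub A B Rd Tot hr.1) (fun r hr => DD_sub A B Rd Tot hr.1)
    (by rintro r ⟨o, ho, e, rfl⟩; exact UL_xf (hG.sto o ho) _ hp v v')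
    (fun r hr => hr.2) (fun r hr => hr.2)
  omega

/-- rectangle and a third column with a different pair -/
lemma rect6 (A : Side d H V X) (B : Side d H V Y) {Rd Tot : Set (Rel X)}
    (hG : Good A Rd Tot) {S : Finset (X × Y)} {A' : Finset X} (hA : ∀ x ∈ A', ∃ y, (x, y) ∈ S)
    {p p' : X} {v v' : Y} (hp : p ≠ p') (hv : v ≠ v') (ha : (p, v) ∈ S) (hb : (p, v') ∈ S)
    (hc : (p', v) ∈ S) (he : (p', v') ∈ S) {x : X} {y y' : Y} (hx : (x, y) ∈ S)
    (hx' : (x, y') ∈ S) (h1 : x ≠ p) (h2 : x ≠ p') (hyy : y ≠ y') (h3 : y' ≠ v) (h4 : y' ≠ v') :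
    cnt Rd A' * 4 + 16 ≤ cnt (TotS A B Rd Tot) S := by
  classical
  have h5 := V5 A B hp hv S ha hb hc he hx (Or.inl ⟨h1, h2⟩)
  have h6 := N5 A B hp hv S ha hb hc he hx h1 h2
  have h7 := cnt_RdS_fresh (m := 2) B (Rd := Rd) (fun r hr => (hG.sto r (hG.Rsub hr)).irr) hA
    ({v, v', y, y'} : Finset Y) (by
      calc ({v, v', y, y'} : Finset Y).card ≤ 4 := Finset.card_le_four
        _ ≤ 8 := by norm_num)
    ![p, x] ![v, y] ![v', y'] (by
      intro i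
      fin_cases i
      · exact ⟨ha, hb⟩
      · exact ⟨hx, hx'⟩)
    (by
      intro i
      fin_cases i <;> simp)
    (by
      intro i
      fin_cases i
      · exact hv
      · exact hyy)
    (by
      intro i j hij
      fin_cases i <;> fin_cases j <;> simp_all)
  have h8 := classes (O := TotS A B Rd Tot) (O1 := RdS B Rd)
    (O2 := {r | r ∈ DD A B ∧ VL r (p, v) (p, v') (p', v) (p', v')})
    (O3 := {r | r ∈ DD A B ∧ NL r (p, v) (p, v') (p', v) (p', v')}) ha hb hc he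
    (TotS_sto A B hG.sto hG.Rsub) (RdS_sub A B Rd Tot)
    (fun r hr => DD_sub A B Rd Tot hr.1) (fun r hr => DD_sub A B Rd Tot hr.1)
    (by rintro r ⟨o, ho, f, rfl⟩; exact UL_xf (hG.sto o (hG.Rsub ho)) _ hp v v')
    (fun r hr => hr.2) (fun r hr => hr.2)
  norm_num at h7
  omega

/-- a fibre of three points and a nested pair -/
lemma nest (A : Side d H V X) (B : Side d H V Y) {Rd Tot : Set (Rel X)}
    (hG : Good A Rd Tot) {S : Finset (X × Y)} {A' : Finset X} (hA : ∀ x ∈ A', ∃ y, (x, y) ∈ S)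
    {p p' : X} {a b c : Y} (hp : p ≠ p') (hab : a ≠ b) (hac : a ≠ c) (hbc : b ≠ c)
    (m1 : (p, a) ∈ S) (m2 : (p, b) ∈ S) (m3 : (p, c) ∈ S) (m4 : (p', a) ∈ S)
    (m5 : (p', b) ∈ S) :
    cnt Rd A' * 6 + 8 ≤ cnt (TotS A B Rd Tot) S := by
  have h1 := cnt_RdS_tri B (Rd := Rd) (fun r hr => (hG.sto r (hG.Rsub hr)).irr) hA hab hac hbc
    ⟨p, m1, m2⟩ ⟨p, m1, m3⟩ ⟨p, m2, m3⟩
  have h2 := V5 A B hp hab S m1 m2 m4 m5 m3 (Or.inr ⟨hac.symm, hbc.symm⟩)
  have h3 := classes (O := TotS A B Rd Tot) (O1 := RdS B Rd)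
    (O2 := {r | r ∈ DD A B ∧ VL r (p, a) (p, b) (p', a) (p', b)})
    (O3 := (∅ : Set (Rel (X × Y)))) m1 m2 m4 m5
    (TotS_sto A B hG.sto hG.Rsub) (RdS_sub A B Rd Tot)
    (fun r hr => DD_sub A B Rd Tot hr.1) (Set.empty_subset _)
    (by rintro r ⟨o, ho, f, rfl⟩; exact UL_xf (hG.sto o (hG.Rsub ho)) _ hp a b)
    (fun r hr => hr.2) (fun r hr => absurd hr (Set.notMem_empty r))
  omega

/-- the mirrored grid -/
lemma grid' (A : Side d H V X) (B : Side d H V Y) (Rd Tot : Set (Rel X)) {S : Finset (X × Y)}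
    {p p' : X} {a b c : Y} (hp : p ≠ p') (hab : a ≠ b) (hac : a ≠ c) (hbc : b ≠ c)
    (m1 : (p, a) ∈ S) (m2 : (p, b) ∈ S) (m3 : (p, c) ∈ S) (m4 : (p', a) ∈ S)
    (m5 : (p', b) ∈ S) (m6 : (p', c) ∈ S) :
    32 ≤ cnt (TotS A B Rd Tot) S := by
  classical
  have h1 := grid B A hab hac hbc hp (S.image Prod.swap)
    (Finset.mem_image_of_mem Prod.swap m1) (Finset.mem_image_of_mem Prod.swap m4)
    (Finset.mem_image_of_mem Prod.swap m2) (Finset.mem_image_of_mem Prod.swap m5)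
    (Finset.mem_image_of_mem Prod.swap m3) (Finset.mem_image_of_mem Prod.swap m6)
  refine h1.trans (cnt_comap (O := DD B A) (O' := TotS A B Rd Tot) (S' := S) Prod.swap ?_ ?_)
  · intro z hz
    obtain ⟨w, hw, rfl⟩ := Finset.mem_image.1 hz
    simpa using hw
  · intro o ho
    exact ⟨sw o, Or.inr (Or.inr (Or.inl ⟨o, ho, rfl⟩)), fun x _ y _ => by simp [sw]⟩

/-- four different patterns of three points, mixed extension -/
lemma mix (A : Side d H V X) (B : Side d H V Y) {Rd Tot : Set (Rel X)}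
    (hG : Good A Rd Tot) {S : Finset (X × Y)} {A' : Finset X} (hA : ∀ x ∈ A', ∃ y, (x, y) ∈ S)
    {x x' : X} {a b c e : Y} (hab : a ≠ b) (hce : c ≠ e) (hea : e ≠ a) (heb : e ≠ b)
    (m1 : (x, a) ∈ S) (m2 : (x, b) ∈ S) (m3 : (x', c) ∈ S) (m4 : (x', e) ∈ S) :
    2 * cnt Rd A' + 2 * cnt Tot A' ≤ cnt (TotS A B Rd Tot) S := by
  classical
  set Tot' : Set (Rel X) := {o | o ∈ Tot ∧ ∀ r ∈ Rd, pat r A' ≠ pat o A'} with hT'
  have h1 : cnt Tot A' ≤ cnt Rd A' + cnt Tot' A' := by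
    unfold cnt
    refine (Set.ncard_le_ncard ?_ ((cnt_finite Rd A').union (cnt_finite Tot' A'))).trans
      (Set.ncard_union_le _ _)
    rintro _ ⟨o, ho, rfl⟩
    by_cases h : ∀ r ∈ Rd, pat r A' ≠ pat o A'
    · exact Or.inr ⟨o, ⟨ho, h⟩, rfl⟩
    · push Not at h
      obtain ⟨r, hr, hr'⟩ := h
      exact Or.inl ⟨r, hr, hr'⟩
  have h2 := cnt_RdS_fresh (m := 2) B (Rd := Rd) (fun r hr => (hG.sto r (hG.Rsub hr)).irr) hA
    ({a, b, c, e} : Finset Y) (by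
      calc ({a, b, c, e} : Finset Y).card ≤ 4 := Finset.card_le_four
        _ ≤ 8 := by norm_num)
    ![x, x'] ![a, c] ![b, e] (by
      intro i
      fin_cases i
      · exact ⟨m1, m2⟩
      · exact ⟨m3, m4⟩)
    (by
      intro i
      fin_cases i <;> simp)
    (by
      intro i
      fin_cases i
      · exact hab
      · exact hce)
    (by
      intro i j hij
      fin_cases i <;> fin_cases j <;> simp_all)
  have h3 := cnt_UU2 B (Tot := Tot') (fun r hr => (hG.sto r hr.1).irr) hA hab m1 m2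
  have h4 := cnt_add (O1 := RdS B Rd) (O2 := UU B Tot') (O := TotS A B Rd Tot) (S := S)
    (RdS_sub A B Rd Tot)
    (by rintro r ⟨o, ho, e', rfl⟩; exact Or.inl ⟨o, ho.1, e', rfl⟩)
    (by
      rintro r1 ⟨o1, ho1, f, rfl⟩ r2 ⟨o2, ho2, e', rfl⟩ h
      refine ho2.2 o1 ho1 (pat_eq_iff.2 fun z hz z' hz' => ?_)
      by_cases hzz : z = z'
      · subst hzz
        exact iff_of_false ((hG.sto _ (hG.Rsub ho1)).irr z) ((hG.sto _ ho2.1).irr z)
      · obtain ⟨y, hy⟩ := hA z hz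
        obtain ⟨y', hy'⟩ := hA z' hz'
        have h5 := h (z, y) hy (z', y') hy'
        simpa only [xf, hzz, false_and, or_false] using h5)
  norm_num at h2
  omega

/-- the triangle -/
lemma triangle (A : Side d H V X) (B : Side d H V Y) {Rd Tot : Set (Rel X)}
    (hG : Good A Rd Tot) {S : Finset (X × Y)} {A' : Finset X} (hA : ∀ x ∈ A', ∃ y, (x, y) ∈ S)
    {p1 p2 p3 : X} {a b c : Y} (h12 : p1 ≠ p2) (h13 : p1 ≠ p3) (h23 : p2 ≠ p3) (hab : a ≠ b)
    (hac : a ≠ c) (hbc : b ≠ c)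
    (m1 : (p1, a) ∈ S) (m2 : (p1, b) ∈ S) (m3 : (p2, b) ∈ S) (m4 : (p2, c) ∈ S)
    (m5 : (p3, a) ∈ S) (m6 : (p3, c) ∈ S) :
    cnt Rd A' * 6 + 8 ≤ cnt (TotS A B Rd Tot) S := by
  have h1 := cnt_RdS_tri B (Rd := Rd) (fun r hr => (hG.sto r (hG.Rsub hr)).irr) hA hab hac hbc
    ⟨p1, m1, m2⟩ ⟨p3, m5, m6⟩ ⟨p2, m3, m4⟩
  have hm : 0 < B.m := by
    rcases Nat.eq_zero_or_pos B.m with h | h
    · exfalso
      apply hab
      apply B.pol_inj
      funext i
      rw [B.pol_out a i (by omega), B.pol_out b i (by omega)]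
    · exact h
  set OY : Set (Rel (X × Y)) := {ρ | ρ ∈ DD A B ∧ ∃ (s : Rel Y) (t : Y → Rel X), STO s ∧
    ρ = yf s t} with hOY
  have h2 : 2 ^ 3 ≤ cnt OY S := by
    obtain ⟨u1, v1, u2, v2, hu1, hv1, hu2, hv2, e, he⟩ := lev_three B hab hac hbc
    obtain ⟨g, hg⟩ := lev_two A h13
    -- representatives
    have hrep : ∀ u : Y, (u = a ∨ u = b ∨ u = c) → ∃ x, (x, u) ∈ S := by
      rintro u (rfl | rfl | rfl)
      · exact ⟨p1, m1⟩
      · exact ⟨p1, m2⟩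
      · exact ⟨p2, m4⟩
    obtain ⟨x1, hx1⟩ := hrep u1 hu1
    obtain ⟨x2, hx2⟩ := hrep v1 hv1
    obtain ⟨x3, hx3⟩ := hrep u2 hu2
    obtain ⟨x4, hx4⟩ := hrep v2 hv2
    have ne1 : u1 ≠ v1 := by
      intro h
      have h3 := (he true true).1
      rw [h] at h3
      exact (lev_sto B _).irr _ (h3.2 rfl)
    have ne2 : u2 ≠ v2 := by
      intro h
      have h3 := (he true true).2
      rw [h] at h3
      exact (lev_sto B _).irr _ (h3.2 rfl)
    refine two_pow_le_cnt (m := 3) ![(x1, u1), (x3, u2), (p1, a)] ![(x2, v1), (x4, v2), (p3, a)]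
      ?_ ?_ ?_
    · intro i
      fin_cases i
      · exact hx1
      · exact hx3
      · exact m1
    · intro i
      fin_cases i
      · exact hx2
      · exact hx4
      · exact m5
    · intro β
      refine ⟨yf (lev B (e (β 0) (β 1))) (fun y => lab A (B.pol y 0) (fun q _ => g (β 2) q)),
        ⟨Or.inl ⟨0, hm, _, _, rfl⟩, _, _, lev_sto B _, rfl⟩, ?_⟩
      intro i
      fin_cases i
      · change (lev B (e (β 0) (β 1)) u1 v1 ∨ (u1 = v1 ∧ _)) ↔ β 0 = true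
        simp only [ne1, false_and, or_false]
        exact (he _ _).1
      · change (lev B (e (β 0) (β 1)) u2 v2 ∨ (u2 = v2 ∧ _)) ↔ β 1 = true
        simp only [ne2, false_and, or_false]
        exact (he _ _).2
      · have h4 : ¬ lev B (e (β 0) (β 1)) a a := (lev_sto B _).irr a
        change (lev B (e (β 0) (β 1)) a a ∨ (a = a ∧ lev A (g (β 2)) p1 p3)) ↔ β 2 = true
        simp only [h4, false_or, true_and]
        exact hg (β 2)
  have h3 := cnt_add (O1 := RdS B Rd) (O2 := OY) (O := TotS A B Rd Tot) (S := S)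
    (RdS_sub A B Rd Tot) (fun r hr => DD_sub A B Rd Tot hr.1)
    (by
      rintro r1 ⟨o, ho, f, rfl⟩ r2 ⟨-, s, t, hs, rfl⟩ h
      have k1 := h (p1, a) m1 (p2, b) m3
      have k2 := h (p1, a) m1 (p2, c) m4
      have k3 := h (p1, a) m1 (p3, c) m6
      have k4 := h (p1, b) m2 (p3, a) m5
      simp only [xf, yf, h12, h13, hab, hac, hab.symm, false_and, or_false] at k1 k2 k3 k4
      have h5 : s a b ↔ s b a := by
        rw [← k1, k2, ← k3, k4]
      rcases hs.tot a b hab with h6 | h6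
      · exact hs.irr a (hs.trans _ _ _ h6 (h5.1 h6))
      · exact hs.irr b (hs.trans _ _ _ h6 (h5.2 h6)))
  omega

end Pool.Agent.H14.SX
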