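import Mathlib
import Pool.Agent.H14.SX.StepB

/-!
# The induction step, part C: the case analysis
-/

set_option autoImplicit false

namespace Pool.Agent.H14.SX

open Finset

variable {d : ℕ} {H V : ℤ} {X Y : Type}

lemma one_le_cnt {O : Set (Rel X)} (h : O.Nonempty) (S : Finset X) : 1 ≤ cnt O S := by
  obtain ⟨r, hr⟩ := h
  have h1 := le_cnt (ι := Unit) (O := O) (S := S) (fun _ => r) (fun _ => hr) (fun _ _ _ => rfl)
  simpa using h1

open Classical in
lemma fresh_gen {m : ℕ} (hm : m ≤ 4) (B : Side d H V Y) {Rd : Set (Rel X)}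
    (hirr : ∀ r ∈ Rd, ∀ x, ¬ r x x) {S : Finset (X × Y)} {A : Finset X}
    (hA : ∀ x ∈ A, ∃ y, (x, y) ∈ S) (x : Fin m → X)
    (a b : Fin m → Y) (hS : ∀ i, (x i, a i) ∈ S ∧ (x i, b i) ∈ S)
    (hab : ∀ i, a i ≠ b i)
    (hfresh : ∀ i, ∀ j < i, b i ≠ a j ∧ b i ≠ b j) :
    cnt Rd A * 2 ^ m ≤ cnt (RdS B Rd) S := by
  refine cnt_RdS_fresh B hirr hA (Finset.univ.image a ∪ Finset.univ.image b) ?_ x a b hS ?_ hab
    hfresh
  · refine (Finset.card_union_le _ _).trans ?_
    have h1 : (Finset.univ.image a).card ≤ m := by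
      simpa using (Finset.card_image_le (s := Finset.univ) (f := a))
    have h2 : (Finset.univ.image b).card ≤ m := by
      simpa using (Finset.card_image_le (s := Finset.univ) (f := b))
    omega
  · intro i
    constructor
    · exact Finset.mem_union_left _ (Finset.mem_image_of_mem _ (Finset.mem_univ i))
    · exact Finset.mem_union_right _ (Finset.mem_image_of_mem _ (Finset.mem_univ i))

lemma fresh2 (B : Side d H V Y) {Rd : Set (Rel X)}
    (hirr : ∀ r ∈ Rd, ∀ x, ¬ r x x) {S : Finset (X × Y)} {A : Finset X}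
    (hA : ∀ x ∈ A, ∃ y, (x, y) ∈ S) {x0 x1 : X} {a0 b0 a1 b1 : Y}
    (m1 : (x0, a0) ∈ S) (m2 : (x0, b0) ∈ S) (m3 : (x1, a1) ∈ S) (m4 : (x1, b1) ∈ S)
    (h0 : a0 ≠ b0) (h1 : a1 ≠ b1) (n1 : b1 ≠ a0) (n2 : b1 ≠ b0) :
    cnt Rd A * 4 ≤ cnt (RdS B Rd) S := by
  have h := fresh_gen (m := 2) (by norm_num) B hirr hA ![x0, x1] ![a0, a1] ![b0, b1] (by
      intro i
      fin_cases i
      · exact ⟨m1, m2⟩
      · exact ⟨m3, m4⟩) (by
      intro i
      fin_cases i
      · exact h0
      · exact h1) (by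
      intro i j hij
      fin_cases i <;> fin_cases j <;> simp_all)
  norm_num at h
  exact h

lemma fresh3 (B : Side d H V Y) {Rd : Set (Rel X)}
    (hirr : ∀ r ∈ Rd, ∀ x, ¬ r x x) {S : Finset (X × Y)} {A : Finset X}
    (hA : ∀ x ∈ A, ∃ y, (x, y) ∈ S) {x0 x1 x2 : X} {a0 b0 a1 b1 a2 b2 : Y}
    (m1 : (x0, a0) ∈ S) (m2 : (x0, b0) ∈ S) (m3 : (x1, a1) ∈ S) (m4 : (x1, b1) ∈ S)
    (m5 : (x2, a2) ∈ S) (m6 : (x2, b2) ∈ S)
    (h0 : a0 ≠ b0) (h1 : a1 ≠ b1) (h2 : a2 ≠ b2) (n1 : b1 ≠ a0) (n2 : b1 ≠ b0)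
    (n3 : b2 ≠ a0) (n4 : b2 ≠ b0) (n5 : b2 ≠ a1) (n6 : b2 ≠ b1) :
    cnt Rd A * 8 ≤ cnt (RdS B Rd) S := by
  have h := fresh_gen (m := 3) (by norm_num) B hirr hA ![x0, x1, x2] ![a0, a1, a2] ![b0, b1, b2]
      (by
      intro i
      fin_cases i
      · exact ⟨m1, m2⟩
      · exact ⟨m3, m4⟩
      · exact ⟨m5, m6⟩) (by
      intro i
      fin_cases i
      · exact h0
      · exact h1
      · exact h2) (by
      intro i j hij
      fin_cases i <;> fin_cases j <;> simp_all)
  norm_num at h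
  exact h

lemma fresh4 (B : Side d H V Y) {Rd : Set (Rel X)}
    (hirr : ∀ r ∈ Rd, ∀ x, ¬ r x x) {S : Finset (X × Y)} {A : Finset X}
    (hA : ∀ x ∈ A, ∃ y, (x, y) ∈ S) {x0 x1 x2 x3 : X} {a0 b0 a1 b1 a2 b2 a3 b3 : Y}
    (m1 : (x0, a0) ∈ S) (m2 : (x0, b0) ∈ S) (m3 : (x1, a1) ∈ S) (m4 : (x1, b1) ∈ S)
    (m5 : (x2, a2) ∈ S) (m6 : (x2, b2) ∈ S) (m7 : (x3, a3) ∈ S) (m8 : (x3, b3) ∈ S)
    (h0 : a0 ≠ b0) (h1 : a1 ≠ b1) (h2 : a2 ≠ b2) (h3 : a3 ≠ b3) (n1 : b1 ≠ a0) (n2 : b1 ≠ b0)
    (n3 : b2 ≠ a0) (n4 : b2 ≠ b0) (n5 : b2 ≠ a1) (n6 : b2 ≠ b1)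
    (n7 : b3 ≠ a0) (n8 : b3 ≠ b0) (n9 : b3 ≠ a1) (n10 : b3 ≠ b1) (n11 : b3 ≠ a2)
    (n12 : b3 ≠ b2) :
    cnt Rd A * 16 ≤ cnt (RdS B Rd) S := by
  have h := fresh_gen (m := 4) (by norm_num) B hirr hA ![x0, x1, x2, x3] ![a0, a1, a2, a3]
      ![b0, b1, b2, b3] (by
      intro i
      fin_cases i
      · exact ⟨m1, m2⟩
      · exact ⟨m3, m4⟩
      · exact ⟨m5, m6⟩
      · exact ⟨m7, m8⟩) (by
      intro i
      fin_cases i
      · exact h0
      · exact h1
      · exact h2
      · exact h3) (by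
      intro i j hij
      fin_cases i <;> fin_cases j <;> simp_all)
  norm_num at h
  exact h

/-- one fibre -/
lemma star (B : Side d H V Y) {Rd : Set (Rel X)}
    (hirr : ∀ r ∈ Rd, ∀ x, ¬ r x x) {S : Finset (X × Y)} {A : Finset X}
    (hA : ∀ x ∈ A, ∃ y, (x, y) ∈ S) (p : X) {m : ℕ} (hc : (Fb S p).card = m + 1)
    (hm : m ≤ 7) :
    cnt Rd A * 2 ^ m ≤ cnt (RdS B Rd) S := by
  have e : Fin (m + 1) ≃ Fb S p := (Finset.equivFinOfCardEq hc).symm
  refine cnt_RdS_fresh B hirr hA (Fb S p) (by omega) (fun _ => p) (fun _ => (e 0 : Y))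
    (fun i => (e i.succ : Y)) ?_ ?_ ?_ ?_
  · intro i
    exact ⟨mem_Fb.1 (e 0).2, mem_Fb.1 (e i.succ).2⟩
  · intro i
    exact ⟨(e 0).2, (e i.succ).2⟩
  · intro i h
    have h1 := e.injective (Subtype.ext h)
    exact (Fin.succ_ne_zero i) h1.symm
  · intro i j hij
    constructor
    · intro h
      have h1 := e.injective (Subtype.ext h)
      exact (Fin.succ_ne_zero i) h1
    · intro h
      have h1 := e.injective (Subtype.ext h)
      have h2 := Fin.succ_injective _ h1
      exact absurd h2 hij.ne'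

lemma R_pow {A : Side d H V X} {Rd Tot : Set (Rel X)} (hG : Good A Rd Tot) {A' : Finset X}
    (h : A'.card ≤ 3) : 2 ^ (A'.card - 1) ≤ cnt Rd A' := by
  have h1 := one_le_cnt hG.R1 A'
  have hc : A'.card = 0 ∨ A'.card = 1 ∨ A'.card = 2 ∨ A'.card = 3 := by omega
  rcases hc with hc | hc | hc | hc
  · rw [hc]; simpa using h1
  · rw [hc]; simpa using h1
  · rw [hc]; simpa using hG.R2 A' hc
  · rw [hc]; simpa using hG.R3 A' hc

lemma hPr {S : Finset (X × Y)} : ∀ x ∈ Pr S, ∃ y, (x, y) ∈ S := fun _ h => mem_Pr.1 h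

lemma irrR {A : Side d H V X} {Rd Tot : Set (Rel X)} (hG : Good A Rd Tot) :
    ∀ r ∈ Rd, ∀ x, ¬ r x x := fun r hr => (hG.sto r (hG.Rsub hr)).irr

lemma R_case1 (A : Side d H V X) (B : Side d H V Y) {Rd Tot : Set (Rel X)}
    (hG : Good A Rd Tot) {S : Finset (X × Y)} {p0 : X} (hp0 : p0 ∈ Pr S)
    (hc : S.card + 1 = (Pr S).card + (Fb S p0).card) (h3 : (Pr S).card ≤ 3)
    (h8 : S.card ≤ 6) : 2 ^ (S.card - 1) ≤ cnt (RdS B Rd) S := by
  have h1 := card_Fb_pos hp0
  have h0 : 1 ≤ (Pr S).card := Finset.card_pos.2 ⟨p0, hp0⟩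
  have h2 := star B (irrR hG) (hPr (S := S)) p0 (m := (Fb S p0).card - 1) (by omega) (by omega)
  have h4 := R_pow hG h3
  calc 2 ^ (S.card - 1) = 2 ^ ((Pr S).card - 1) * 2 ^ ((Fb S p0).card - 1) := by
        rw [← pow_add]
        congr 1
        omega
    _ ≤ cnt Rd (Pr S) * 2 ^ ((Fb S p0).card - 1) := Nat.mul_le_mul_right _ h4
    _ ≤ _ := h2

open Classical in
lemma exists_new {C0 C1 : Finset Y} (h : C1.card = 2) (hne : ¬ C1 ⊆ C0) :
    ∃ c e, c ≠ e ∧ C1 = {c, e} ∧ e ∉ C0 := by
  obtain ⟨c, e, hce, rfl⟩ := Finset.card_eq_two.1 h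
  by_cases he : e ∈ C0
  · by_cases hc : c ∈ C0
    · exfalso
      apply hne
      intro z hz
      simp only [Finset.mem_insert, Finset.mem_singleton] at hz
      rcases hz with rfl | rfl <;> assumption
    · exact ⟨e, c, hce.symm, Finset.pair_comm c e, hc⟩
  · exact ⟨c, e, hce, rfl, he⟩

/-- two pairs in different columns -/
lemma pair_pair (A : Side d H V X) (B : Side d H V Y) {Rd Tot : Set (Rel X)}
    (hG : Good A Rd Tot) {S : Finset (X × Y)} {p0 p1 : X} (hp0 : p0 ∈ Pr S) (hp1 : p1 ∈ Pr S)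
    (hne : p1 ≠ p0) (hc0 : (Fb S p0).card = 2) (hc1 : (Fb S p1).card = 2)
    (h4 : (Pr S).card ≤ 4) :
    2 ^ ((Pr S).card + 1) ≤ cnt (TotS A B Rd Tot) S := by
  classical
  have h2 : 2 ≤ (Pr S).card := by
    have : ({p0, p1} : Finset X) ⊆ Pr S := by
      intro z hz
      simp only [Finset.mem_insert, Finset.mem_singleton] at hz
      rcases hz with rfl | rfl <;> assumption
    have h5 := Finset.card_le_card this
    rwa [Finset.card_pair hne.symm] at h5
  by_cases hsub : Fb S p1 ⊆ Fb S p0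
  · have heq : Fb S p1 = Fb S p0 := Finset.eq_of_subset_of_card_le hsub (by omega)
    obtain ⟨v, v', hv, hF⟩ := Finset.card_eq_two.1 hc0
    have ha : (p0, v) ∈ S := mem_Fb.1 (by rw [hF]; simp)
    have hb : (p0, v') ∈ S := mem_Fb.1 (by rw [hF]; simp)
    have hc : (p1, v) ∈ S := mem_Fb.1 (by rw [heq, hF]; simp)
    have he : (p1, v') ∈ S := mem_Fb.1 (by rw [heq, hF]; simp)
    have hP := hG.P (Pr S) (by omega)
    by_cases h3 : (Pr S).card = 2
    · have h5 := rect4 A B hG (hPr (S := S)) hne.symm hv ha hb hc he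
      rw [h3] at hP ⊢
      norm_num at hP ⊢
      omega
    · have : ∃ x ∈ Pr S, x ≠ p0 ∧ x ≠ p1 := by
        by_contra hcon
        push Not at hcon
        have : Pr S ⊆ ({p0, p1} : Finset X) := by
          intro z hz
          by_cases hz0 : z = p0
          · simp [hz0]
          · simp [hcon z hz hz0]
        have h5 := Finset.card_le_card this
        rw [Finset.card_pair hne.symm] at h5
        omega
      obtain ⟨x, hxP, hx0, hx1⟩ := this
      obtain ⟨y, hy⟩ := mem_Pr.1 hxP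
      have h5 := rect5 A B hG (hPr (S := S)) hne.symm hv ha hb hc he hy hx0 hx1
      have hcase : (Pr S).card = 3 ∨ (Pr S).card = 4 := by omega
      rcases hcase with h6 | h6 <;> rw [h6] at hP ⊢ <;> norm_num at hP ⊢ <;> omega
  · obtain ⟨c, e, hce, hF1, he0⟩ := exists_new hc1 hsub
    obtain ⟨a, b, hab, hF0⟩ := Finset.card_eq_two.1 hc0
    have m1 : (p0, a) ∈ S := mem_Fb.1 (by rw [hF0]; simp)
    have m2 : (p0, b) ∈ S := mem_Fb.1 (by rw [hF0]; simp)
    have m3 : (p1, c) ∈ S := mem_Fb.1 (by rw [hF1]; simp)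
    have m4 : (p1, e) ∈ S := mem_Fb.1 (by rw [hF1]; simp)
    rw [hF0] at he0
    simp only [Finset.mem_insert, Finset.mem_singleton, not_or] at he0
    by_cases h3 : (Pr S).card = 4
    · have h5 := mix A B hG (hPr (S := S)) hab hce he0.1 he0.2 m1 m2 m3 m4
      have h6 := hG.Q (Pr S) h3
      rw [h3]
      norm_num
      omega
    · have h5 := fresh2 B (irrR hG) (hPr (S := S)) m1 m2 m3 m4 hab hce he0.1 he0.2
      have h6 := R_pow hG (A' := Pr S) (by omega)
      have h7 := cnt_mono (S := S) (RdS_sub A B Rd Tot)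
      have hcase : (Pr S).card = 2 ∨ (Pr S).card = 3 := by omega
      rcases hcase with h8 | h8 <;> rw [h8] at h6 ⊢ <;> norm_num at h6 ⊢ <;> omega

/-- a triple and a pair -/
lemma triple_pair (A : Side d H V X) (B : Side d H V Y) {Rd Tot : Set (Rel X)}
    (hG : Good A Rd Tot) {S : Finset (X × Y)} {p0 p1 : X} (hp0 : p0 ∈ Pr S) (hp1 : p1 ∈ Pr S)
    (hne : p1 ≠ p0) (hc0 : (Fb S p0).card = 3) (hc1 : (Fb S p1).card = 2)
    (h3 : (Pr S).card ≤ 3) :
    2 ^ ((Pr S).card + 2) ≤ cnt (TotS A B Rd Tot) S := by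
  classical
  have h2 : 2 ≤ (Pr S).card := by
    have : ({p0, p1} : Finset X) ⊆ Pr S := by
      intro z hz
      simp only [Finset.mem_insert, Finset.mem_singleton] at hz
      rcases hz with rfl | rfl <;> assumption
    have h5 := Finset.card_le_card this
    rwa [Finset.card_pair hne.symm] at h5
  have h6 := R_pow hG (A' := Pr S) (by omega)
  have h7 := cnt_mono (S := S) (RdS_sub A B Rd Tot)
  have hcase : (Pr S).card = 2 ∨ (Pr S).card = 3 := by omega
  by_cases hsub : Fb S p1 ⊆ Fb S p0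
  · obtain ⟨a, b, hab, hF1⟩ := Finset.card_eq_two.1 hc1
    have hex : ∃ c ∈ Fb S p0, c ∉ Fb S p1 := by
      by_contra hcon
      push Not at hcon
      have h5 := Finset.card_le_card (show Fb S p0 ⊆ Fb S p1 from hcon)
      omega
    obtain ⟨c, hc, hc'⟩ := hex
    have m4' : a ∈ Fb S p1 := by rw [hF1]; simp
    have m5' : b ∈ Fb S p1 := by rw [hF1]; simp
    rw [hF1] at hc'
    simp only [Finset.mem_insert, Finset.mem_singleton, not_or] at hc'
    have h5 := nest A B hG (hPr (S := S)) hne.symm hab (Ne.symm hc'.1) (Ne.symm hc'.2)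
      (mem_Fb.1 (hsub m4')) (mem_Fb.1 (hsub m5')) (mem_Fb.1 hc) (mem_Fb.1 m4') (mem_Fb.1 m5')
    rcases hcase with h8 | h8 <;> rw [h8] at h6 ⊢ <;> norm_num at h6 ⊢ <;> omega
  · obtain ⟨c, e, hce, hF1, he0⟩ := exists_new hc1 hsub
    obtain ⟨u, v, w, huv, huw, hvw, hF0⟩ := Finset.card_eq_three.1 hc0
    have m1 : (p0, u) ∈ S := mem_Fb.1 (by rw [hF0]; simp)
    have m2 : (p0, v) ∈ S := mem_Fb.1 (by rw [hF0]; simp)
    have m2' : (p0, w) ∈ S := mem_Fb.1 (by rw [hF0]; simp)
    have m3 : (p1, c) ∈ S := mem_Fb.1 (by rw [hF1]; simp)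
    have m4 : (p1, e) ∈ S := mem_Fb.1 (by rw [hF1]; simp)
    rw [hF0] at he0
    simp only [Finset.mem_insert, Finset.mem_singleton, not_or] at he0
    have h5 := fresh3 B (irrR hG) (hPr (S := S)) m1 m2 m1 m2' m3 m4 huv huw hce huw.symm
      hvw.symm he0.1 he0.2.1 he0.1 he0.2.2
    rcases hcase with h8 | h8 <;> rw [h8] at h6 ⊢ <;> norm_num at h6 ⊢ <;> omega

/-- two triples -/
lemma triple_triple (A : Side d H V X) (B : Side d H V Y) {Rd Tot : Set (Rel X)}
    (hG : Good A Rd Tot) {S : Finset (X × Y)} {p0 p1 : X}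
    (hne : p1 ≠ p0) (hc0 : (Fb S p0).card = 3) (hc1 : (Fb S p1).card = 3)
    (h2 : (Pr S).card = 2) :
    32 ≤ cnt (TotS A B Rd Tot) S := by
  classical
  have h6 := hG.R2 (Pr S) h2
  have h7 := cnt_mono (S := S) (RdS_sub A B Rd Tot)
  have hint : (Fb S p0 ∩ Fb S p1).card + (Fb S p1 \ Fb S p0).card = 3 := by
    rw [Finset.inter_comm, Finset.card_inter_add_card_sdiff, hc1]
  have hint' : (Fb S p0 ∩ Fb S p1).card + (Fb S p0 \ Fb S p1).card = 3 := by
    rw [Finset.card_inter_add_card_sdiff, hc0]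
  by_cases h3 : (Fb S p0 ∩ Fb S p1).card = 3
  · obtain ⟨a, b, c, hab, hac, hbc, hF⟩ := Finset.card_eq_three.1 h3
    have hm : ∀ y, y ∈ ({a, b, c} : Finset Y) → (p0, y) ∈ S ∧ (p1, y) ∈ S := by
      intro y hy
      rw [← hF] at hy
      obtain ⟨h4, h5⟩ := Finset.mem_inter.1 hy
      exact ⟨mem_Fb.1 h4, mem_Fb.1 h5⟩
    exact grid' A B Rd Tot hne.symm hab hac hbc (hm a (by simp)).1 (hm b (by simp)).1
      (hm c (by simp)).1 (hm a (by simp)).2 (hm b (by simp)).2 (hm c (by simp)).2
  · by_cases h4 : (Fb S p0 ∩ Fb S p1).card = 2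
    · obtain ⟨b, c, hbc, hF⟩ := Finset.card_eq_two.1 h4
      have hm : ∀ y, y ∈ ({b, c} : Finset Y) → (p0, y) ∈ S ∧ (p1, y) ∈ S := by
        intro y hy
        rw [← hF] at hy
        obtain ⟨h4, h5⟩ := Finset.mem_inter.1 hy
        exact ⟨mem_Fb.1 h4, mem_Fb.1 h5⟩
      obtain ⟨a, ha⟩ : (Fb S p0 \ Fb S p1).Nonempty := Finset.card_pos.1 (by omega)
      obtain ⟨e, he⟩ : (Fb S p1 \ Fb S p0).Nonempty := Finset.card_pos.1 (by omega)
      rw [Finset.mem_sdiff] at ha he
      have hb := hm b (by simp)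
      have hc := hm c (by simp)
      have hab : a ≠ b := fun h => ha.2 (mem_Fb.2 (h ▸ hb.2))
      have hac : a ≠ c := fun h => ha.2 (mem_Fb.2 (h ▸ hc.2))
      have hae : a ≠ e := fun h => ha.2 (h ▸ he.1)
      have hbe : b ≠ e := fun h => he.2 (h ▸ mem_Fb.2 hb.1)
      have hce : c ≠ e := fun h => he.2 (h ▸ mem_Fb.2 hc.1)
      have h5 := cnt_RdS_kite B (irrR hG) (hPr (S := S)) hab hac hbc hae hbe hce
        ⟨p0, mem_Fb.1 ha.1, hb.1⟩ ⟨p0, mem_Fb.1 ha.1, hc.1⟩ ⟨p0, hb.1, hc.1⟩
        ⟨p1, mem_Fb.1 he.1, hb.2⟩ ⟨p1, mem_Fb.1 he.1, hc.2⟩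
      omega
    · have h5 : 2 ≤ (Fb S p1 \ Fb S p0).card := by omega
      obtain ⟨t, ht, htc⟩ := Finset.exists_subset_card_eq h5
      obtain ⟨e, f, hef, rfl⟩ := Finset.card_eq_two.1 htc
      have he : e ∈ Fb S p1 \ Fb S p0 := ht (by simp)
      have hf : f ∈ Fb S p1 \ Fb S p0 := ht (by simp)
      rw [Finset.mem_sdiff] at he hf
      obtain ⟨g, hg⟩ : ((Fb S p1).erase e |>.erase f).Nonempty := by
        apply Finset.card_pos.1
        rw [Finset.card_erase_of_mem (Finset.mem_erase.2 ⟨hef.symm, hf.1⟩),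
          Finset.card_erase_of_mem he.1, hc1]
        norm_num
      have hg1 := Finset.ne_of_mem_erase hg
      have hg2 := Finset.ne_of_mem_erase (Finset.mem_of_mem_erase hg)
      have hg3 := Finset.mem_of_mem_erase (Finset.mem_of_mem_erase hg)
      obtain ⟨u, v, w, huv, huw, hvw, hF0⟩ := Finset.card_eq_three.1 hc0
      have m1 : (p0, u) ∈ S := mem_Fb.1 (by rw [hF0]; simp)
      have m2 : (p0, v) ∈ S := mem_Fb.1 (by rw [hF0]; simp)
      have m2' : (p0, w) ∈ S := mem_Fb.1 (by rw [hF0]; simp)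
      have he0 := he.2
      have hf0 := hf.2
      rw [hF0] at he0 hf0
      simp only [Finset.mem_insert, Finset.mem_singleton, not_or] at he0 hf0
      have h8 := fresh4 B (irrR hG) (hPr (S := S)) m1 m2 m1 m2' (mem_Fb.1 hg3) (mem_Fb.1 he.1)
        (mem_Fb.1 hg3) (mem_Fb.1 hf.1) huv huw hg2 hg1 huw.symm hvw.symm he0.1 he0.2.1 he0.1
        he0.2.2 hf0.1 hf0.2.1 hf0.1 hf0.2.2 (Ne.symm hg1) hef.symm
      omega

/-- four in a column -/
lemma quad (A : Side d H V X) (B : Side d H V Y) {Rd Tot : Set (Rel X)}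
    (hG : Good A Rd Tot) {S : Finset (X × Y)} {p0 : X} (hc0 : 4 ≤ (Fb S p0).card)
    (h2 : (Pr S).card = 2) :
    32 ≤ cnt (TotS A B Rd Tot) S := by
  classical
  have h6 := hG.R2 (Pr S) h2
  have h7 := cnt_mono (S := S) (RdS_sub A B Rd Tot)
  obtain ⟨t, ht, htc⟩ := Finset.exists_subset_card_eq hc0
  obtain ⟨a, t', hat, rfl, ht'⟩ := Finset.card_eq_succ.1 htc
  obtain ⟨b, c, e, hbc, hbe, hce, rfl⟩ := Finset.card_eq_three.1 ht'
  simp only [Finset.mem_insert, Finset.mem_singleton, not_or] at hat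
  have ha : (p0, a) ∈ S := mem_Fb.1 (ht (by simp))
  have hb : (p0, b) ∈ S := mem_Fb.1 (ht (by simp))
  have hc : (p0, c) ∈ S := mem_Fb.1 (ht (by simp))
  have he : (p0, e) ∈ S := mem_Fb.1 (ht (by simp))
  have h5 := cnt_RdS_kite B (irrR hG) (hPr (S := S)) hat.1 hat.2.1 hbc hat.2.2 hbe hce
    ⟨p0, ha, hb⟩ ⟨p0, ha, hc⟩ ⟨p0, hb, hc⟩ ⟨p0, he, hb⟩ ⟨p0, he, hc⟩
  omega

/-- equal pairs over two columns, a different pair over the third one -/
lemma eq_eq_ne (A : Side d H V X) (B : Side d H V Y) {Rd Tot : Set (Rel X)}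
    (hG : Good A Rd Tot) {S : Finset (X × Y)} {p q x : X} (h3 : (Pr S).card = 3)
    (hpq : p ≠ q) (hxp : x ≠ p) (hxq : x ≠ q) (hc : (Fb S p).card = 2)
    (heq : Fb S q = Fb S p) (hcx : (Fb S x).card = 2) (hne : Fb S x ≠ Fb S p) :
    32 ≤ cnt (TotS A B Rd Tot) S := by
  classical
  obtain ⟨v, v', hv, hF⟩ := Finset.card_eq_two.1 hc
  have hsub : ¬ Fb S x ⊆ Fb S p := fun h =>
    hne (Finset.eq_of_subset_of_card_le h (by omega))
  obtain ⟨y, y', hyy, hFx, hy'⟩ := exists_new hcx hsub
  rw [hF] at hy'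
  simp only [Finset.mem_insert, Finset.mem_singleton, not_or] at hy'
  have h5 := rect6 A B hG (hPr (S := S)) hpq hv (mem_Fb.1 (by rw [hF]; simp))
    (mem_Fb.1 (by rw [hF]; simp)) (mem_Fb.1 (by rw [heq, hF]; simp))
    (mem_Fb.1 (by rw [heq, hF]; simp)) (x := x) (y := y) (y' := y')
    (mem_Fb.1 (by rw [hFx]; simp)) (mem_Fb.1 (by rw [hFx]; simp)) hxp hxq hyy hy'.1 hy'.2
  have h6 := hG.R3 (Pr S) h3
  omega

/-- three pairs -/
lemma three_pairs (A : Side d H V X) (B : Side d H V Y) {Rd Tot : Set (Rel X)}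
    (hG : Good A Rd Tot) {S : Finset (X × Y)} {p q x : X} (h3 : (Pr S).card = 3)
    (hpq : p ≠ q) (hxp : x ≠ p) (hxq : x ≠ q) (hcp : (Fb S p).card = 2)
    (hcq : (Fb S q).card = 2) (hcx : (Fb S x).card = 2) :
    32 ≤ cnt (TotS A B Rd Tot) S := by
  classical
  have h6 := hG.R3 (Pr S) h3
  have h7 := cnt_mono (S := S) (RdS_sub A B Rd Tot)
  by_cases h1 : Fb S q = Fb S p
  · by_cases h2 : Fb S x = Fb S p
    · obtain ⟨v, v', hv, hF⟩ := Finset.card_eq_two.1 hcp
      have h5 := grid A B hpq hxp.symm hxq.symm hv S (mem_Fb.1 (by rw [hF]; simp))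
        (mem_Fb.1 (by rw [hF]; simp)) (mem_Fb.1 (by rw [h1, hF]; simp))
        (mem_Fb.1 (by rw [h1, hF]; simp)) (mem_Fb.1 (by rw [h2, hF]; simp))
        (mem_Fb.1 (by rw [h2, hF]; simp))
      exact h5.trans (cnt_mono (DD_sub A B Rd Tot))
    · exact eq_eq_ne A B hG h3 hpq hxp hxq hcp h1 hcx h2
  · by_cases h2 : Fb S x = Fb S p
    · exact eq_eq_ne A B hG h3 hxp.symm hpq.symm hxq.symm hcp h2 hcq h1
    · by_cases h4 : Fb S x = Fb S q
      · exact eq_eq_ne A B hG h3 hxq.symm hpq hxp.symm hcq h4 hcp (fun h => h1 h.symm)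
      · -- all different
        obtain ⟨a, b, hab, hFp⟩ := Finset.card_eq_two.1 hcp
        obtain ⟨c, e, hce, hFq, he⟩ := exists_new hcq (C0 := Fb S p) fun h =>
          h1 (Finset.eq_of_subset_of_card_le h (by omega))
        rw [hFp] at he
        simp only [Finset.mem_insert, Finset.mem_singleton, not_or] at he
        have ma : (p, a) ∈ S := mem_Fb.1 (by rw [hFp]; simp)
        have mb : (p, b) ∈ S := mem_Fb.1 (by rw [hFp]; simp)
        have mc : (q, c) ∈ S := mem_Fb.1 (by rw [hFq]; simp)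
        have me : (q, e) ∈ S := mem_Fb.1 (by rw [hFq]; simp)
        by_cases hsub : Fb S x ⊆ ({a, b, c, e} : Finset Y)
        · by_cases hcab : c = a ∨ c = b
          · -- triangle: `c'` the other one of `a, b`
            obtain ⟨c', hc'ne, hc'p, hFp'⟩ : ∃ c', c' ≠ c ∧ (p, c') ∈ S ∧
                Fb S p = {c', c} := by
              rcases hcab with rfl | rfl
              · exact ⟨b, hab.symm, mb, by rw [hFp, Finset.pair_comm]⟩
              · exact ⟨a, hab, ma, hFp⟩
            have hec' : c' ≠ e := by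
              rintro rfl
              have h8 : c' ∈ Fb S p := by rw [hFp']; simp
              rw [hFp] at h8
              simp only [Finset.mem_insert, Finset.mem_singleton] at h8
              rcases h8 with h8 | h8
              · exact he.1 h8
              · exact he.2 h8
            have mc0 : (p, c) ∈ S := by rcases hcab with h | h <;> rw [h] <;> assumption
            have hsub2 : Fb S x ⊆ ({c', c, e} : Finset Y) := by
              intro z hz
              have h8 := hsub hz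
              simp only [Finset.mem_insert, Finset.mem_singleton] at h8 ⊢
              have h9 : ∀ w, (p, w) ∈ S → w = c' ∨ w = c := by
                intro w hw
                have := mem_Fb.2 hw
                rw [hFp'] at this
                simpa using this
              rcases h8 with rfl | rfl | rfl | rfl
              · rcases h9 _ ma with h | h <;> simp [h]
              · rcases h9 _ mb with h | h <;> simp [h]
              · simp
              · simp
            have hxe : e ∈ Fb S x := by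
              by_contra hcon
              apply h2
              rw [hFp']
              refine Finset.eq_of_subset_of_card_le ?_ (by
                rw [Finset.card_pair hc'ne, hcx])
              intro z hz
              have h8 := hsub2 hz
              simp only [Finset.mem_insert, Finset.mem_singleton] at h8 ⊢
              rcases h8 with h | h | h
              · exact Or.inl h
              · exact Or.inr h
              · exact absurd (h ▸ hz) hcon
            have hxc' : c' ∈ Fb S x := by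
              by_contra hcon
              apply h4
              rw [hFq]
              refine Finset.eq_of_subset_of_card_le ?_ (by
                rw [Finset.card_pair hce, hcx])
              intro z hz
              have h8 := hsub2 hz
              simp only [Finset.mem_insert, Finset.mem_singleton] at h8 ⊢
              rcases h8 with h | h | h
              · exact absurd (h ▸ hz) hcon
              · exact Or.inl h
              · exact Or.inr h
            have h5 := triangle A B hG (hPr (S := S)) hpq hxp.symm hxq.symm hc'ne hec' hce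
              hc'p mc0 mc me (mem_Fb.1 hxc') (mem_Fb.1 hxe)
            omega
          · push Not at hcab
            -- one element of the third pair is in `{a, b}`, the other one in `{c, e}`
            have hx1 : ∃ f ∈ Fb S x, f = a ∨ f = b := by
              by_contra hcon
              push Not at hcon
              apply h4
              rw [hFq]
              refine Finset.eq_of_subset_of_card_le ?_ (by rw [Finset.card_pair hce, hcx])
              intro z hz
              have h8 := hsub hz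
              simp only [Finset.mem_insert, Finset.mem_singleton] at h8 ⊢
              have h9 := hcon z hz
              rcases h8 with h | h | h | h
              · exact absurd h h9.1
              · exact absurd h h9.2
              · exact Or.inl h
              · exact Or.inr h
            have hx2 : ∃ g ∈ Fb S x, g = c ∨ g = e := by
              by_contra hcon
              push Not at hcon
              apply h2
              rw [hFp]
              refine Finset.eq_of_subset_of_card_le ?_ (by rw [Finset.card_pair hab, hcx])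
              intro z hz
              have h8 := hsub hz
              simp only [Finset.mem_insert, Finset.mem_singleton] at h8 ⊢
              have h9 := hcon z hz
              rcases h8 with h | h | h | h
              · exact Or.inl h
              · exact Or.inr h
              · exact absurd h h9.1
              · exact absurd h h9.2
            obtain ⟨f, hfx, hf⟩ := hx1
            obtain ⟨g, hgx, hg⟩ := hx2
            obtain ⟨g', hg'g, hg'q, hg'ce⟩ : ∃ g', g' ≠ g ∧ (q, g') ∈ S ∧ (g' = c ∨ g' = e) := by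
              rcases hg with rfl | rfl
              · exact ⟨e, hce.symm, me, Or.inr rfl⟩
              · exact ⟨c, hce, mc, Or.inl rfl⟩
            have hgq : (q, g) ∈ S := by rcases hg with h | h <;> rw [h] <;> assumption
            have n1 : ∀ z, (z = c ∨ z = e) → z ≠ a ∧ z ≠ b := by
              rintro z (rfl | rfl)
              · exact hcab
              · exact he
            have hfg : f ≠ g := by
              rintro rfl
              rcases hf with h | h
              · exact (n1 _ hg).1 h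
              · exact (n1 _ hg).2 h
            have hfg' : g' ≠ f := by
              rintro rfl
              rcases hf with h | h
              · exact (n1 _ hg'ce).1 h
              · exact (n1 _ hg'ce).2 h
            have h5 := fresh3 B (irrR hG) (hPr (S := S)) ma mb (mem_Fb.1 hfx) (mem_Fb.1 hgx)
              hgq hg'q hab hfg hg'g.symm (n1 _ hg).1 (n1 _ hg).2 (n1 _ hg'ce).1 (n1 _ hg'ce).2
              hfg' hg'g
            omega
        · obtain ⟨f, g, hfg, hFx, hgn⟩ := exists_new hcx hsub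
          simp only [Finset.mem_insert, Finset.mem_singleton, not_or] at hgn
          have h5 := fresh3 B (irrR hG) (hPr (S := S)) ma mb mc me
            (mem_Fb.1 (by rw [hFx]; simp) : (x, f) ∈ S) (mem_Fb.1 (by rw [hFx]; simp) : (x, g) ∈ S)
            hab hce hfg he.1 he.2 hgn.1 hgn.2.1 hgn.2.2.1 hgn.2.2.2
          omega

end Pool.Agent.H14.SX
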