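import Mathlib
import Pool.Agent.H14.SX.StepC

/-!
# The induction step (counting half)

See note 2 of helper14 (table `think`, MP_16ff77_co).  `S ⊆ X × Y`, `Pr S` = projection to `X`,
`Fb S p` = fibres.  `StepA`: fibres, level orders, the three classes of a rectangle.
`StepB`: the configurations.  `StepC`: the case analysis for two and three large fibres.
-/

set_option autoImplicit false

namespace Pool.Agent.H14.SX

open Finset

variable {d : ℕ} {H V : ℤ} {X Y : Type}

lemma two_le_card {S : Finset (X × Y)} {p0 p1 : X} (hp0 : p0 ∈ Pr S) (hp1 : p1 ∈ Pr S)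
    (hne : p1 ≠ p0) : 2 ≤ (Pr S).card := by
  classical
  have : ({p0, p1} : Finset X) ⊆ Pr S := by
    intro z hz
    simp only [Finset.mem_insert, Finset.mem_singleton] at hz
    rcases hz with rfl | rfl <;> assumption
  have h5 := Finset.card_le_card this
  rwa [Finset.card_pair hne.symm] at h5

lemma three_le_card {S : Finset (X × Y)} {p0 p1 p2 : X} (hp0 : p0 ∈ Pr S) (hp1 : p1 ∈ Pr S)
    (hp2 : p2 ∈ Pr S) (h01 : p1 ≠ p0) (h02 : p2 ≠ p0) (h12 : p2 ≠ p1) : 3 ≤ (Pr S).card := by
  classical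
  have : ({p0, p1, p2} : Finset X) ⊆ Pr S := by
    intro z hz
    simp only [Finset.mem_insert, Finset.mem_singleton] at hz
    rcases hz with rfl | rfl | rfl <;> assumption
  have h5 := Finset.card_le_card this
  rwa [Finset.card_eq_three.2 ⟨p0, p1, p2, h01.symm, h02.symm, h12.symm, rfl⟩] at h5

lemma UU_case1 (A : Side d H V X) (B : Side d H V Y) {Rd Tot : Set (Rel X)}
    (hG : Good A Rd Tot) {S : Finset (X × Y)} {p0 : X} (hp0 : p0 ∈ Pr S)
    (hc : S.card + 1 = (Pr S).card + (Fb S p0).card) (h3 : (Fb S p0).card ≤ 3)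
    (h6 : S.card ≤ 6) : 2 ^ (S.card - 1) ≤ cnt (UU B Tot) S := by
  classical
  have h0 : 1 ≤ (Pr S).card := Finset.card_pos.2 ⟨p0, hp0⟩
  have h1 := card_Fb_pos hp0
  have hP := hG.P (Pr S) (by omega)
  have hirr : ∀ r ∈ Tot, ∀ x, ¬ r x x := fun r hr => (hG.sto r hr).irr
  have hcase : (Fb S p0).card = 1 ∨ (Fb S p0).card = 2 ∨ (Fb S p0).card = 3 := by omega
  rcases hcase with h | h | h
  · have h4 := cnt_UU1 B hirr (hPr (S := S))
    have h5 : S.card = (Pr S).card := by omega
    rw [h5]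
    exact hP.trans h4
  · obtain ⟨a, b, hab, hF⟩ := Finset.card_eq_two.1 h
    have h4 := cnt_UU2 B hirr (hPr (S := S)) hab (x := p0) (mem_Fb.1 (by rw [hF]; simp))
      (mem_Fb.1 (by rw [hF]; simp))
    have h5 : 2 ^ (S.card - 1) = 2 ^ ((Pr S).card - 1) * 2 := by
      rw [← pow_succ]
      congr 1
      omega
    rw [h5]
    exact (Nat.mul_le_mul_right _ hP).trans h4
  · obtain ⟨a, b, c, hab, hac, hbc, hF⟩ := Finset.card_eq_three.1 h
    have h4 := cnt_UU3 B hirr (hPr (S := S)) hab hac hbc (x := p0)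
      (mem_Fb.1 (by rw [hF]; simp)) (mem_Fb.1 (by rw [hF]; simp)) (mem_Fb.1 (by rw [hF]; simp))
    have h5 : 2 ^ (S.card - 1) = 2 ^ ((Pr S).card - 1) * 4 := by
      have : (4 : ℕ) = 2 ^ 2 := by norm_num
      rw [this, ← pow_add]
      congr 1
      omega
    rw [h5]
    exact (Nat.mul_le_mul_right _ hP).trans h4

lemma TotS_nonempty (A : Side d H V X) (B : Side d H V Y) {Rd Tot : Set (Rel X)}
    (hG : Good A Rd Tot) : (TotS A B Rd Tot).Nonempty := by
  obtain ⟨r, hr⟩ := hG.R1
  exact ⟨_, Or.inl ⟨r, hG.Rsub hr, fun _ => false, rfl⟩⟩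

lemma RdS_nonempty (B : Side d H V Y) {Rd : Set (Rel X)} (h : Rd.Nonempty) :
    (RdS B Rd).Nonempty := by
  obtain ⟨r, hr⟩ := h
  exact ⟨_, r, hr, fun _ => 0, rfl⟩

theorem stepP (A : Side d H V X) (B : Side d H V Y) {Rd Tot : Set (Rel X)}
    (hG : Good A Rd Tot) (S : Finset (X × Y)) (h6 : S.card ≤ 6) :
    2 ^ (S.card - 1) ≤ cnt (TotS A B Rd Tot) S := by
  rcases S.eq_empty_or_nonempty with rfl | hne
  · simpa using one_le_cnt (TotS_nonempty A B hG) (∅ : Finset (X × Y))
  obtain ⟨p0, hp0, ⟨-, hc⟩ | ⟨p1, hp1, h10, h1c, hle, h⟩⟩ := fib_cases S hne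
  · by_cases h3 : (Pr S).card ≤ 3
    · exact (R_case1 A B hG hp0 hc h3 h6).trans (cnt_mono (RdS_sub A B Rd Tot))
    · exact (UU_case1 A B hG hp0 hc (by omega) h6).trans (cnt_mono (UU_sub A B Rd Tot))
  · have h2 := two_le_card hp0 hp1 h10
    rcases h with h | ⟨p2, hp2, h20, h21, h2c, hle2, h⟩
    · have hcase : ((Fb S p0).card = 2 ∧ (Fb S p1).card = 2) ∨
          ((Fb S p0).card = 3 ∧ (Fb S p1).card = 2) ∨
          ((Fb S p0).card = 4 ∧ (Fb S p1).card = 2) ∨
          ((Fb S p0).card = 3 ∧ (Fb S p1).card = 3) := by omega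
      rcases hcase with ⟨e0, e1⟩ | ⟨e0, e1⟩ | ⟨e0, e1⟩ | ⟨e0, e1⟩
      · have h5 := pair_pair A B hG hp0 hp1 h10 e0 e1 (by omega)
        have h7 : S.card - 1 = (Pr S).card + 1 := by omega
        rwa [h7]
      · have h5 := triple_pair A B hG hp0 hp1 h10 e0 e1 (by omega)
        have h7 : S.card - 1 = (Pr S).card + 2 := by omega
        rwa [h7]
      · have h5 := quad A B hG (p0 := p0) (by omega) (by omega : (Pr S).card = 2)
        have h7 : S.card - 1 = 5 := by omega
        rw [h7]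
        exact h5
      · have h5 := triple_triple A B hG h10 e0 e1 (by omega)
        have h7 : S.card - 1 = 5 := by omega
        rw [h7]
        exact h5
    · have h3 := three_le_card hp0 hp1 hp2 h10 h20 h21
      have h5 := three_pairs A B hG (S := S) (p := p0) (q := p1) (x := p2) (by omega) h10.symm h20 h21
        (by omega) (by omega) (by omega)
      have h7 : S.card - 1 = 5 := by omega
      rw [h7]
      exact h5

/-- the random orders: `2^(|S|-1)` patterns except for four points which are unfavourable -/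
theorem stepR (A : Side d H V X) (B : Side d H V Y) {Rd Tot : Set (Rel X)}
    (hG : Good A Rd Tot) (S : Finset (X × Y)) (hne : S.Nonempty) (h4 : S.card ≤ 4) :
    (2 ^ (S.card - 1) ≤ cnt (RdS B Rd) S) ∨
    (S.card = 4 ∧ (Pr S).card = 4 ∧ cnt Rd (Pr S) ≤ cnt (RdS B Rd) S) ∨
    (S.card = 4 ∧ 4 ≤ cnt (RdS B Rd) S ∧ 12 ≤ cnt (TotS A B Rd Tot) S) := by
  classical
  obtain ⟨p0, hp0, ⟨-, hc⟩ | ⟨p1, hp1, h10, h1c, hle, h⟩⟩ := fib_cases S hne
  · by_cases h3 : (Pr S).card ≤ 3
    · exact Or.inl (R_case1 A B hG hp0 hc h3 (by omega))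
    · have h1 := card_Fb_pos hp0
      right
      left
      have h5 := star B (irrR hG) (hPr (S := S)) p0 (m := 0) (by omega) (by omega)
      refine ⟨by omega, by omega, ?_⟩
      simpa using h5
  · have h2 := two_le_card hp0 hp1 h10
    have hP2 : (Pr S).card = 2 := by
      rcases h with h | ⟨p2, hp2, h20, h21, h2c, hle2, h⟩ <;> omega
    have e0 : (Fb S p0).card = 2 := by
      rcases h with h | ⟨p2, hp2, h20, h21, h2c, hle2, h⟩ <;> omega
    have e1 : (Fb S p1).card = 2 := by omega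
    have hS4 : S.card = 4 := by
      rcases h with h | ⟨p2, hp2, h20, h21, h2c, hle2, h⟩ <;> omega
    have hR2 := hG.R2 (Pr S) hP2
    by_cases hsub : Fb S p1 ⊆ Fb S p0
    · right
      right
      have heq : Fb S p1 = Fb S p0 := Finset.eq_of_subset_of_card_le hsub (by omega)
      obtain ⟨v, v', hv, hF⟩ := Finset.card_eq_two.1 e0
      have ha : (p0, v) ∈ S := mem_Fb.1 (by rw [hF]; simp)
      have hb : (p0, v') ∈ S := mem_Fb.1 (by rw [hF]; simp)
      have hc : (p1, v) ∈ S := mem_Fb.1 (by rw [heq, hF]; simp)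
      have he : (p1, v') ∈ S := mem_Fb.1 (by rw [heq, hF]; simp)
      have h5 := rect4 A B hG (hPr (S := S)) h10.symm hv ha hb hc he
      have h6 := star B (irrR hG) (hPr (S := S)) p0 (m := 1) e0 (by omega)
      have hP := hG.P (Pr S) (by omega)
      rw [hP2] at hP
      norm_num at hP h6
      refine ⟨hS4, by omega, by omega⟩
    · left
      obtain ⟨c, e, hce, hF1, he0⟩ := exists_new e1 hsub
      obtain ⟨a, b, hab, hF0⟩ := Finset.card_eq_two.1 e0
      rw [hF0] at he0
      simp only [Finset.mem_insert, Finset.mem_singleton, not_or] at he0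
      have h5 := fresh2 B (irrR hG) (hPr (S := S)) (mem_Fb.1 (by rw [hF0]; simp) : (p0, a) ∈ S)
        (mem_Fb.1 (by rw [hF0]; simp) : (p0, b) ∈ S) (mem_Fb.1 (by rw [hF1]; simp) : (p1, c) ∈ S)
        (mem_Fb.1 (by rw [hF1]; simp) : (p1, e) ∈ S) hab hce he0.1 he0.2
      rw [hS4]
      norm_num
      omega

theorem step (A : Side d H V X) (B : Side d H V Y) (Rd Tot : Set (Rel X))
    (hG : Good A Rd Tot) : Good (A.prod B) (RdS B Rd) (TotS A B Rd Tot) := by
  have hne : ∀ (S : Finset (X × Y)) {k : ℕ}, S.card = k + 1 → S.Nonempty := by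
    intro S k h
    exact Finset.card_pos.1 (by omega)
  refine ⟨TotS_sto A B hG.sto hG.Rsub, RdS_sub A B Rd Tot, ?_, fun S hS => stepP A B hG S hS,
    ?_, ?_, ?_, ?_, RdS_nonempty B hG.R1⟩
  · intro e
    rw [lev_prod]
    exact Or.inl ⟨lev A e, hG.Lsub e, _, rfl⟩
  · intro S hS
    have hP := stepP A B hG S (by omega)
    have hmono := cnt_mono (S := S) (RdS_sub A B Rd Tot)
    rcases stepR A B hG S (hne S hS) (by omega) with h | ⟨-, h2, h3⟩ | ⟨-, h2, h3⟩
    · rw [hS] at h hP
      norm_num at h hP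
      omega
    · have h4 := hG.Q (Pr S) h2
      have h5 := (cnt_UU1 B (fun r hr => (hG.sto r hr).irr) (hPr (S := S))).trans
        (cnt_mono (S := S) (UU_sub A B Rd Tot))
      omega
    · omega
  · intro S hS
    rcases stepR A B hG S (hne S hS) (by omega) with h | ⟨-, h2, h3⟩ | ⟨-, h2, h3⟩
    · rw [hS] at h
      norm_num at h
      omega
    · have h4 := hG.R4 (Pr S) h2
      omega
    · omega
  · intro S hS
    rcases stepR A B hG S (hne S hS) (by omega) with h | ⟨h1, h2, h3⟩ | ⟨h1, h2, h3⟩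
    · rw [hS] at h
      norm_num at h
      omega
    · omega
    · omega
  · intro S hS
    rcases stepR A B hG S (hne S hS) (by omega) with h | ⟨h1, h2, h3⟩ | ⟨h1, h2, h3⟩
    · rw [hS] at h
      norm_num at h
      omega
    · omega
    · omega

end Pool.Agent.H14.SX
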