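import Mathlib
import Pool.Agent.H14.SX.Defs
import Pool.Agent.H14.SX.Cnt
import Pool.Agent.H14.SX.Sto
import Pool.Agent.H14.SX.Rank
import Pool.Agent.H14.SX.Sch
import Pool.Agent.H14.SX.Fam
import Pool.Agent.H14.SX.Step

/-!
# The induction on the number of blocks
-/

set_option autoImplicit false

namespace Pool.Agent.H14.SX

open Finset

variable {d : ℕ} {H V : ℤ} {X Y : Type}

/-- a level order is on a small set a rank order -/
lemma exists_rk_lev (B : Side d H V Y) (e : ℕ → Bool) (C : Finset Y) (hC : C.card ≤ 6) :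
    ∃ f : Y → Fin 8, ∀ y ∈ C, ∀ y' ∈ C, (rk B f y y' ↔ lev B e y y') := by
  classical
  let key : Y → ℤ := fun y => ((C.filter (fun z => lev B e z y)).card : ℤ)
  have hs := lev_sto B e
  have hlt : ∀ x ∈ C, ∀ y ∈ C, lev B e x y → key x < key y := by
    intro x hx y hy hxy
    simp only [key]
    rw [Nat.cast_lt]
    apply Finset.card_lt_card
    rw [Finset.ssubset_iff_of_subset]
    · exact ⟨x, by simp [hx, hxy], by simp [hs.irr x]⟩
    · intro z hz
      simp only [Finset.mem_filter] at hz ⊢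
      exact ⟨hz.1, hs.trans _ _ _ hz.2 hxy⟩
  have hinj : Set.InjOn key C := by
    intro x hx y hy hxy
    by_contra h1
    rcases hs.tot x y h1 with h2 | h2
    · exact absurd (hlt _ hx _ hy h2) (by rw [hxy]; exact lt_irrefl _)
    · exact absurd (hlt _ hy _ hx h2) (by rw [hxy]; exact lt_irrefl _)
  obtain ⟨f, hf⟩ := exists_rk B C (by omega) key hinj
  refine ⟨f, fun y hy y' hy' => (hf y hy y' hy').trans ⟨?_, hlt y hy y' hy'⟩⟩
  intro h
  by_contra hc
  rcases eq_or_ne y y' with h1 | h1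
  · rw [h1] at h
    exact lt_irrefl _ h
  · rcases hs.tot y y' h1 with h2 | h2
    · exact hc h2
    · exact absurd (hlt _ hy' _ hy h2) (not_lt.mpr h.le)

lemma xf_congr {r r' : Rel X} (hr : STO r) (hr' : STO r') {s s' : Rel Y} {S : Finset (X × Y)}
    (h1 : ∀ p ∈ S, ∀ q ∈ S, (r p.1 q.1 ↔ r' p.1 q.1))
    (h2 : ∀ p ∈ S, ∀ q ∈ S, (s p.2 q.2 ↔ s' p.2 q.2)) :
    ∀ p ∈ S, ∀ q ∈ S, (xf r (fun _ => s) p q ↔ xf r' (fun _ => s') p q) := by
  rintro ⟨x, y⟩ hp ⟨x', y'⟩ hq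
  rw [hr.xf_iff, hr'.xf_iff]
  have h3 := h1 _ hp _ hq
  have h4 := h2 _ hp _ hq
  simp only at h3 h4
  rw [h3, h4]

/-- the free part of the design families -/
def DF (A : Side d H V X) (B : Side d H V Y) : Set (Rel (X × Y)) :=
  (⋃ p : Fin A.E × Fin (d + 1) × Bool, DO A B p.1 p.2.1 p.2.2) ∪ DN A B

/-- the labelled part of the design families -/
def DLs (A : Side d H V X) (B : Side d H V Y) : Set (Rel (X × Y)) :=
  ⋃ i : Fin B.m, DL A B i

lemma DD_sub_LF (A : Side d H V X) (B : Side d H V Y) : DD A B ⊆ DLs A B ∪ DF A B := by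
  rintro ρ (⟨i, hi, h⟩ | ⟨c, hc, r, hr, t, h⟩ | h)
  · exact Or.inl (Set.mem_iUnion.mpr ⟨⟨i, hi⟩, h⟩)
  · exact Or.inr (Or.inl (Set.mem_iUnion.mpr ⟨(⟨c, hc⟩, ⟨r, by omega⟩, t), h⟩))
  · exact Or.inr (Or.inr h)

lemma cov_DLs (A : Side d H V X) (B : Side d H V Y) :
    CovBy (DLs A B) B.m (B.M + A.M * (2 * V + 1).toNat) := by
  have := CovBy.of_iUnion (fun i : Fin B.m => DL A B i) (fun i => sch_DL A B i)
  rwa [Fintype.card_fin] at this

lemma cov_DF (A : Side d H V X) (B : Side d H V Y) :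
    CovBy (DF A B) (A.E * (d + 1) * 2 + 1) (A.M + B.M + 1) := by
  have h1 := CovBy.of_iUnion (fun p : Fin A.E × Fin (d + 1) × Bool => DO A B p.1 p.2.1 p.2.2)
    (fun p => sch_DO A B _ _ _)
  have h2 := CovBy.of_iUnion (fun _ : Unit => DN A B) (fun _ => sch_DN A B)
  rw [Fintype.card_prod, Fintype.card_prod, Fintype.card_fin, Fintype.card_fin,
    Fintype.card_bool, ← mul_assoc] at h1
  rw [Fintype.card_unit] at h2
  refine ((h1.mono subset_rfl (N' := A.M + B.M + 1) (by omega)).union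
    (h2.mono (O' := DN A B) (N' := A.M + B.M + 1) ?_ (by omega)))
  intro ρ h
  exact Set.mem_iUnion.mpr ⟨(), h⟩

lemma CovBy.sw {O : Set (Rel (Y × X))} {a N : ℕ} (h : CovBy O a N) :
    CovBy {ρ : Rel (X × Y) | ∃ σ ∈ O, ρ = SX.sw σ} a N := by
  obtain ⟨f, h1, h2⟩ := h
  refine ⟨fun i => {ρ : Rel (X × Y) | ∃ σ ∈ f i, ρ = SX.sw σ}, fun i => (h1 i).sw, ?_⟩
  rintro ρ ⟨σ, hσ, rfl⟩
  obtain ⟨i, hi⟩ := Set.mem_iUnion.mp (h2 hσ)
  exact Set.mem_iUnion.mpr ⟨i, σ, hi, rfl⟩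

theorem cov_step (A : Side d H V X) (B : Side d H V Y) [Fintype Y] {Rd Tot : Set (Rel X)}
    (hsto : ∀ r ∈ Tot, STO r) {a N1 b N2 N3 : ℕ} (h : Cov Rd Tot a N1 b N2 N3)
    {a' N1' b' N2' N3' : ℕ} (ha : a + B.m + A.m ≤ a')
    (hN1 : N1 + B.M ≤ N1') (hN1a : B.M + A.M * (2 * V + 1).toNat ≤ N1')
    (hN1b : A.M + B.M * (2 * V + 1).toNat ≤ N1')
    (hb : b + (A.E * (d + 1) * 2 + 1) + (B.E * (d + 1) * 2 + 1) ≤ b')
    (hN2 : N2 + B.M ≤ N2') (hN2a : A.M + B.M + 1 ≤ N2')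
    (hN3 : N3 + 3 * Fintype.card Y ≤ N3') :
    Cov (RdS B Rd) (TotS A B Rd Tot) a' N1' b' N2' N3' := by
  classical
  obtain ⟨L1, L2, h1, h2, h3, h4⟩ := h
  have c1 : CovBy ({ρ : Rel (X × Y) | ∃ o ∈ L1, ∃ e : ℕ → Bool, ρ = xf o (fun _ => lev B e)} ∪
      DLs A B ∪ {ρ : Rel (X × Y) | ∃ σ ∈ DLs B A, ρ = SX.sw σ}) (a + B.m + A.m) N1' :=
    (((h1.ext B).mono subset_rfl hN1).union ((cov_DLs A B).mono subset_rfl hN1a)).union
      ((cov_DLs B A).sw.mono subset_rfl hN1b)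
  have c2 : CovBy ({ρ : Rel (X × Y) | ∃ o ∈ L2, ∃ e : ℕ → Bool, ρ = xf o (fun _ => lev B e)} ∪
      DF A B ∪ {ρ : Rel (X × Y) | ∃ σ ∈ DF B A, ρ = SX.sw σ})
      (b + (A.E * (d + 1) * 2 + 1) + (B.E * (d + 1) * 2 + 1)) N2' :=
    (((h2.ext B).mono subset_rfl hN2).union ((cov_DF A B).mono subset_rfl hN2a)).union
      ((cov_DF B A).sw.mono subset_rfl (by omega))
  refine ⟨_, _, c1.addNum ha, c2.addNum hb, (sch_RdS B h3).mono subset_rfl hN3, ?_⟩
  rintro r (⟨o, ho, e, rfl⟩ | h | ⟨σ, hσ, rfl⟩ | h) S hS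
  · have hA : (S.image Prod.fst).card ≤ 6 := Finset.card_image_le.trans hS
    have hC : (S.image Prod.snd).card ≤ 6 := Finset.card_image_le.trans hS
    obtain ⟨o', ho', hoS⟩ := h4 o ho (S.image Prod.fst) hA
    have hso := hsto o ho
    rcases ho' with ho' | ho' | ho'
    · refine ⟨xf o' (fun _ => lev B e), Or.inl (Or.inl (Or.inl ⟨o', ho', e, rfl⟩)), ?_⟩
      obtain ⟨f, hf, hf2⟩ := h1
      obtain ⟨i, hi⟩ := Set.mem_iUnion.mp (hf2 ho')
      exact xf_congr hso ((hf i).sto o' hi)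
        (fun p hp q hq => hoS _ (Finset.mem_image_of_mem _ hp) _ (Finset.mem_image_of_mem _ hq))
        (fun p hp q hq => Iff.rfl)
    · refine ⟨xf o' (fun _ => lev B e), Or.inr (Or.inl (Or.inl (Or.inl ⟨o', ho', e, rfl⟩))), ?_⟩
      obtain ⟨f, hf, hf2⟩ := h2
      obtain ⟨i, hi⟩ := Set.mem_iUnion.mp (hf2 ho')
      exact xf_congr hso ((hf i).sto o' hi)
        (fun p hp q hq => hoS _ (Finset.mem_image_of_mem _ hp) _ (Finset.mem_image_of_mem _ hq))
        (fun p hp q hq => Iff.rfl)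
    · obtain ⟨f, hf⟩ := exists_rk_lev B e (S.image Prod.snd) hC
      refine ⟨xf o' (fun _ => rk B f), Or.inr (Or.inr ⟨o', ho', f, rfl⟩), ?_⟩
      exact xf_congr hso (h3.sto o' ho')
        (fun p hp q hq => hoS _ (Finset.mem_image_of_mem _ hp) _ (Finset.mem_image_of_mem _ hq))
        (fun p hp q hq => (hf _ (Finset.mem_image_of_mem _ hp) _
          (Finset.mem_image_of_mem _ hq)).symm)
  · refine ⟨r, ?_, fun _ _ _ _ => Iff.rfl⟩
    rcases DD_sub_LF A B h with h | h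
    · exact Or.inl (Or.inl (Or.inr h))
    · exact Or.inr (Or.inl (Or.inl (Or.inr h)))
  · refine ⟨sw σ, ?_, fun _ _ _ _ => Iff.rfl⟩
    rcases DD_sub_LF B A hσ with h | h
    · exact Or.inl (Or.inr ⟨σ, h, rfl⟩)
    · exact Or.inr (Or.inl (Or.inr ⟨σ, h, rfl⟩))
  · exact ⟨r, Or.inr (Or.inr h), fun _ _ _ _ => Iff.rfl⟩

/-- powers -/
def Pw (Y : Type) : ℕ → Type
  | 0 => Unit
  | (n + 1) => Pw Y n × Y

noncomputable instance instFintypePw (Y : Type) [Fintype Y] : ∀ n, Fintype (Pw Y n)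
  | 0 => inferInstanceAs (Fintype Unit)
  | (n + 1) => by
    haveI := instFintypePw Y n
    exact inferInstanceAs (Fintype (Pw Y n × Y))

lemma card_Pw (Y : Type) [Fintype Y] (n : ℕ) : Fintype.card (Pw Y n) = Fintype.card Y ^ n := by
  induction n with
  | zero => exact Fintype.card_unit
  | succ n ih =>
    have h1 : Fintype.card (Pw Y (n + 1)) = Fintype.card (Pw Y n × Y) := Fintype.card_congr
      (Equiv.refl _)
    rw [h1, Fintype.card_prod, ih, pow_succ]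

/-- the trivial side -/
noncomputable def unitSide (d : ℕ) (H V : ℤ) (hH : 0 ≤ H) (hV : 0 ≤ V) : Side d H V Unit where
  M := 0
  bit _ _ := false
  bit_inj := fun _ _ _ => rfl
  bit_out _ _ _ := rfl
  E := 0
  co _ := 0
  co_lt := by intro q hq; omega
  pt _ _ := 0
  nd _ _ := 0
  nd_pre _ _ _ _ := rfl
  nd_bd := by intro _ _; simpa using hH
  btw := by intro x y q _ _ h; exact absurd h Bool.false_ne_true
  m := 0
  pol _ _ := 0
  pol_inj := fun _ _ _ => rfl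
  pol_out _ _ _ := rfl
  pol_deg := by intro _ _; simp
  pol_bd := by intro _ _ _ _; simpa using hV

lemma cnt_pos {O : Set (Rel X)} (h : O.Nonempty) (S : Finset X) : 1 ≤ cnt O S := by
  obtain ⟨r, hr⟩ := h
  have := le_cnt (ι := Unit) (O := O) (S := S) (fun _ => r) (fun _ => hr) (fun _ _ _ => rfl)
  simpa using this

lemma good_unit (d : ℕ) (H V : ℤ) (hH : 0 ≤ H) (hV : 0 ≤ V) :
    Good (unitSide d H V hH hV) {fun _ _ => False} {fun _ _ => False} := by
  have hc : ∀ S : Finset Unit, S.card ≤ 1 := fun S => by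
    have := Finset.card_le_univ S
    simpa using this
  refine ⟨?_, subset_rfl, ?_, ?_, ?_, ?_, ?_, ?_, ⟨_, rfl⟩⟩
  · rintro r rfl
    exact ⟨fun _ h => h, fun _ _ _ h _ => h, fun x y h => absurd (Subsingleton.elim x y) h⟩
  · intro e
    rw [Set.mem_singleton_iff]
    funext x y
    apply propext
    constructor
    · rintro ⟨q, hq, _⟩
      exact hq.2 rfl
    · intro h
      exact absurd h id
  · intro S _
    have h1 := hc S
    have h2 : S.card - 1 = 0 := by omega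
    rw [h2, pow_zero]
    exact cnt_pos (Set.singleton_nonempty _) S
  · intro S hS; have := hc S; omega
  · intro S hS; have := hc S; omega
  · intro S hS; have := hc S; omega
  · intro S hS; have := hc S; omega

lemma cov_unit : Cov ({fun _ _ => False} : Set (Rel Unit)) {fun _ _ => False} 0 0 0 0 0 := by
  refine ⟨∅, ∅, ⟨fun i => i.elim0, fun i => i.elim0, Set.empty_subset _⟩,
    ⟨fun i => i.elim0, fun i => i.elim0, Set.empty_subset _⟩,
    ⟨Empty, inferInstance, fun _ _ _ => False, by simp, fun _ =>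
      ⟨fun _ h => h, fun _ _ _ h _ => h, fun x y h => absurd (Subsingleton.elim x y) h⟩,
      fun _ _ => ⟨∅, by simp, fun _ _ _ => Iff.rfl⟩, ?_⟩, ?_⟩
  · rintro r rfl
    exact ⟨fun _ => false, rfl⟩
  · rintro r rfl S _
    exact ⟨_, Or.inr (Or.inr rfl), fun _ _ _ _ => Iff.rfl⟩

theorem exists_sys (B : Side d H V Y) [Fintype Y] (hH : 0 ≤ H) (hV : 0 ≤ V) (hm : B.m = 1)
    (T : ℕ) :
    ∃ (A : Side d H V (Pw Y T)) (Rd Tot : Set (Rel (Pw Y T))), Good A Rd Tot ∧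
      A.M = T * B.M ∧ A.E = T * B.E ∧ A.m = T ∧
      Cov Rd Tot (T * T) (2 * T * B.M * (2 * V + 1).toNat)
        (2 * (d + 1) * B.E * T ^ 2 + 2 * T) (2 * T * B.M + 1) (3 * T * Fintype.card Y) := by
  induction T with
  | zero =>
    refine ⟨unitSide d H V hH hV, {fun _ _ => False}, {fun _ _ => False},
      good_unit d H V hH hV, by simp [unitSide], by simp [unitSide], rfl, ?_⟩
    have h := cov_unit
    obtain ⟨L1, L2, h1, h2, h3, h4⟩ := h
    refine ⟨L1, L2, ?_, ?_, ?_, h4⟩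
    · exact (CovBy.mono (X := Unit) h1 subset_rfl (by omega)).addNum (by omega)
    · exact (CovBy.mono (X := Unit) h2 subset_rfl (by omega)).addNum (by omega)
    · exact IsSch.mono (X := Unit) h3 subset_rfl (by omega)
  | succ T ih =>
    obtain ⟨A, Rd, Tot, hG, hM, hE, hmm, hC⟩ := ih
    refine ⟨A.prod B, RdS B Rd, TotS A B Rd Tot, step A B Rd Tot hG, ?_, ?_, ?_, ?_⟩
    · change A.M + B.M = _
      rw [hM]; ring
    · change A.E + B.E = _
      rw [hE]; ring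
    · change A.m + B.m = _
      rw [hmm, hm]
    · have hW : 1 ≤ (2 * V + 1).toNat := by omega
      refine cov_step A B hG.sto hC ?_ ?_ ?_ ?_ ?_ ?_ ?_ ?_
      · rw [hm, hmm]; nlinarith
      · nlinarith [Nat.mul_le_mul_left B.M hW]
      · rw [hM]; nlinarith [Nat.mul_le_mul_left B.M hW]
      · rw [hM]; nlinarith [Nat.mul_le_mul_left B.M hW, Nat.mul_le_mul_left (T * B.M) hW]
      · rw [hE]; nlinarith [Nat.zero_le (T * B.E * (d + 1))]
      · nlinarith
      · rw [hM]; nlinarith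
      · nlinarith

end Pool.Agent.H14.SX
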