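import Mathlib

/-!
# Numerics

Let `x = log n`, `y = log (log n)`; `n ≥ 16` gives `x ≥ 2.77` and `y ≥ 1` (`16 > exp (exp 1)`,
as `exp 1 < 2.7183` and `log 16 = 4 log 2 > 2.772`).
`T = ⌈x^(1/9)⌉₊`, so `x^(1/9) ≤ T ≤ 2 x^(1/9)`; `L = ⌈2 x / (T (T^2+1) T^2)⌉₊ ≥ 1`, so
`T * MM T L ≥ 2x`, `2^(T * MM) ≥ 2^(2x) ≥ e^x = n` (`log 2 > 1/2`), and `L ≤ 2x/T^5 + 1`.
`T^4 L ≤ 2x/T + T^4 ≤ 18 x^(8/9)`, `MM = (T^2+1) T^2 L ≤ 2 T^4 L ≤ 36 x^(8/9)`.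
* first term: `2 (N1 + 216) ≤ 434 N1`, `N1 = 2 T MM (2 VV + 1)`, `2 VV + 1 ≤ 3 VV`,
  `log VV = log (T^2+1) + (T^2 L + (L+1) T^2) log 2`; with `log z ≤ z` every summand of
  `log (434 N1)` is at most a constant times `T^2 L`, in total `≤ 30 T^2 L`.  So the first term is
  `≤ T^2 (30 cc T^2 L + 2) ≤ (30 cc + 2) T^4 L ≤ 18 (30 cc + 2) x^(8/9)`.
* second term: `bb T ≤ 10 T^8 ≤ 2560 x^(8/9)`, `N2 = 2 T MM + 1 ≤ 145 x`,
  `log (2 (N2 + 216)) ≤ log (722 x) ≤ 8 y`.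
* third term: `log (2 (N3 + 216)) ≤ log (1302 T) + MM ≤ 46 x^(8/9)`.
Any constant `C` (depending on `cc`) will do.
-/

set_option autoImplicit false

namespace Pool.Agent.H14.SX

def MM (T L : ℕ) : ℕ := (T ^ 2 + 1) * T ^ 2 * L

def VV (T L : ℕ) : ℤ := ((T ^ 2 : ℕ) + 1) * 2 ^ (T ^ 2 * L) * 2 ^ ((L + 1) * T ^ 2)

def N1 (T L : ℕ) : ℕ := 2 * T * MM T L * (2 * VV T L + 1).toNat

def N2 (T L : ℕ) : ℕ := 2 * T * MM T L + 1

def N3 (T L : ℕ) : ℕ := 3 * T * 2 ^ (MM T L)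

def bb (T : ℕ) : ℕ := 2 * (T ^ 2 + 1) * ((T ^ 2 + 1) * T ^ 2) * T ^ 2 + 2 * T

theorem MM_pos {T L : ℕ} (hT : 1 ≤ T) (hL : 1 ≤ L) : 1 ≤ MM T L := by
  unfold MM
  have h1 : 0 < (T ^ 2 + 1) * T ^ 2 * L := by positivity
  exact h1

theorem log_two_pow_le (k : ℕ) : Real.log ((2 : ℝ) ^ k) ≤ k := by
  rw [Real.log_pow]
  have h1 : Real.log 2 ≤ 1 := by
    have := Real.log_two_lt_d9
    linarith
  have h2 : (0 : ℝ) ≤ k := Nat.cast_nonneg k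
  nlinarith

theorem log_nat_le {m k : ℕ} (hm : 1 ≤ m) (h : m ≤ 2 ^ k) : Real.log (m : ℝ) ≤ k := by
  refine le_trans (Real.log_le_log ?_ ?_) (log_two_pow_le k)
  · exact_mod_cast hm
  · exact_mod_cast h

theorem N1_eq (T L : ℕ) : (2 * VV T L + 1).toNat =
    2 * ((T ^ 2 + 1) * 2 ^ (T ^ 2 * L) * 2 ^ ((L + 1) * T ^ 2)) + 1 := by
  have h : (2 * VV T L + 1) =
      ((2 * ((T ^ 2 + 1) * 2 ^ (T ^ 2 * L) * 2 ^ ((L + 1) * T ^ 2)) + 1 : ℕ) : ℤ) := by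
    unfold VV
    push_cast
    ring
  rw [h, Int.toNat_natCast]

theorem N1_le {T L : ℕ} (hT : 1 ≤ T) (hL : 1 ≤ L) :
    2 * (N1 T L + 216) ≤ 2 ^ (12 + T + 4 * T ^ 2 + L + 2 * (T ^ 2 * L)) := by
  have hM := MM_pos hT hL
  have e1 : T ≤ 2 ^ T := Nat.lt_two_pow_self.le
  have e2 : T ^ 2 + 1 ≤ 2 ^ (T ^ 2) := Nat.lt_two_pow_self
  have e3 : L ≤ 2 ^ L := Nat.lt_two_pow_self.le
  have e4 : T ^ 2 ≤ 2 ^ (T ^ 2) := Nat.lt_two_pow_self.le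
  have eM : MM T L ≤ 2 ^ (T ^ 2) * 2 ^ (T ^ 2) * 2 ^ L := by
    unfold MM
    exact Nat.mul_le_mul (Nat.mul_le_mul e2 e4) e3
  have eV : (2 * VV T L + 1).toNat ≤ 4 * (2 ^ (T ^ 2) * 2 ^ (T ^ 2 * L) * 2 ^ ((L + 1) * T ^ 2)) := by
    rw [N1_eq]
    have h1 : (T ^ 2 + 1) * 2 ^ (T ^ 2 * L) * 2 ^ ((L + 1) * T ^ 2) ≤
        2 ^ (T ^ 2) * 2 ^ (T ^ 2 * L) * 2 ^ ((L + 1) * T ^ 2) :=
      Nat.mul_le_mul_right _ (Nat.mul_le_mul_right _ e2)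
    have h2 : 1 ≤ 2 ^ (T ^ 2) * 2 ^ (T ^ 2 * L) * 2 ^ ((L + 1) * T ^ 2) := Nat.one_le_iff_ne_zero.2
      (by positivity)
    omega
  have hV1 : 1 ≤ (2 * VV T L + 1).toNat := by
    rw [N1_eq]; omega
  have hN : N1 T L ≤ 2 * 2 ^ T * (2 ^ (T ^ 2) * 2 ^ (T ^ 2) * 2 ^ L) *
      (4 * (2 ^ (T ^ 2) * 2 ^ (T ^ 2 * L) * 2 ^ ((L + 1) * T ^ 2))) := by
    unfold N1
    exact Nat.mul_le_mul (Nat.mul_le_mul (Nat.mul_le_mul_left _ e1) eM) eV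
  have hN1 : 1 ≤ N1 T L := by
    unfold N1
    have : 0 < 2 * T * MM T L * (2 * VV T L + 1).toNat := by positivity
    exact this
  have h512 : 2 * (N1 T L + 216) ≤ 2 ^ 9 * N1 T L := by
    have : (2 : ℕ) ^ 9 = 512 := by norm_num
    rw [this]; omega
  refine h512.trans ((Nat.mul_le_mul_left _ hN).trans (le_of_eq ?_))
  have h4 : (4 : ℕ) = 2 ^ 2 := by norm_num
  rw [h4]
  ring

theorem N3_le {T L : ℕ} (hT : 1 ≤ T) :
    2 * (N3 T L + 216) ≤ 2 ^ (11 + T + MM T L) := by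
  have e1 : T ≤ 2 ^ T := Nat.lt_two_pow_self.le
  have hN : N3 T L ≤ 4 * 2 ^ T * 2 ^ (MM T L) := by
    unfold N3
    exact Nat.mul_le_mul_right _ (Nat.mul_le_mul (by norm_num) e1)
  have hN1 : 1 ≤ N3 T L := by
    unfold N3
    have : 0 < 3 * T * 2 ^ (MM T L) := by positivity
    exact this
  have h512 : 2 * (N3 T L + 216) ≤ 2 ^ 9 * N3 T L := by
    have : (2 : ℕ) ^ 9 = 512 := by norm_num
    rw [this]; omega
  refine h512.trans ((Nat.mul_le_mul_left _ hN).trans (le_of_eq ?_))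
  have h4 : (4 : ℕ) = 2 ^ 2 := by norm_num
  rw [h4]
  ring

theorem bb_le {T : ℕ} (hT : 1 ≤ T) : bb T ≤ 10 * T ^ 8 := by
  unfold bb
  have h1 : T ^ 2 + 1 ≤ 2 * T ^ 2 := by
    have : 1 ≤ T ^ 2 := Nat.one_le_pow _ _ hT
    omega
  have h2 : T ≤ T ^ 8 := Nat.le_self_pow (by norm_num) T
  have h3 : 2 * (T ^ 2 + 1) * ((T ^ 2 + 1) * T ^ 2) * T ^ 2 ≤
      2 * (2 * T ^ 2) * ((2 * T ^ 2) * T ^ 2) * T ^ 2 := by gcongr
  have h4 : 2 * (2 * T ^ 2) * ((2 * T ^ 2) * T ^ 2) * T ^ 2 = 8 * T ^ 8 := by ring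
  omega

/-- everything in terms of `a = x^(1/9)` -/
theorem core (cc a y : ℝ) (hcc : 0 ≤ cc) (ha : 1 ≤ a) (hy : 1 ≤ y) (hlog : Real.log (a ^ 9) = y)
    (T L : ℕ) (hT1 : a ≤ T) (hT2 : (T : ℝ) ≤ 2 * a) (hL1 : 1 ≤ L)
    (hL2 : ((T : ℝ) ^ 3 * ((T : ℝ) ^ 2 + 1)) * L ≤ 2 * a ^ 9 + (T : ℝ) ^ 3 * ((T : ℝ) ^ 2 + 1)) :
    ((T * T : ℕ) : ℝ) * (cc * Real.log (2 * ((N1 T L : ℝ) + 216)) + 2) +
        (bb T : ℝ) * (cc * Real.log (2 * ((N2 T L : ℝ) + 216)) + 2) +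
        (cc * Real.log (2 * ((N3 T L : ℝ) + 216)) + 2) ≤
      (18 * (20 * cc + 2) + 2560 * (699 * cc + 2) + (49 * cc + 2)) * a ^ 8 * y := by
  have hT : 1 ≤ T := by
    have : (1 : ℝ) ≤ T := ha.trans hT1
    exact_mod_cast this
  have hTr : (1 : ℝ) ≤ T := by exact_mod_cast hT
  have hLr : (1 : ℝ) ≤ L := by exact_mod_cast hL1
  have ha0 : 0 < a := by linarith
  have ha8 : 1 ≤ a ^ 8 := one_le_pow₀ ha
  have ha48 : a ^ 4 ≤ a ^ 8 := pow_le_pow_right₀ ha (by norm_num)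
  have ha18 : a ≤ a ^ 8 := le_self_pow₀ ha (by norm_num)
  have ha59 : a ^ 5 ≤ a ^ 9 := pow_le_pow_right₀ ha (by norm_num)
  have ha9 : 1 ≤ a ^ 9 := one_le_pow₀ ha
  have hT5 : (T : ℝ) ^ 5 ≤ 32 * a ^ 5 := by
    calc (T : ℝ) ^ 5 ≤ (2 * a) ^ 5 := by gcongr
      _ = 32 * a ^ 5 := by ring
  have hT4 : (T : ℝ) ^ 4 ≤ 16 * a ^ 4 := by
    calc (T : ℝ) ^ 4 ≤ (2 * a) ^ 4 := by gcongr
      _ = 16 * a ^ 4 := by ring
  have hT8 : (T : ℝ) ^ 8 ≤ 256 * a ^ 8 := by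
    calc (T : ℝ) ^ 8 ≤ (2 * a) ^ 8 := by gcongr
      _ = 256 * a ^ 8 := by ring
  -- `T^4 L ≤ 18 a^8`
  have hTL : (T : ℝ) ^ 4 * L ≤ 18 * a ^ 8 := by
    have h1 : (T : ℝ) ^ 5 * L ≤ 2 * a ^ 9 + (T : ℝ) ^ 5 := by
      have h2 : (T : ℝ) ^ 3 * (L - 1) ≥ 0 := by
        have : (0 : ℝ) ≤ L - 1 := by linarith
        positivity
      nlinarith
    have h3 : (T : ℝ) * ((T : ℝ) ^ 4 * L) ≤ T * (2 * a ^ 8 + (T : ℝ) ^ 4) := by
      have h4 : a ^ 9 ≤ T * a ^ 8 := by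
        have : a ^ 9 = a * a ^ 8 := by ring
        rw [this]
        gcongr
      nlinarith
    have h5 : (T : ℝ) ^ 4 * L ≤ 2 * a ^ 8 + (T : ℝ) ^ 4 :=
      le_of_mul_le_mul_left h3 (by linarith)
    linarith
  have hMM : (MM T L : ℝ) ≤ 36 * a ^ 8 := by
    have h1 : (MM T L : ℝ) = ((T : ℝ) ^ 2 + 1) * (T : ℝ) ^ 2 * L := by
      unfold MM; push_cast; ring
    have h2 : ((T : ℝ) ^ 2 + 1) * (T : ℝ) ^ 2 * L ≤ 2 * ((T : ℝ) ^ 4 * L) := by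
      have h3 : (1 : ℝ) ≤ (T : ℝ) ^ 2 := one_le_pow₀ hTr
      have h4 : 0 ≤ (T : ℝ) ^ 2 * L := by positivity
      nlinarith
    rw [h1]
    linarith
  have hTMM : (T : ℝ) * MM T L ≤ 66 * a ^ 9 := by
    have h1 : (T : ℝ) * MM T L = ((T : ℝ) ^ 3 * ((T : ℝ) ^ 2 + 1)) * L := by
      unfold MM; push_cast; ring
    have h2 : (T : ℝ) ^ 3 * ((T : ℝ) ^ 2 + 1) ≤ 2 * (T : ℝ) ^ 5 := by
      have h3 : (1 : ℝ) ≤ (T : ℝ) ^ 2 := one_le_pow₀ hTr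
      have h4 : 0 ≤ (T : ℝ) ^ 3 := by positivity
      nlinarith
    rw [h1]
    linarith
  -- first term
  have t1 : ((T * T : ℕ) : ℝ) * (cc * Real.log (2 * ((N1 T L : ℝ) + 216)) + 2) ≤
      18 * (20 * cc + 2) * a ^ 8 * y := by
    have h1 : Real.log (2 * ((N1 T L : ℝ) + 216)) ≤ 20 * ((T : ℝ) ^ 2 * L) := by
      have h2 := log_nat_le (m := 2 * (N1 T L + 216)) (by omega) (N1_le hT hL1)
      push_cast at h2
      refine h2.trans ?_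
      have h3 : (1 : ℝ) ≤ (T : ℝ) ^ 2 := one_le_pow₀ hTr
      have h4 : (T : ℝ) ≤ (T : ℝ) ^ 2 := le_self_pow₀ hTr (by norm_num)
      have h5 : (T : ℝ) ^ 2 ≤ (T : ℝ) ^ 2 * L := le_mul_of_one_le_right (by positivity) hLr
      have h6 : (L : ℝ) ≤ (T : ℝ) ^ 2 * L := le_mul_of_one_le_left (by positivity) h3
      linarith
    have h7 : cc * Real.log (2 * ((N1 T L : ℝ) + 216)) ≤ cc * (20 * ((T : ℝ) ^ 2 * L)) :=
      mul_le_mul_of_nonneg_left h1 hcc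
    have h8 : (1 : ℝ) ≤ (T : ℝ) ^ 2 * L := one_le_mul_of_one_le_of_one_le (one_le_pow₀ hTr) hLr
    have h9 : cc * Real.log (2 * ((N1 T L : ℝ) + 216)) + 2 ≤ (20 * cc + 2) * ((T : ℝ) ^ 2 * L) := by
      linarith
    have h10 : ((T * T : ℕ) : ℝ) = (T : ℝ) ^ 2 := by push_cast; ring
    rw [h10]
    calc (T : ℝ) ^ 2 * (cc * Real.log (2 * ((N1 T L : ℝ) + 216)) + 2)
        ≤ (T : ℝ) ^ 2 * ((20 * cc + 2) * ((T : ℝ) ^ 2 * L)) := by gcongr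
      _ = (20 * cc + 2) * ((T : ℝ) ^ 4 * L) := by ring
      _ ≤ (20 * cc + 2) * (18 * a ^ 8) := by gcongr
      _ = 18 * (20 * cc + 2) * a ^ 8 * 1 := by ring
      _ ≤ 18 * (20 * cc + 2) * a ^ 8 * y := by gcongr
  -- second term
  have t2 : (bb T : ℝ) * (cc * Real.log (2 * ((N2 T L : ℝ) + 216)) + 2) ≤
      2560 * (699 * cc + 2) * a ^ 8 * y := by
    have h1 : (bb T : ℝ) ≤ 2560 * a ^ 8 := by
      have h2 : (bb T : ℝ) ≤ 10 * (T : ℝ) ^ 8 := by exact_mod_cast bb_le hT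
      linarith
    have h3 : Real.log (2 * ((N2 T L : ℝ) + 216)) ≤ 699 * y := by
      have h4 : 2 * ((N2 T L : ℝ) + 216) ≤ 698 * a ^ 9 := by
        have h5 : (N2 T L : ℝ) = 2 * ((T : ℝ) * MM T L) + 1 := by
          unfold N2; push_cast; ring
        rw [h5]
        linarith
      have h6 : Real.log (2 * ((N2 T L : ℝ) + 216)) ≤ Real.log (698 * a ^ 9) :=
        Real.log_le_log (by positivity) h4
      have h66 : Real.log (698 * a ^ 9) = Real.log 698 + y := by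
        rw [Real.log_mul (by norm_num) (by positivity), hlog]
      rw [h66] at h6
      have h7 : Real.log 698 ≤ 698 := Real.log_le_self (by norm_num)
      linarith
    have h8 : cc * Real.log (2 * ((N2 T L : ℝ) + 216)) ≤ cc * (699 * y) :=
      mul_le_mul_of_nonneg_left h3 hcc
    have h9 : cc * Real.log (2 * ((N2 T L : ℝ) + 216)) + 2 ≤ (699 * cc + 2) * y := by
      linarith
    have h10 : (0 : ℝ) ≤ (699 * cc + 2) * y := by positivity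
    calc (bb T : ℝ) * (cc * Real.log (2 * ((N2 T L : ℝ) + 216)) + 2)
        ≤ (bb T : ℝ) * ((699 * cc + 2) * y) := by gcongr
      _ ≤ (2560 * a ^ 8) * ((699 * cc + 2) * y) := by gcongr
      _ = 2560 * (699 * cc + 2) * a ^ 8 * y := by ring
  -- third term
  have t3 : cc * Real.log (2 * ((N3 T L : ℝ) + 216)) + 2 ≤ (49 * cc + 2) * a ^ 8 * y := by
    have h1 : Real.log (2 * ((N3 T L : ℝ) + 216)) ≤ 49 * a ^ 8 := by
      have h2 := log_nat_le (m := 2 * (N3 T L + 216)) (by omega) (N3_le hT)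
      push_cast at h2
      linarith
    have h7 : cc * Real.log (2 * ((N3 T L : ℝ) + 216)) ≤ cc * (49 * a ^ 8) :=
      mul_le_mul_of_nonneg_left h1 hcc
    calc cc * Real.log (2 * ((N3 T L : ℝ) + 216)) + 2 ≤ (49 * cc + 2) * a ^ 8 * 1 := by linarith
      _ ≤ (49 * cc + 2) * a ^ 8 * y := by gcongr
  calc _ ≤ 18 * (20 * cc + 2) * a ^ 8 * y + 2560 * (699 * cc + 2) * a ^ 8 * y +
        (49 * cc + 2) * a ^ 8 * y := add_le_add (add_le_add t1 t2) t3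
    _ = _ := by ring

theorem num (cc : ℝ) (hcc : 0 ≤ cc) :
    ∃ C : ℝ, 0 < C ∧ ∀ n : ℕ, 16 ≤ n → ∃ T L : ℕ, 1 ≤ L ∧ n ≤ 2 ^ (T * MM T L) ∧
      ((T * T : ℕ) : ℝ) * (cc * Real.log (2 * ((N1 T L : ℝ) + 216)) + 2) +
        (bb T : ℝ) * (cc * Real.log (2 * ((N2 T L : ℝ) + 216)) + 2) +
        (cc * Real.log (2 * ((N3 T L : ℝ) + 216)) + 2) ≤
      C * (Real.log n) ^ ((8 : ℝ) / 9) * Real.log (Real.log n) := by
  refine ⟨18 * (20 * cc + 2) + 2560 * (699 * cc + 2) + (49 * cc + 2), by positivity, ?_⟩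
  intro n hn
  have hn0 : (16 : ℝ) ≤ n := by exact_mod_cast hn
  have hl2 := Real.log_two_gt_d9
  have hx16 : 2.77 < Real.log n := by
    have h1 : Real.log 16 = 4 * Real.log 2 := by
      have : (16 : ℝ) = 2 ^ 4 := by norm_num
      rw [this, Real.log_pow]; norm_num
    have h2 : Real.log 16 ≤ Real.log n := Real.log_le_log (by norm_num) hn0
    linarith
  have hx0 : 0 < Real.log n := by linarith
  have hx1 : 1 ≤ Real.log n := by linarith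
  have hy : 1 ≤ Real.log (Real.log n) := by
    rw [Real.le_log_iff_exp_le hx0]
    have := Real.exp_one_lt_d9
    linarith
  set x := Real.log n with hx
  set a := x ^ ((1 : ℝ) / 9) with hadef
  have ha : 1 ≤ a := Real.one_le_rpow hx1 (by norm_num)
  have ha9 : a ^ 9 = x := by
    rw [hadef, ← Real.rpow_natCast, ← Real.rpow_mul hx0.le]
    norm_num
  have ha8 : x ^ ((8 : ℝ) / 9) = a ^ 8 := by
    rw [hadef, ← Real.rpow_natCast, ← Real.rpow_mul hx0.le]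
    norm_num
  set T := ⌈a⌉₊ with hTdef
  have hT1 : a ≤ T := Nat.le_ceil a
  have hT2 : (T : ℝ) ≤ 2 * a := by
    have := Nat.ceil_lt_add_one (by linarith : (0 : ℝ) ≤ a)
    linarith
  have hTr : (1 : ℝ) ≤ T := ha.trans hT1
  set D : ℝ := (T : ℝ) ^ 3 * ((T : ℝ) ^ 2 + 1) with hD
  have hD0 : 0 < D := by positivity
  set L := ⌈2 * x / D⌉₊ with hLdef
  have hq : 0 < 2 * x / D := by positivity
  have hL1 : 1 ≤ L := Nat.ceil_pos.2 hq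
  have hLlow : 2 * x ≤ D * L := by
    have := Nat.le_ceil (2 * x / D)
    rw [div_le_iff₀ hD0] at this
    linarith
  have hLup : D * L ≤ 2 * a ^ 9 + D := by
    have h1 := Nat.ceil_lt_add_one hq.le
    have h2 : D * (L : ℝ) ≤ D * (2 * x / D + 1) := by
      have : (L : ℝ) ≤ 2 * x / D + 1 := h1.le
      gcongr
    have h3 : D * (2 * x / D + 1) = 2 * x + D := by
      field_simp
    rw [ha9]
    linarith
  refine ⟨T, L, hL1, ?_, ?_⟩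
  · have h1 : (T : ℝ) * MM T L = D * L := by
      rw [hD]; unfold MM; push_cast; ring
    have h2 : (n : ℝ) ≤ 2 ^ (T * MM T L) := by
      have hn1 : (0 : ℝ) < n := by linarith
      rw [← Real.log_le_log_iff hn1 (by positivity), Real.log_pow]
      push_cast
      rw [h1]
      nlinarith
    exact_mod_cast h2
  · rw [ha8]
    exact core cc a _ hcc ha hy (by rw [ha9]) T L hT1 hT2 hL1 hLup

end Pool.Agent.H14.SX
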